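import Pool.Agent.H107Z.CutSector

set_option autoImplicit false

/-! Three concentric rings: no disc or half-plane cuts off the fraction `1/k` of both sets. -/

open MeasureTheory Set Metric Real Filter Topology

namespace Pool.Agent.H107Z.Cut

open Pool.Agent.Helper477.Circle

/-- the inequalities asked of the radii -/
structure Params (φ r1 s1 p r2 s2 c : ℝ) : Prop where
  h0 : 0 < r1
  h1 : r1 < s1
  h2 : s1 < 1
  h3 : 1 < p
  h4 : p < r2
  h5 : r2 < s2
  c0 : 0 < c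
  c1 : c < cos φ
  c2 : c ≤ s1
  w1 : (s1 ^ 2 - r1 ^ 2) * π < φ * ((s1 ^ 2 - r1 ^ 2) + (s2 ^ 2 - r2 ^ 2))
  w2 : cos φ * ((s1 ^ 2 - r1 ^ 2) + (s2 ^ 2 - r2 ^ 2))
    < (s1 ^ 2 - r1 ^ 2) * (c / s1) + (s2 ^ 2 - r2 ^ 2) * (c / s2)
  w3 : (s1 ^ 2 - r1 ^ 2) * ((p ^ 2 - r1 ^ 2) / r1) ≤ (s2 ^ 2 - r2 ^ 2) * ((r2 ^ 2 - p ^ 2) / s2)

lemma exists_params {φ : ℝ} (h0 : 0 < φ) (h4 : φ ≤ π / 4) :
    ∃ r1 s1 p r2 s2 c, Params φ r1 s1 p r2 s2 c := by
  have hpi := pi_pos
  set c := cos φ with hc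
  have hc1 : c < 1 := by
    rw [hc, ← cos_zero]
    exact cos_lt_cos_of_nonneg_of_le_pi le_rfl (by linarith) h0
  have hc2 : 1 / 2 < c := by
    rw [hc, ← cos_pi_div_three]
    exact cos_lt_cos_of_nonneg_of_le_pi h0.le (by linarith) (by linarith)
  have hc0 : 0 < c := by linarith
  set a := φ / (2 * π) with ha
  have ha0 : 0 < a := by positivity
  have ha1 : a ≤ 1 / 8 := by
    rw [ha, div_le_iff₀ (by positivity)]; linarith
  have haφ : a * π < φ := by
    rw [ha]; field_simp; linarith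
  set b := 1 - a with hb
  have hb0 : 0 < b := by linarith
  set y := a * (1 - c) / (c * b) with hy
  have hy0 : 0 < y := by
    have : 0 < 1 - c := by linarith
    positivity
  have hyb : y * (c * b) = a * (1 - c) := by rw [hy]; field_simp
  have hyt : y ≤ 1 - c := by
    rw [hy, div_le_iff₀ (by positivity)]
    have : a ≤ c * b := by nlinarith
    nlinarith
  set ρ := 1 + y with hρ
  have hρ0 : 0 < ρ := by linarith
  -- the data as functions of the thickness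
  let r1 : ℝ → ℝ := fun e => c - e * (a / c)
  let s2 : ℝ → ℝ := fun e => ρ + e * (b / ρ)
  let W1 : ℝ → ℝ := fun e => (a / c) * (c + r1 e)
  let W2 : ℝ → ℝ := fun e => (b / ρ) * (ρ + s2 e)
  have W10 : W1 0 = 2 * a := by simp only [W1, r1]; field_simp; ring
  have W20 : W2 0 = 2 * b := by simp only [W2, s2]; field_simp; ring
  have r10 : r1 0 = c := by simp [r1]
  have s20 : s2 0 = ρ := by simp [s2]
  have cr1 : ContinuousAt r1 0 := by simp only [r1]; fun_prop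
  have cs2 : ContinuousAt s2 0 := by simp only [s2]; fun_prop
  have cW1 : ContinuousAt W1 0 := continuousAt_const.mul (continuousAt_const.add cr1)
  have cW2 : ContinuousAt W2 0 := continuousAt_const.mul (continuousAt_const.add cs2)
  have cid : ContinuousAt (fun e : ℝ => e) 0 := continuousAt_id
  have e1 : ∀ᶠ e in 𝓝 (0:ℝ), 0 < r1 e :=
    continuousAt_const.eventually_lt cr1 (by rw [r10]; exact hc0)
  have e2 : ∀ᶠ e in 𝓝 (0:ℝ), 1 + e < ρ :=
    (continuousAt_const.add cid).eventually_lt continuousAt_const (by simp; linarith)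
  have e3 : ∀ᶠ e in 𝓝 (0:ℝ), 0 < c - e :=
    continuousAt_const.eventually_lt (continuousAt_const.sub cid) (by simpa using hc0)
  have e4 : ∀ᶠ e in 𝓝 (0:ℝ), W1 e * π < φ * (W1 e + W2 e) :=
    (cW1.mul continuousAt_const).eventually_lt (continuousAt_const.mul (cW1.add cW2))
      (by
        show W1 0 * π < φ * (W1 0 + W2 0)
        rw [W10, W20]
        have : φ * (2 * a + 2 * b) = 2 * φ := by rw [hb]; ring
        linarith)
  have e5 : ∀ᶠ e in 𝓝 (0:ℝ), c * (W1 e + W2 e) < W1 e * ((c - e) / c) + W2 e * ((c - e) / s2 e) := by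
    refine (continuousAt_const.mul (cW1.add cW2)).eventually_lt
      ((cW1.mul ((continuousAt_const.sub cid).div_const c)).add
        (cW2.mul ((continuousAt_const.sub cid).div cs2 (by rw [s20]; exact hρ0.ne')))) ?_
    show c * (W1 0 + W2 0) < W1 0 * ((c - 0) / c) + W2 0 * ((c - 0) / s2 0)
    rw [W10, W20, s20, sub_zero]
    have h1 : c * (1 - y) < c / ρ := by
      rw [lt_div_iff₀ hρ0, hρ]; nlinarith [mul_pos hc0 (mul_pos hy0 hy0)]
    rw [div_self hc0.ne']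
    have h2 := mul_lt_mul_of_pos_left h1 hb0
    have h3 : b * (c * (1 - y)) = b * c - a * (1 - c) := by rw [← hyb]; ring
    linarith
  have e6 : ∀ᶠ e in 𝓝 (0:ℝ),
      W1 e * (((1 + e) ^ 2 - r1 e ^ 2) / r1 e) < W2 e * ((ρ ^ 2 - (1 + e) ^ 2) / s2 e) := by
    refine (cW1.mul ((((continuousAt_const.add cid).pow 2).sub (cr1.pow 2)).div cr1
      (by rw [r10]; exact hc0.ne'))).eventually_lt
      (cW2.mul ((continuousAt_const.sub ((continuousAt_const.add cid).pow 2)).div cs2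
        (by rw [s20]; exact hρ0.ne'))) ?_
    show W1 0 * (((1 + 0) ^ 2 - r1 0 ^ 2) / r1 0) < W2 0 * ((ρ ^ 2 - (1 + 0) ^ 2) / s2 0)
    rw [W10, W20, s20, r10, add_zero, one_pow]
    have h1 : y * (1 + c) < (ρ ^ 2 - 1) / ρ := by
      rw [lt_div_iff₀ hρ0, hρ]
      have : (1 + c) * (1 + y) < 2 + y := by nlinarith
      nlinarith
    have h2 : a * ((1 - c ^ 2) / c) = b * (y * (1 + c)) := by
      have : b * (y * (1 + c)) = (y * (c * b)) * (1 + c) / c := by field_simp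
      rw [this, hyb]; field_simp; ring
    have h3 := mul_lt_mul_of_pos_left h1 hb0
    linarith
  obtain ⟨e, ⟨⟨⟨⟨⟨f1, f2⟩, f3⟩, f4⟩, f5⟩, f6⟩, he⟩ :=
    (((((((e1.and e2).and e3).and e4).and e5).and e6).filter_mono nhdsWithin_le_nhds).and
      (self_mem_nhdsWithin (s := Ioi (0:ℝ)))).exists
  have he0 : 0 < e := he
  have g1 : c ^ 2 - r1 e ^ 2 = e * W1 e := by simp only [W1, r1]; ring
  have g2 : s2 e ^ 2 - ρ ^ 2 = e * W2 e := by simp only [W2, s2]; ring
  refine ⟨r1 e, c, 1 + e, ρ, s2 e, c - e, f1, ?_, hc1, by linarith, f2, ?_, f3, by linarith,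
    by linarith, ?_, ?_, ?_⟩
  · simp only [r1]
    have : 0 < e * (a / c) := by positivity
    linarith
  · simp only [s2]
    have : 0 < e * (b / ρ) := by positivity
    linarith
  · rw [g1, g2]; nlinarith
  · rw [g1, g2, ← hc]; nlinarith
  · rw [g1, g2]; nlinarith

lemma main_est {φ r1 s1 p r2 s2 c : ℝ} (h0 : 0 < φ) (h4 : φ ≤ π / 4)
    (P : Params φ r1 s1 p r2 s2 c) {a b V : ℝ} (ha : 0 ≤ a) (hV : 0 ≤ V)
    (h1 : volume (Rad (Ioo 1 p) ∩ Reg a b (V • e0)) = ENNReal.ofReal ((p ^ 2 - 1 ^ 2) * φ))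
    (h2 : volume (Rad (Ioo r1 s1 ∪ Ioo r2 s2) ∩ Reg a b (V • e0))
      = ENNReal.ofReal (φ * ((s1 ^ 2 - r1 ^ 2) + (s2 ^ 2 - r2 ^ 2)))) : False := by
  obtain ⟨p0, p1, p2, p3, p4, p5, c0, c1, c2, w1, w2, w3⟩ := P
  have hpi := pi_pos
  have hmem : ∀ x : E, x ∈ Reg a b (V • e0) ↔ a * ‖x‖ ^ 2 + b < V * x 0 := by
    intro x
    simp only [Reg, mem_ofPred_eq, inner_smul_right, inner_e0]
  have hW1 : 0 < s1 ^ 2 - r1 ^ 2 := by nlinarith
  have hW2 : 0 < s2 ^ 2 - r2 ^ 2 := by nlinarith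
  -- a radius where the region does not reach the angle `arccos c`
  have hρ : ∃ ρ ∈ Ioo 1 p, V * (c * ρ) ≤ a * ρ ^ 2 + b := by
    by_contra hcon
    push Not at hcon
    have hsub : Sector 1 p c ⊆ Rad (Ioo 1 p) ∩ Reg a b (V • e0) := by
      rintro x ⟨hx1, hx2⟩
      refine ⟨hx1, (hmem x).2 ?_⟩
      exact lt_of_lt_of_le (hcon _ hx1) (mul_le_mul_of_nonneg_left hx2.le hV)
    have := measure_mono (μ := volume) hsub
    have hp : 0 < p ^ 2 - 1 ^ 2 := by nlinarith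
    rw [h1, vol_Sector zero_le_one p3.le, ENNReal.ofReal_le_ofReal_iff (by positivity)] at this
    have h3 := arccos_lt_arccos (by linarith : -1 ≤ c) c1 (cos_le_one φ)
    rw [arccos_cos h0.le (by linarith)] at h3
    nlinarith
  obtain ⟨ρ, ⟨ρ1, ρ2⟩, hρ⟩ := hρ
  have split : Rad (Ioo r1 s1 ∪ Ioo r2 s2) = Rad (Ioo r1 s1) ∪ Rad (Ioo r2 s2) := by
    ext x; simp [Rad]
  have hinner : ∀ T : Set E, Rad (Ioo r1 s1 ∪ Ioo r2 s2) ∩ Reg a b (V • e0) ⊆ T →
      volume T ≤ ENNReal.ofReal ((s1 ^ 2 - r1 ^ 2) * π) → False := by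
    intro T hT hvol
    have := (measure_mono (μ := volume) hT).trans hvol
    rw [h2, ENNReal.ofReal_le_ofReal_iff (by positivity)] at this
    linarith
  rcases hV.eq_or_lt with rfl | hV
  · refine hinner (Rad (Ioo r1 s1)) ?_ (vol_Rad p0.le p1.le).le
    rintro x ⟨hx, hxr⟩
    rw [split] at hx
    rcases hx with hx | hx
    · exact hx
    · exfalso
      rw [hmem] at hxr
      have : ρ ^ 2 ≤ ‖x‖ ^ 2 := by
        have := hx.1
        apply pow_le_pow_left₀ <;> linarith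
      nlinarith
  set σ := a / V with hσ
  have hσ0 : 0 ≤ σ := by positivity
  have haσ : a = V * σ := by rw [hσ]; field_simp
  have key : ∀ x ∈ Reg a b (V • e0), σ * (‖x‖ ^ 2 - ρ ^ 2) + c * ρ < x 0 := by
    intro x hx
    rw [hmem] at hx
    apply lt_of_mul_lt_mul_left _ hV.le
    rw [haσ] at hx hρ
    nlinarith
  set H1 := c / s1 - σ * ((p ^ 2 - r1 ^ 2) / r1) with hH1
  set H2 := c / s2 + σ * ((r2 ^ 2 - p ^ 2) / s2) with hH2
  have s10 : 0 < s1 := by linarith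
  have s20 : 0 < s2 := by linarith
  have K1 : 0 ≤ p ^ 2 - r1 ^ 2 := by nlinarith
  have K2 : 0 ≤ r2 ^ 2 - p ^ 2 := by nlinarith
  have hsub : Rad (Ioo r1 s1 ∪ Ioo r2 s2) ∩ Reg a b (V • e0) ⊆ Sector r1 s1 H1 ∪ Sector r2 s2 H2 := by
    rintro x ⟨hx, hxr⟩
    have hk := key x hxr
    rw [split] at hx
    rcases hx with hx | hx
    · left
      refine ⟨hx, lt_of_le_of_lt ?_ hk⟩
      obtain ⟨x1, x2⟩ := hx
      have t1 : c / s1 * ‖x‖ ≤ c * ρ := by
        have : c / s1 * ‖x‖ ≤ c / s1 * s1 := mul_le_mul_of_nonneg_left x2.le (by positivity)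
        rw [div_mul_cancel₀ _ s10.ne'] at this
        nlinarith
      have t2 : p ^ 2 - r1 ^ 2 ≤ (p ^ 2 - r1 ^ 2) / r1 * ‖x‖ := by
        have : (p ^ 2 - r1 ^ 2) / r1 * r1 ≤ (p ^ 2 - r1 ^ 2) / r1 * ‖x‖ :=
          mul_le_mul_of_nonneg_left x1.le (by positivity)
        rwa [div_mul_cancel₀ _ p0.ne'] at this
      have t3 : -(p ^ 2 - r1 ^ 2) ≤ ‖x‖ ^ 2 - ρ ^ 2 := by nlinarith
      have t4 := mul_le_mul_of_nonneg_left t2 hσ0
      have t5 := mul_le_mul_of_nonneg_left t3 hσ0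
      rw [hH1]
      nlinarith
    · right
      refine ⟨hx, lt_of_le_of_lt ?_ hk⟩
      obtain ⟨x1, x2⟩ := hx
      have t0 : H2 * ‖x‖ ≤ H2 * s2 := mul_le_mul_of_nonneg_left x2.le (by positivity)
      have t1 : H2 * s2 = c + σ * (r2 ^ 2 - p ^ 2) := by rw [hH2]; field_simp
      have t3 : r2 ^ 2 - p ^ 2 ≤ ‖x‖ ^ 2 - ρ ^ 2 := by nlinarith
      have t5 := mul_le_mul_of_nonneg_left t3 hσ0
      nlinarith
  have hvol := (measure_mono (μ := volume) hsub).trans (measure_union_le _ _)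
  have a1 := arccos_nonneg H1
  have a2 := arccos_nonneg H2
  rw [h2, vol_Sector p0.le p1.le, vol_Sector (by linarith) p5.le,
    ← ENNReal.ofReal_add (by positivity) (by positivity),
    ENNReal.ofReal_le_ofReal_iff (by positivity)] at hvol
  by_cases hH : 1 ≤ H2
  · rw [arccos_of_one_le hH] at hvol
    have := mul_le_mul_of_nonneg_left (arccos_le_pi H1) hW1.le
    linarith
  · have hH1le : H1 ≤ 1 := by
      have u1 : c / s1 ≤ 1 := (div_le_one s10).2 c2
      have u2 : 0 ≤ σ * ((p ^ 2 - r1 ^ 2) / r1) := by positivity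
      linarith
    have t1 := tangent h0.le h4 hH1le
    have t2 := tangent h0.le h4 (not_le.1 hH).le
    have hs : 0 < sin φ := sin_pos_of_pos_of_lt_pi h0 (by linarith)
    have u1 := mul_le_mul_of_nonneg_left t1 hW1.le
    have u2 := mul_le_mul_of_nonneg_left t2 hW2.le
    have u3 := mul_le_mul_of_nonneg_left w3 hσ0
    have u4 := mul_le_mul_of_nonneg_right hvol hs.le
    rw [hH1] at u1
    rw [hH2] at u2
    nlinarith

theorem not_good (k : ℕ) (hk : 3 ≤ k) : ∃ A₁ A₂ : Set E, MeasurableSet A₁ ∧ MeasurableSet A₂ ∧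
    volume A₁ < ⊤ ∧ volume A₂ < ⊤ ∧ ∀ (a b : ℝ) (v : E), 0 ≤ a →
      volume (A₁ ∩ Reg a b v) = volume A₁ / k → volume (A₂ ∩ Reg a b v) = volume A₂ / k → False := by
  rcases hk.eq_or_lt with rfl | hk
  · refine ⟨A1, A2, meas_A1, meas_A2, by rw [vol_A1]; exact ENNReal.ofReal_lt_top,
      lt_top_iff_ne_top.2 vol_A2_ne_top, fun a b v ha h1 h2 => no_cut a b ha v ?_ ?_⟩
    · simpa using h1
    · simpa using h2
  have hk4 : (4:ℝ) ≤ k := by exact_mod_cast hk
  have hpi := pi_pos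
  have h0 : 0 < π / k := by positivity
  have h4 : π / k ≤ π / 4 := by gcongr
  obtain ⟨r1, s1, p, r2, s2, c, P⟩ := exists_params h0 h4
  have hdis : Disjoint (Rad (Ioo r1 s1)) (Rad (Ioo r2 s2)) := by
    rw [Set.disjoint_left]
    intro x hx hx'
    linarith [hx.2, hx'.1, P.h2, P.h3, P.h4]
  have split : Rad (Ioo r1 s1 ∪ Ioo r2 s2) = Rad (Ioo r1 s1) ∪ Rad (Ioo r2 s2) := by
    ext x; simp [Rad]
  have hW1 : 0 < s1 ^ 2 - r1 ^ 2 := by nlinarith [P.h0, P.h1]
  have hW2 : 0 < s2 ^ 2 - r2 ^ 2 := by nlinarith [P.h3, P.h4, P.h5]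
  have v1 := vol_Rad zero_le_one P.h3.le
  have v2 : volume (Rad (Ioo r1 s1 ∪ Ioo r2 s2))
      = ENNReal.ofReal (((s1 ^ 2 - r1 ^ 2) + (s2 ^ 2 - r2 ^ 2)) * π) := by
    rw [split, measure_union hdis (measurableSet_Rad measurableSet_Ioo), vol_Rad P.h0.le P.h1.le,
      vol_Rad (by linarith [P.h3, P.h4]) P.h5.le,
      ← ENNReal.ofReal_add (by positivity) (by positivity)]
    congr 1; ring
  have hkE : (k : ENNReal) = ENNReal.ofReal k := by simp
  refine ⟨Rad (Ioo 1 p), Rad (Ioo r1 s1 ∪ Ioo r2 s2), measurableSet_Rad measurableSet_Ioo,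
    measurableSet_Rad (measurableSet_Ioo.union measurableSet_Ioo),
    by rw [v1]; exact ENNReal.ofReal_lt_top, by rw [v2]; exact ENNReal.ofReal_lt_top,
    fun a b v ha h1 h2 => ?_⟩
  rw [vol_rot _ measurableSet_Ioo, v1, hkE, ← ENNReal.ofReal_div_of_pos (by linarith)] at h1
  rw [vol_rot _ (measurableSet_Ioo.union measurableSet_Ioo), v2, hkE,
    ← ENNReal.ofReal_div_of_pos (by linarith)] at h2
  refine main_est h0 h4 P ha (norm_nonneg v) (h1.trans ?_) (h2.trans ?_)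
  · congr 1; ring
  · congr 1; ring

end Pool.Agent.H107Z.Cut
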