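import Pool.Agent.Helper477.Circle

set_option autoImplicit false

/-! Areas of annular sectors and the tangent line bound for `arccos`. -/

open MeasureTheory Set Metric Real

namespace Pool.Agent.H107Z.Cut

open Pool.Agent.Helper477.Circle

/-- annular sector -/
def Sector (r r' h : ℝ) : Set E := {x | ‖x‖ ∈ Ioo r r' ∧ h * ‖x‖ < x 0}

lemma cos_gt_iff (h θ : ℝ) (hθ : θ ∈ Ioo (-π) π) : h < cos θ ↔ θ ∈ Ioo (-arccos h) (arccos h) := by
  have habs : |θ| < π := abs_lt.2 hθ
  rw [mem_Ioo, ← abs_lt, ← cos_abs θ]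
  have h0 := abs_nonneg θ
  generalize |θ| = s at habs h0
  constructor
  · intro hlt
    by_cases h1 : h ≤ -1
    · rw [arccos_of_le_neg_one h1]; exact habs
    · have := arccos_lt_arccos (not_le.1 h1).le hlt (cos_le_one s)
      rwa [arccos_cos h0 habs.le] at this
  · intro hlt
    by_contra hc
    have := arccos_le_arccos (not_lt.1 hc)
    rw [arccos_cos h0 habs.le] at this
    linarith

lemma vol_Sector {r r' : ℝ} (hr : 0 ≤ r) (hrr : r ≤ r') (h : ℝ) :
    volume (Sector r r' h) = ENNReal.ofReal ((r' ^ 2 - r ^ 2) * arccos h) := by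
  let S' : Set (ℝ × ℝ) := {p | √(p.1 ^ 2 + p.2 ^ 2) ∈ Ioo r r' ∧ h * √(p.1 ^ 2 + p.2 ^ 2) < p.1}
  have hS' : MeasurableSet S' := by
    apply MeasurableSet.inter
    · exact measurableSet_Ioo.preimage (by fun_prop)
    · exact measurableSet_lt (f := fun p : ℝ × ℝ => h * √(p.1 ^ 2 + p.2 ^ 2)) (g := fun p => p.1)
        (by fun_prop) (by fun_prop)
  have mp : MeasurePreserving (fun x : E => (x 0, x 1)) volume volume :=
    (volume_preserving_finTwoArrow ℝ).comp (PiLp.volume_preserving_ofLp (Fin 2))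
  have e1 : Sector r r' h = (fun x : E => (x 0, x 1)) ⁻¹' S' := by
    ext x
    have : ‖x‖ = √(x 0 ^ 2 + x 1 ^ 2) := by
      rw [← norm_sq, Real.sqrt_sq (norm_nonneg x)]
    simp only [Sector, S', mem_ofPred_eq, mem_preimage, this]
  rw [e1, mp.measure_preimage hS'.nullMeasurableSet, ← lintegral_indicator_one hS',
    ← lintegral_comp_polarCoord_symm]
  have e2 : ∫⁻ p in polarCoord.target, ENNReal.ofReal p.1 • S'.indicator 1 (polarCoord.symm p)
      = ∫⁻ p in Ioo r r' ×ˢ Ioo (-arccos h) (arccos h), ENNReal.ofReal p.1 := by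
    have hsub : Ioo r r' ×ˢ Ioo (-arccos h) (arccos h) ⊆ polarCoord.target := by
      rintro ⟨a, b⟩ ⟨h1, h2⟩
      refine ⟨lt_of_le_of_lt hr h1.1, ?_, ?_⟩
      · linarith [h2.1, arccos_le_pi h]
      · linarith [h2.2, arccos_le_pi h]
    rw [← inter_eq_self_of_subset_left hsub, ← setLIntegral_indicator
      (measurableSet_Ioo.prod measurableSet_Ioo)]
    refine setLIntegral_congr_fun polarCoord.open_target.measurableSet ?_
    rintro ⟨a, b⟩ ⟨ha, hb⟩
    have ha' : 0 < a := ha
    have hs : √((a * cos b) ^ 2 + (a * sin b) ^ 2) = a := by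
      rw [show (a * cos b) ^ 2 + (a * sin b) ^ 2 = a ^ 2 by
        nlinarith [sin_sq_add_cos_sq b]]
      exact Real.sqrt_sq ha'.le
    have hiff : polarCoord.symm (a, b) ∈ S' ↔ (a, b) ∈ Ioo r r' ×ˢ Ioo (-arccos h) (arccos h) := by
      simp only [polarCoord_symm_apply, S', mem_ofPred_eq, hs, mem_prod]
      rw [← cos_gt_iff h b hb, mul_comm h a, mul_lt_mul_iff_right₀ ha']
    by_cases hm : (a, b) ∈ Ioo r r' ×ˢ Ioo (-arccos h) (arccos h)
    · simp only [indicator_of_mem hm, indicator_of_mem (hiff.2 hm)]; simp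
    · simp only [indicator_of_notMem hm, indicator_of_notMem (fun h' => hm (hiff.1 h'))]; simp
  rw [e2, Measure.volume_eq_prod, ← Measure.prod_restrict,
    lintegral_prod _ (by fun_prop)]
  simp only [lintegral_const, Measure.restrict_apply MeasurableSet.univ, univ_inter,
    Real.volume_Ioo]
  rw [lintegral_mul_const _ (by fun_prop)]
  have e3 : ∫⁻ x in Ioo r r', ENNReal.ofReal x = ENNReal.ofReal ((r' ^ 2 - r ^ 2) / 2) := by
    rw [← ofReal_integral_eq_lintegral_ofReal]
    · rw [← integral_Ioc_eq_integral_Ioo, ← intervalIntegral.integral_of_le hrr, integral_id]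
    · exact (continuous_id.integrableOn_Icc).mono_set Ioo_subset_Icc_self
    · refine (ae_restrict_iff' measurableSet_Ioo).2 (Filter.Eventually.of_forall fun x hx => ?_)
      exact hr.trans hx.1.le
  have hnn : 0 ≤ (r' ^ 2 - r ^ 2) / 2 := by nlinarith
  rw [e3, ← ENNReal.ofReal_mul hnn]
  congr 1
  ring

lemma vol_Rad {r r' : ℝ} (hr : 0 ≤ r) (hrr : r ≤ r') :
    volume (Rad (Ioo r r')) = ENNReal.ofReal ((r' ^ 2 - r ^ 2) * π) := by
  have : Rad (Ioo r r') = Sector r r' (-2) := by
    ext x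
    simp only [Rad, Sector, mem_ofPred_eq, iff_self_and]
    intro hx
    have h1 : |x 0| ≤ ‖x‖ :=
      abs_le_of_sq_le_sq (by nlinarith [sq_nonneg (x 1), norm_sq x]) (norm_nonneg x)
    have h2 := (abs_le.1 h1).1
    have h3 : 0 < ‖x‖ := lt_of_le_of_lt hr hx.1
    linarith
  rw [this, vol_Sector hr hrr, arccos_of_le_neg_one (by norm_num)]

lemma end_bound {φ : ℝ} (h0 : 0 ≤ φ) (h4 : φ ≤ π / 4) : (π - φ) * sin φ ≤ 1 + cos φ := by
  let f : ℝ → ℝ := fun t => 1 + cos t - (π - t) * sin t
  have hd : ∀ t, HasDerivAt f (-((π - t) * cos t)) t := by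
    intro t
    have h1 := ((hasDerivAt_cos t).const_add 1).sub
      (((hasDerivAt_id t).const_sub π).mul (hasDerivAt_sin t))
    refine HasDerivAt.congr_deriv h1 ?_
    simp only [id]; ring
  have anti : AntitoneOn f (Icc 0 (π / 4)) := by
    apply antitoneOn_of_deriv_nonpos (convex_Icc _ _)
    · exact fun t _ => (hd t).continuousAt.continuousWithinAt
    · exact fun t _ => (hd t).differentiableAt.differentiableWithinAt
    · intro t ht
      rw [interior_Icc] at ht
      rw [(hd t).deriv]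
      have : 0 ≤ cos t := cos_nonneg_of_mem_Icc ⟨by linarith [ht.1, pi_pos], by linarith [ht.2, pi_pos]⟩
      have : 0 ≤ π - t := by linarith [ht.2, pi_pos]
      have : 0 ≤ (π - t) * cos t := by positivity
      linarith
  have h1 := anti ⟨h0, h4⟩ ⟨by positivity, le_rfl⟩ h4
  have h2 : 0 ≤ f (π / 4) := by
    simp only [f, cos_pi_div_four, sin_pi_div_four]
    have hs : √2 ^ 2 = 2 := Real.sq_sqrt (by norm_num)
    have hs0 : 0 ≤ √2 := Real.sqrt_nonneg 2
    have hs1 : √2 ≤ 1.4143 := by nlinarith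
    have := Real.pi_lt_d2
    have := Real.pi_gt_three
    nlinarith
  simp only [f] at h1 h2
  linarith

lemma tangent_aux {φ : ℝ} (h0 : 0 ≤ φ) (h4 : φ ≤ π / 4) {θ : ℝ} (hθ0 : 0 ≤ θ) (hθ1 : θ ≤ π) :
    (θ - φ) * sin φ ≤ cos φ - cos θ := by
  let g : ℝ → ℝ := fun t => cos φ - cos t - (t - φ) * sin φ
  have hd : ∀ t, HasDerivAt g (sin t - sin φ) t := by
    intro t
    have h1 := ((hasDerivAt_cos t).const_sub (cos φ)).sub
      (((hasDerivAt_id t).sub_const φ).mul_const (sin φ))
    refine HasDerivAt.congr_deriv h1 ?_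
    ring
  have hpi := pi_pos
  have g0 : g φ = 0 := by simp [g]
  have gpi : 0 ≤ g π := by
    simp only [g, cos_pi]; linarith [end_bound h0 h4]
  suffices 0 ≤ g θ by simp only [g] at this; linarith
  have sinle : ∀ t, 0 ≤ t → t ≤ φ → sin t ≤ sin φ := fun t a b =>
    sin_le_sin_of_le_of_le_pi_div_two (by linarith) (by linarith) b
  have sinle2 : ∀ t, φ ≤ t → t ≤ π / 2 → sin φ ≤ sin t := fun t a b =>
    sin_le_sin_of_le_of_le_pi_div_two (by linarith) b a
  by_cases c1 : θ ≤ φ
  · have anti : AntitoneOn g (Icc 0 φ) := by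
      apply antitoneOn_of_deriv_nonpos (convex_Icc _ _)
      · exact fun t _ => (hd t).continuousAt.continuousWithinAt
      · exact fun t _ => (hd t).differentiableAt.differentiableWithinAt
      · intro t ht
        rw [interior_Icc] at ht
        rw [(hd t).deriv]
        linarith [sinle t ht.1.le ht.2.le]
    have := anti ⟨hθ0, c1⟩ ⟨h0, le_rfl⟩ c1
    linarith
  by_cases c2 : θ ≤ π - φ
  · have mono : MonotoneOn g (Icc φ (π - φ)) := by
      apply monotoneOn_of_deriv_nonneg (convex_Icc _ _)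
      · exact fun t _ => (hd t).continuousAt.continuousWithinAt
      · exact fun t _ => (hd t).differentiableAt.differentiableWithinAt
      · intro t ht
        rw [interior_Icc] at ht
        rw [(hd t).deriv]
        by_cases c3 : t ≤ π / 2
        · linarith [sinle2 t ht.1.le c3]
        · have := sinle2 (π - t) (by linarith [ht.2]) (by linarith)
          rw [sin_pi_sub] at this
          linarith
    have := mono ⟨le_rfl, by linarith⟩ ⟨by linarith, c2⟩ (by linarith : φ ≤ θ)
    linarith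
  · have anti : AntitoneOn g (Icc (π - φ) π) := by
      apply antitoneOn_of_deriv_nonpos (convex_Icc _ _)
      · exact fun t _ => (hd t).continuousAt.continuousWithinAt
      · exact fun t _ => (hd t).differentiableAt.differentiableWithinAt
      · intro t ht
        rw [interior_Icc] at ht
        rw [(hd t).deriv]
        have := sinle (π - t) (by linarith [ht.2]) (by linarith [ht.1])
        rw [sin_pi_sub] at this
        linarith
    have := anti ⟨by linarith, hθ1⟩ ⟨by linarith, le_rfl⟩ hθ1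
    linarith

lemma tangent {φ : ℝ} (h0 : 0 ≤ φ) (h4 : φ ≤ π / 4) {h : ℝ} (h1 : h ≤ 1) :
    (arccos h - φ) * sin φ ≤ cos φ - h := by
  have := tangent_aux h0 h4 (arccos_nonneg h) (arccos_le_pi h)
  by_cases c : -1 ≤ h
  · rwa [cos_arccos c h1] at this
  · rw [arccos_of_le_neg_one (not_le.1 c).le] at this ⊢
    rw [cos_pi] at this
    linarith [not_le.1 c]

end Pool.Agent.H107Z.Cut
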