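import Mathlib

set_option autoImplicit false
set_option linter.unusedSectionVars false
set_option linter.unusedSimpArgs false

/-! The Fock (Fischer) inner product on polynomials and the permanent of a Gram matrix. -/

namespace Pool.Agent.H107Z

open MvPolynomial Finset
open scoped ComplexConjugate

theorem permanent_succ_col {R : Type*} [CommSemiring R] {n : ℕ}
    (A : Matrix (Fin (n+1)) (Fin (n+1)) R) :
    A.permanent = ∑ i : Fin (n+1), A i 0 * (A.submatrix i.succAbove Fin.succ).permanent := by
  rw [Matrix.permanent, Finset.univ_perm_fin_succ, ← Finset.univ_product_univ]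
  simp only [Finset.sum_map, Equiv.toEmbedding_apply, Finset.sum_product]
  refine Finset.sum_congr rfl fun i _ => Fin.cases ?_ (fun i => ?_) i
  · simp only [Fin.prod_univ_succ, Matrix.permanent, Finset.mul_sum,
      Equiv.Perm.decomposeFin_symm_apply_zero, Equiv.swap_self,
      Equiv.Perm.decomposeFin_symm_apply_succ, Fin.succAbove_zero, Equiv.coe_refl, id,
      Matrix.submatrix_apply]
  rw [← Matrix.permanent_permute_cols i.cycleRange, Matrix.permanent, Finset.mul_sum]
  refine Finset.sum_congr rfl fun σ _ => ?_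
  simp only [Fin.prod_univ_succ, Fin.succAbove_cycleRange, Matrix.submatrix_apply, id,
        Equiv.Perm.decomposeFin_symm_apply_zero, Equiv.Perm.decomposeFin_symm_apply_succ]

theorem permanent_succ_row {R : Type*} [CommSemiring R] {n : ℕ}
    (A : Matrix (Fin (n+1)) (Fin (n+1)) R) :
    A.permanent = ∑ j : Fin (n+1), A 0 j * (A.submatrix Fin.succ j.succAbove).permanent := by
  rw [← Matrix.permanent_transpose A, permanent_succ_col]
  refine Finset.sum_congr rfl fun i _ => ?_
  rw [← Matrix.permanent_transpose]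
  simp only [Matrix.transpose_apply, Matrix.transpose_submatrix, Matrix.transpose_transpose]

variable {σ : Type} [Fintype σ] [DecidableEq σ]

/-- product of the factorials of the exponents -/
noncomputable def wt (m : σ →₀ ℕ) : ℕ := ∏ k, (m k).factorial

lemma wt_single_add (m : σ →₀ ℕ) (i : σ) : wt (Finsupp.single i 1 + m) = wt m * (m i + 1) := by
  unfold wt
  rw [← Finset.mul_prod_erase _ _ (Finset.mem_univ i),
    ← Finset.mul_prod_erase _ (fun k => (m k).factorial) (Finset.mem_univ i)]
  have : ∏ k ∈ univ.erase i, ((Finsupp.single i 1 + m : σ →₀ ℕ) k).factorial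
      = ∏ k ∈ univ.erase i, (m k).factorial := by
    refine Finset.prod_congr rfl fun k hk => ?_
    have hk' : k ≠ i := Finset.ne_of_mem_erase hk
    simp [Finsupp.single_apply, hk'.symm]
  rw [this]
  simp [add_comm 1 (m i), Nat.factorial_succ]
  ring

lemma wt_pos (m : σ →₀ ℕ) : 0 < wt m := Finset.prod_pos fun k _ => Nat.factorial_pos _

/-- the Fock inner product -/
noncomputable def fock (p q : MvPolynomial σ ℂ) : ℂ :=
  ∑ m ∈ p.support, (wt m : ℂ) * conj (coeff m p) * coeff m q

lemma fock_eq_sum (p q : MvPolynomial σ ℂ) (S : Finset (σ →₀ ℕ)) (h : p.support ⊆ S) :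
    fock p q = ∑ m ∈ S, (wt m : ℂ) * conj (coeff m p) * coeff m q := by
  unfold fock
  refine Finset.sum_subset h fun m _ hm => ?_
  rw [MvPolynomial.notMem_support_iff.1 hm]; simp

lemma fock_add_left (p p' q : MvPolynomial σ ℂ) : fock (p + p') q = fock p q + fock p' q := by
  rw [fock_eq_sum (p + p') q (p.support ∪ p'.support) MvPolynomial.support_add,
    fock_eq_sum p q (p.support ∪ p'.support) Finset.subset_union_left,
    fock_eq_sum p' q (p.support ∪ p'.support) Finset.subset_union_right, ← Finset.sum_add_distrib]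
  refine Finset.sum_congr rfl fun m _ => ?_
  simp only [coeff_add, map_add]; ring

lemma fock_add_right (p q q' : MvPolynomial σ ℂ) : fock p (q + q') = fock p q + fock p q' := by
  unfold fock
  rw [← Finset.sum_add_distrib]
  refine Finset.sum_congr rfl fun m _ => ?_
  simp only [coeff_add]; ring

lemma fock_C_mul_left (c : ℂ) (p q : MvPolynomial σ ℂ) : fock (C c * p) q = conj c * fock p q := by
  have h : (C c * p).support ⊆ p.support := by
    intro m hm
    rw [MvPolynomial.mem_support_iff] at hm ⊢
    intro h0; apply hm; rw [coeff_C_mul, h0, mul_zero]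
  rw [fock_eq_sum (C c * p) q p.support h]
  unfold fock
  rw [Finset.mul_sum]
  refine Finset.sum_congr rfl fun m _ => ?_
  simp only [coeff_C_mul, map_mul]; ring

lemma fock_C_mul_right (c : ℂ) (p q : MvPolynomial σ ℂ) : fock p (C c * q) = c * fock p q := by
  unfold fock
  rw [Finset.mul_sum]
  refine Finset.sum_congr rfl fun m _ => ?_
  simp only [coeff_C_mul]; ring

lemma fock_zero_left (q : MvPolynomial σ ℂ) : fock 0 q = 0 := by simp [fock]

lemma fock_zero_right (p : MvPolynomial σ ℂ) : fock p 0 = 0 := by simp [fock]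

lemma fock_sum_left {ι : Type} (s : Finset ι) (f : ι → MvPolynomial σ ℂ) (q : MvPolynomial σ ℂ) :
    fock (∑ i ∈ s, f i) q = ∑ i ∈ s, fock (f i) q := by
  classical
  induction s using Finset.induction_on with
  | empty => simp [fock_zero_left]
  | insert a s ha ih => rw [Finset.sum_insert ha, Finset.sum_insert ha, fock_add_left, ih]

lemma fock_sum_right {ι : Type} (s : Finset ι) (f : ι → MvPolynomial σ ℂ) (p : MvPolynomial σ ℂ) :
    fock p (∑ i ∈ s, f i) = ∑ i ∈ s, fock p (f i) := by
  classical
  induction s using Finset.induction_on with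
  | empty => simp [fock_zero_right]
  | insert a s ha ih => rw [Finset.sum_insert ha, Finset.sum_insert ha, fock_add_right, ih]

lemma fock_X_mul_left (i : σ) (p q : MvPolynomial σ ℂ) :
    fock (X i * p) q = fock p (pderiv i q) := by
  unfold fock
  rw [MvPolynomial.support_X_mul, Finset.sum_map]
  refine Finset.sum_congr rfl fun m _ => ?_
  simp only [addLeftEmbedding_apply, coeff_X_mul, coeff_pderiv, wt_single_add]
  rw [add_comm m]
  push_cast; ring

/-- the linear form with coefficient vector `v` -/
noncomputable def lin (v : σ → ℂ) : MvPolynomial σ ℂ := ∑ k, C (v k) * X k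

lemma pderiv_lin (v : σ → ℂ) (k : σ) : pderiv k (lin v) = C (v k) := by
  unfold lin
  rw [map_sum, Finset.sum_eq_single k]
  · simp [pderiv_C_mul]
  · intro j _ hj
    simp [pderiv_C_mul, pderiv_X, Pi.single_apply, hj]
  · simp

lemma pderiv_prod {ι : Type} [DecidableEq ι] (s : Finset ι) (f : ι → MvPolynomial σ ℂ) (k : σ) :
    pderiv k (∏ t ∈ s, f t) = ∑ t ∈ s, pderiv k (f t) * ∏ t' ∈ s.erase t, f t' := by
  induction s using Finset.induction_on with
  | empty => simp
  | insert a s ha ih =>
    rw [Finset.prod_insert ha, Finset.sum_insert ha, pderiv_mul, ih, Finset.erase_insert ha,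
      Finset.mul_sum]
    congr 1
    refine Finset.sum_congr rfl fun t ht => ?_
    have hne : a ≠ t := fun h => ha (h ▸ ht)
    rw [Finset.erase_insert_of_ne hne, Finset.prod_insert (fun h => ha (Finset.mem_of_mem_erase h))]
    ring

lemma prod_erase_succAbove {M : Type*} [CommMonoid M] {n : ℕ} (f : Fin (n+1) → M) (t : Fin (n+1)) :
    ∏ t' ∈ univ.erase t, f t' = ∏ s : Fin n, f (t.succAbove s) := by
  have : (univ.erase t : Finset (Fin (n+1))) = univ.image t.succAbove := by
    rw [Fin.image_succAbove_univ]; ext x; simp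
  rw [this, Finset.prod_image (fun x _ y _ h => Fin.succAbove_right_injective h)]

lemma fock_lin_mul (u : σ → ℂ) (p q : MvPolynomial σ ℂ) :
    fock (lin u * p) q = ∑ k, conj (u k) * fock p (pderiv k q) := by
  unfold lin
  rw [Finset.sum_mul, fock_sum_left]
  refine Finset.sum_congr rfl fun k _ => ?_
  rw [mul_assoc, fock_C_mul_left, fock_X_mul_left]

theorem fock_prod (n : ℕ) (u v : Fin n → σ → ℂ) :
    fock (∏ s, lin (u s)) (∏ t, lin (v t))
      = (Matrix.of fun s t => ∑ k, conj (u s k) * v t k).permanent := by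
  induction n with
  | zero =>
    simp only [Finset.univ_eq_empty, Finset.prod_empty, Matrix.permanent_isEmpty]
    rw [fock_eq_sum 1 1 {0} (by rw [← C_1]; exact MvPolynomial.support_monomial_subset)]
    simp [wt]
  | succ n ih =>
    rw [Fin.prod_univ_succ, fock_lin_mul, permanent_succ_row]
    simp only [pderiv_prod, pderiv_lin, fock_sum_right, fock_C_mul_right, prod_erase_succAbove,
      Finset.mul_sum]
    rw [Finset.sum_comm]
    refine Finset.sum_congr rfl fun t _ => ?_
    rw [ih (fun s => u s.succ) (fun s => v (t.succAbove s))]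
    simp only [Matrix.of_apply, Finset.sum_mul]
    refine Finset.sum_congr rfl fun k _ => ?_
    rw [← mul_assoc]
    rfl

/-- weighted sum of squared moduli of the coefficients -/
noncomputable def nrm (φ : (σ →₀ ℕ) → ℝ) (p : MvPolynomial σ ℂ) : ℝ :=
  ∑ m ∈ p.support, φ m * ‖coeff m p‖ ^ 2

lemma nrm_eq_sum (φ : (σ →₀ ℕ) → ℝ) (p : MvPolynomial σ ℂ) (S : Finset (σ →₀ ℕ))
    (h : p.support ⊆ S) : nrm φ p = ∑ m ∈ S, φ m * ‖coeff m p‖ ^ 2 := by
  unfold nrm
  refine Finset.sum_subset h fun m _ hm => ?_
  rw [MvPolynomial.notMem_support_iff.1 hm]; simp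

lemma fock_self (p : MvPolynomial σ ℂ) : fock p p = (nrm (fun m => (wt m : ℝ)) p : ℂ) := by
  unfold fock nrm
  push_cast
  refine Finset.sum_congr rfl fun m _ => ?_
  rw [mul_assoc, Complex.conj_mul']

lemma nrm_X_mul (φ : (σ →₀ ℕ) → ℝ) (i : σ) (p : MvPolynomial σ ℂ) :
    nrm φ (X i * p) = nrm (fun m => φ (Finsupp.single i 1 + m)) p := by
  unfold nrm
  rw [MvPolynomial.support_X_mul, Finset.sum_map]
  refine Finset.sum_congr rfl fun m _ => ?_
  simp only [addLeftEmbedding_apply, coeff_X_mul]

end Pool.Agent.H107Z
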