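import Mathlib

/-! Algebraic preliminaries: divisible groups, characters, independent families. -/

set_option autoImplicit false
set_option linter.style.haveILetI false

namespace Pool.Agent.H107Z.PC

open Cardinal Function

universe u

abbrev T := UnitAddCircle

def IsDiv (V : Type*) [AddCommGroup V] : Prop := ∀ n : ℤ, n ≠ 0 → ∀ v : V, ∃ w, n • w = v

def HasAll (V : Type*) [AddCommGroup V] : Prop :=
  ∀ n : ℕ, ∃ θ : V, ∀ k : ℤ, k • θ = 0 ↔ (n : ℤ) ∣ k

theorem ext_hom {M H V : Type*} [AddCommGroup M] [AddCommGroup H] [AddCommGroup V]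
    (hV : IsDiv V) (a : M →+ H) (b : M →+ V) (hab : ∀ x, a x = 0 → b x = 0) :
    ∃ h : H →+ V, ∀ x, h (a x) = b x := by
  letI : DivisibleBy V ℤ := divisibleByOfSMulRightSurj V ℤ (fun {n} hn v => hV n hn v)
  let a' : (M ⧸ a.ker) →+ H := QuotientAddGroup.kerLift a
  let b' : (M ⧸ a.ker) →+ V := QuotientAddGroup.lift a.ker b (fun x hx => hab x hx)
  obtain ⟨h, hh⟩ := (Module.Baer.of_divisible V).extension_property_addMonoidHom a'
    (QuotientAddGroup.kerLift_injective a) b'
  exact ⟨h, fun x => DFunLike.congr_fun hh (x : M ⧸ a.ker)⟩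

theorem isDiv_of (V : Type*) [AddCommGroup V] [DivisibleBy V ℤ] : IsDiv V :=
  fun n hn v => ⟨DivisibleBy.div v n, DivisibleBy.div_cancel v hn⟩

theorem isDiv_T : IsDiv T := isDiv_of T

theorem IsDiv.pi {V : Type*} [AddCommGroup V] (hV : IsDiv V) (ι : Type*) : IsDiv (ι → V) := by
  intro n hn v
  choose w hw using fun i => hV n hn (v i)
  exact ⟨w, funext hw⟩

theorem IsDiv.finsupp {V : Type*} [AddCommGroup V] (hV : IsDiv V) (ι : Type*) :
    IsDiv (ι →₀ V) := by
  classical
  intro n hn v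
  choose w hw using hV n hn
  let w' : V → V := fun x => if x = 0 then 0 else w x
  refine ⟨v.mapRange w' (by simp [w']), ?_⟩
  ext i
  simp only [Finsupp.smul_apply, Finsupp.mapRange_apply, w']
  split_ifs with h
  · simp [h]
  · exact hw _

theorem hasAll_of {V : Type*} [AddCommGroup V] (h : ∀ n : ℕ, ∃ θ : V, addOrderOf θ = n) :
    HasAll V := by
  intro n
  obtain ⟨θ, hθ⟩ := h n
  exact ⟨θ, fun k => by rw [← hθ, addOrderOf_dvd_iff_zsmul_eq_zero]⟩

theorem hasAll_T : HasAll T := by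
  apply hasAll_of
  intro n
  rcases Nat.eq_zero_or_pos n with rfl | hn
  · refine ⟨((√2 : ℝ) : T), ?_⟩
    rw [addOrderOf_eq_zero_iff, AddCircle.not_isOfFinAddOrder_iff_forall_rat_ne_div]
    intro q hq
    exact irrational_sqrt_two ⟨q, by simpa using hq⟩
  · exact ⟨_, AddCircle.addOrderOf_period_div hn⟩

/-- a countable divisible group with elements of every order -/
abbrev W := ℚ × AddCircle (1 : ℚ)

instance : Countable W := by
  have : Countable (AddCircle (1 : ℚ)) := Quotient.countable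
  infer_instance

theorem isDiv_W : IsDiv W := by
  intro n hn v
  obtain ⟨b, hb⟩ := isDiv_of (AddCircle (1 : ℚ)) n hn v.2
  refine ⟨(v.1 / n, b), Prod.ext ?_ hb⟩
  have : (n : ℚ) ≠ 0 := by exact_mod_cast hn
  simp only [Prod.smul_mk, zsmul_eq_mul]
  field_simp

theorem hasAll_W : HasAll W := by
  intro n
  rcases Nat.eq_zero_or_pos n with rfl | hn
  · refine ⟨(1, 0), fun k => ?_⟩
    simp [Prod.ext_iff]
  · haveI : Fact ((0 : ℚ) < 1) := ⟨one_pos⟩
    refine ⟨(0, (((1 : ℚ) / n : ℚ) : AddCircle (1 : ℚ))), fun k => ?_⟩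
    rw [← AddCircle.addOrderOf_period_div (p := (1 : ℚ)) hn, addOrderOf_dvd_iff_zsmul_eq_zero,
      AddCircle.addOrderOf_period_div (p := (1 : ℚ)) hn]
    simp [Prod.ext_iff]

/-- cyclic torsion of the circle -/
theorem exists_gen (q : ℕ) (hq : 0 < q) : ∃ θ : T, (∀ k : ℤ, k • θ = 0 ↔ (q : ℤ) ∣ k) ∧
    ∀ t : T, q • t = 0 → ∃ k : ℤ, t = k • θ := by
  refine ⟨(((1 : ℝ) / q : ℝ) : T), fun k => ?_, fun t ht => ?_⟩
  · rw [← addOrderOf_dvd_iff_zsmul_eq_zero, AddCircle.addOrderOf_period_div hq]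
  · induction t using QuotientAddGroup.induction_on with
    | H r =>
      rw [← AddCircle.coe_nsmul, AddCircle.coe_eq_zero_iff] at ht
      obtain ⟨k, hk⟩ := ht
      refine ⟨k, ?_⟩
      rw [← AddCircle.coe_zsmul]
      congr 1
      have : (q : ℝ) ≠ 0 := by exact_mod_cast hq.ne'
      simp only [zsmul_eq_mul, mul_one, nsmul_eq_mul] at hk ⊢
      field_simp
      linarith

theorem card_T : #T = 𝔠 := by
  haveI : Fact ((0 : ℝ) < 1) := ⟨one_pos⟩
  rw [Cardinal.mk_congr (AddCircle.equivIco (1 : ℝ) 0)]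
  exact Cardinal.mk_Ico_real (by norm_num)

/-- characters separate points from subgroups -/
theorem exists_char {X : Type*} [AddCommGroup X] (Z : AddSubgroup X) (x : X) (hx : x ∉ Z) :
    ∃ s : X →+ T, (∀ z ∈ Z, s z = 0) ∧ s x ≠ 0 := by
  obtain ⟨θ, hθ⟩ := hasAll_T (addOrderOf (x : X ⧸ Z))
  let a : Z × ℤ →+ X := Z.subtype.coprod (zmultiplesHom X x)
  let b : Z × ℤ →+ T := (0 : Z →+ T).coprod (zmultiplesHom T θ)
  obtain ⟨h, hh⟩ := ext_hom isDiv_T a b (by
    rintro ⟨z, k⟩ h
    simp only [a, b, AddMonoidHom.coprod_apply, AddSubgroup.coe_subtype, zmultiplesHom_apply,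
      AddMonoidHom.zero_apply, zero_add] at h ⊢
    rw [hθ, addOrderOf_dvd_iff_zsmul_eq_zero, ← QuotientAddGroup.mk_zsmul,
      QuotientAddGroup.eq_zero_iff]
    have : k • x = -(z : X) := eq_neg_of_add_eq_zero_right h
    rw [this]; exact Z.neg_mem z.2)
  refine ⟨h, fun z hz => by simpa [a, b] using hh (⟨z, hz⟩, 0), ?_⟩
  have h1 : h x = θ := by simpa [a, b] using hh (0, 1)
  rw [h1]
  intro h0
  have h2 := (hθ 1).1 (by simp [h0])
  rw [addOrderOf_dvd_iff_zsmul_eq_zero, one_smul, QuotientAddGroup.eq_zero_iff] at h2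
  exact hx h2

/-- every abelian group embeds in a direct sum of copies of `V` -/
theorem embed_finsupp (Q : Type*) [AddCommGroup Q] {V : Type*} [AddCommGroup V]
    (hV : IsDiv V) (hA : HasAll V) : ∃ φ : Q →+ (Q →₀ V), Injective φ := by
  classical
  let S : Set (AddSubgroup (Q × (Q →₀ V))) :=
    {Γ | (∀ z ∈ Γ, z.1 = 0 ↔ z.2 = 0) ∧ ∀ z ∈ Γ, ∀ q, z.2 q ≠ 0 → ∃ f, (q, f) ∈ Γ}
  obtain ⟨Γ, hΓ⟩ := zorn_le₀ S (by
    intro c hc hchain
    rcases c.eq_empty_or_nonempty with rfl | hne
    · refine ⟨⊥, ⟨?_, ?_⟩, by simp⟩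
      · intro z hz; rw [AddSubgroup.mem_bot] at hz; simp [hz]
      · intro z hz q hq; rw [AddSubgroup.mem_bot] at hz; simp [hz] at hq
    · refine ⟨sSup c, ⟨?_, ?_⟩, fun z hz => le_sSup hz⟩
      · intro z hz
        obtain ⟨Γ, hΓ, hz⟩ := (AddSubgroup.mem_sSup_of_directedOn hne hchain.directedOn).1 hz
        exact (hc hΓ).1 z hz
      · intro z hz q hq
        obtain ⟨Γ, hΓ, hz⟩ := (AddSubgroup.mem_sSup_of_directedOn hne hchain.directedOn).1 hz
        obtain ⟨f, hf⟩ := (hc hΓ).2 z hz q hq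
        exact ⟨f, (le_sSup hΓ : Γ ≤ sSup c) hf⟩)
  have hess : ∀ q : Q, q ≠ 0 → ∃ (k : ℤ) (f : Q →₀ V), (k • q, f) ∈ Γ ∧ k • q ≠ 0 := by
    intro q hq
    by_contra hcon
    push Not at hcon
    obtain ⟨θ, hθ⟩ := hA (addOrderOf q)
    have hθ' : ∀ k : ℤ, k • θ = 0 ↔ k • q = 0 := fun k => by
      rw [hθ, addOrderOf_dvd_iff_zsmul_eq_zero]
    have hq0 : ∀ z ∈ Γ, z.2 q = 0 := by
      intro z hz
      by_contra h
      obtain ⟨f, hf⟩ := hΓ.prop.2 z hz q h
      exact hq (by simpa using hcon 1 f (by simpa using hf))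
    let Γ' := Γ ⊔ AddSubgroup.zmultiples (q, Finsupp.single q θ)
    have hnew : (q, Finsupp.single q θ) ∈ Γ' :=
      AddSubgroup.mem_sup_right (AddSubgroup.mem_zmultiples _)
    have hΓ' : Γ' ∈ S := by
      constructor
      · intro z hz
        obtain ⟨y, hy, w, hw, rfl⟩ := AddSubgroup.mem_sup.1 hz
        obtain ⟨k, rfl⟩ := AddSubgroup.mem_zmultiples_iff.1 hw
        simp only [Prod.smul_mk, Prod.fst_add, Prod.snd_add, Finsupp.smul_single]
        constructor
        · intro h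
          have h1 : k • q = -y.1 := eq_neg_of_add_eq_zero_right h
          have h2 : k • q = 0 := hcon k (-y.2) (by rw [h1]; exact Γ.neg_mem hy)
          have h3 : y.1 = 0 := by simpa [h2] using h
          rw [(hΓ.prop.1 y hy).1 h3, (hθ' k).2 h2]; simp
        · intro h
          have h1 := DFunLike.congr_fun h q
          simp only [Finsupp.add_apply, hq0 y hy, Finsupp.single_eq_same, zero_add,
            Finsupp.zero_apply] at h1
          have h3 : y.2 = 0 := by simpa [h1] using h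
          rw [(hΓ.prop.1 y hy).2 h3, (hθ' k).1 h1]; simp
      · intro z hz q' hq'
        obtain ⟨y, hy, w, hw, rfl⟩ := AddSubgroup.mem_sup.1 hz
        obtain ⟨k, rfl⟩ := AddSubgroup.mem_zmultiples_iff.1 hw
        by_cases hqq : q' = q
        · subst hqq; exact ⟨_, hnew⟩
        · simp only [Prod.smul_mk, Prod.snd_add, Finsupp.smul_single, Finsupp.add_apply,
            Finsupp.single_eq_of_ne hqq, add_zero] at hq'
          obtain ⟨f, hf⟩ := hΓ.prop.2 y hy q' hq'
          exact ⟨f, AddSubgroup.mem_sup_left hf⟩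
    have hle : Γ' ≤ Γ := hΓ.le_of_ge hΓ' le_sup_left
    exact hq (by simpa using hcon 1 _ (by simpa using hle hnew))
  obtain ⟨h, hh⟩ := ext_hom (hV.finsupp Q) ((AddMonoidHom.fst _ _).comp Γ.subtype)
    ((AddMonoidHom.snd _ _).comp Γ.subtype) (fun z hz => (hΓ.prop.1 z.1 z.2).1 hz)
  refine ⟨h, (injective_iff_map_eq_zero h).2 fun q hq => ?_⟩
  by_contra hq0
  obtain ⟨k, f, hf, hk⟩ := hess q hq0
  have h1 : h (k • q) = f := hh ⟨_, hf⟩
  rw [map_zsmul, hq, smul_zero] at h1
  exact hk ((hΓ.prop.1 _ hf).2 h1.symm)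

theorem card_range_le {X : Type*} {A B : Type u} (f : X → A) (h : X → B)
    (H : ∀ x x', h x = h x' → f x = f x') : #(Set.range f) ≤ #B := by
  refine Cardinal.mk_le_of_injective (f := fun y : Set.range f => h y.2.choose) ?_
  intro y y' hy
  apply Subtype.ext
  rw [← y.2.choose_spec, ← y'.2.choose_spec]
  exact H _ _ hy

theorem card_finsupp_W (Z : Type u) {W : Type} [Zero W] [Countable W] :
    #(Z →₀ W) ≤ max #Z ℵ₀ := by
  classical
  have h1 : #(Z →₀ W) ≤ #(Finset (Z × W)) :=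
    Cardinal.mk_le_of_injective (f := fun f : Z →₀ W => f.graph) (Finsupp.graph_injective _ _)
  refine h1.trans ?_
  have h2 : #(Z × W) ≤ max #Z ℵ₀ := by
    rw [Cardinal.mk_prod, Cardinal.lift_uzero]
    have : Cardinal.lift.{u} #W ≤ ℵ₀ := by
      rw [Cardinal.lift_le_aleph0]; exact Cardinal.mk_le_aleph0
    calc #Z * Cardinal.lift.{u} #W ≤ max #Z ℵ₀ * max #Z ℵ₀ :=
          mul_le_mul' (le_max_left _ _) (this.trans (le_max_right _ _))
      _ = _ := Cardinal.mul_eq_self (le_max_right _ _)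
  calc #(Finset (Z × W)) ≤ #(List (Z × W)) :=
        Cardinal.mk_le_of_surjective (f := List.toFinset) List.toFinset_surjective
    _ ≤ max ℵ₀ #(Z × W) := Cardinal.mk_list_le_max _
    _ ≤ _ := max_le (le_max_right _ _) h2

/-- the multiples of `n` -/
def nR (n : ℕ) (G : Type u) [AddCommGroup G] : Set G := Set.range fun x : G => n • x

theorem lemA {X : Type u} [AddCommGroup X] (Z : AddSubgroup X) (N : ℕ)
    (h : max #Z ℵ₀ < #(nR N X)) :
    ∃ y : X, N • y ≠ 0 ∧ ∀ k : ℤ, k • y ∈ Z → k • y = 0 := by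
  let S : Set (AddSubgroup X) := {M | ∀ x ∈ M, x ∈ Z → x = 0}
  obtain ⟨M, hM⟩ := zorn_le₀ S (by
    intro c hc hchain
    rcases c.eq_empty_or_nonempty with rfl | hne
    · exact ⟨⊥, fun x hx _ => by simpa using hx, by simp⟩
    · refine ⟨sSup c, ?_, fun z hz => le_sSup hz⟩
      intro z hz
      obtain ⟨Γ, hΓ, hz⟩ := (AddSubgroup.mem_sSup_of_directedOn hne hchain.directedOn).1 hz
      exact hc hΓ z hz)
  by_contra hcon
  push Not at hcon
  have hN : ∀ y ∈ M, N • y = 0 := by
    intro y hy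
    by_contra h0
    obtain ⟨k, hk, hk0⟩ := hcon y h0
    exact hk0 (hM.prop _ (M.zsmul_mem hy k) hk)
  obtain ⟨φ, hφ⟩ := embed_finsupp Z isDiv_W hasAll_W
  obtain ⟨g, hg⟩ := ext_hom (isDiv_W.finsupp Z) (Z.subtype.coprod M.subtype)
    (φ.coprod (0 : M →+ (Z →₀ W))) (by
      rintro ⟨z, m⟩ h
      simp only [AddMonoidHom.coprod_apply, AddSubgroup.coe_subtype, AddMonoidHom.zero_apply,
        add_zero] at h ⊢
      have h1 : (m : X) = -z := eq_neg_of_add_eq_zero_right h
      have h2 : (m : X) = 0 := hM.prop _ m.2 (h1 ▸ Z.neg_mem z.2)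
      have h3 : z = 0 := Subtype.ext (by simpa [h2] using h)
      simp [h3])
  have hker : ∀ x, g x = 0 → x ∈ M := by
    intro x hx
    have hle : M ⊔ AddSubgroup.zmultiples x ≤ M := by
      refine hM.le_of_ge ?_ le_sup_left
      intro w hw hwZ
      obtain ⟨m, hm, v, hv, rfl⟩ := AddSubgroup.mem_sup.1 hw
      obtain ⟨k, rfl⟩ := AddSubgroup.mem_zmultiples_iff.1 hv
      have h1 : g (m + k • x) = φ ⟨_, hwZ⟩ := by simpa using hg (⟨_, hwZ⟩, 0)
      have h2 : g m = 0 := by simpa using hg (0, ⟨m, hm⟩)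
      rw [map_add, map_zsmul, hx, h2, smul_zero, add_zero] at h1
      have h3 := (injective_iff_map_eq_zero φ).1 hφ _ h1.symm
      exact congrArg Subtype.val h3
    exact hle (AddSubgroup.mem_sup_right (AddSubgroup.mem_zmultiples x))
  have h4 : #(nR N X) ≤ #(Z →₀ W) := by
    refine card_range_le _ g fun x x' hx => ?_
    have := hN _ (hker (x - x') (by rw [map_sub, hx, sub_self]))
    rwa [smul_sub, sub_eq_zero] at this
  exact absurd (h4.trans (card_finsupp_W Z)) (not_le.2 h)

theorem wf_rec {A X : Type*} [LT A] [WellFoundedLT A] (P : A → Set X → X → Prop)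
    (h : ∀ (a : A) (f : {b // b < a} → X), ∃ y, P a (Set.range f) y) :
    ∃ y : A → X, ∀ a, P a (Set.range fun b : {b // b < a} => y b) (y a) := by
  choose F hF using h
  let y : A → X := (wellFounded_lt (α := A)).fix fun a rec => F a fun b => rec b.1 b.2
  refine ⟨y, fun a => ?_⟩
  have : y a = F a fun b => y b.1 := WellFounded.fix_eq _ _ a
  rw [this]
  exact hF a _

theorem card_closure_le {X : Type u} [AddCommGroup X] (S : Set X) :
    #(AddSubgroup.closure S) ≤ max #S ℵ₀ := by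
  refine le_trans ?_ (card_finsupp_W (W := ℤ) S)
  have h : (AddSubgroup.closure S : Set X) ⊆
      Set.range (Finsupp.linearCombination ℤ (Subtype.val : S → X)) := by
    intro x hx
    induction hx using AddSubgroup.closure_induction with
    | mem x hx => exact ⟨Finsupp.single ⟨x, hx⟩ 1, by simp⟩
    | zero => exact ⟨0, by simp⟩
    | add x x' _ _ h1 h2 =>
      obtain ⟨f, rfl⟩ := h1
      obtain ⟨f', rfl⟩ := h2
      exact ⟨f + f', by simp⟩
    | neg x _ h1 =>
      obtain ⟨f, rfl⟩ := h1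
      exact ⟨-f, by simp⟩
  exact (Cardinal.mk_le_mk_of_subset h).trans Cardinal.mk_range_le

/-- biorthogonal systems -/
theorem lemBi {X : Type u} [AddCommGroup X] (A : Type u) (hA : ℵ₀ < #A) (M : A → ℕ)
    (hM : ∀ a, #A ≤ #(nR (M a) X)) :
    ∃ (y : A → X) (s : A → X →+ T), (∀ a b, a ≠ b → s a (y b) = 0) ∧
      ∀ a, s a (M a • y a) ≠ 0 := by
  classical
  obtain ⟨r, wo, hr⟩ := Cardinal.exists_ord_eq A
  letI : LinearOrder A := linearOrderOfSTO r
  haveI : WellFoundedLT A := ⟨wo.wf⟩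
  obtain ⟨y, hy⟩ := wf_rec (A := A) (X := X)
    (fun a S y => M a • y ≠ 0 ∧ ∀ k : ℤ, k • y ∈ AddSubgroup.closure S → k • y = 0) (by
      intro a f
      apply lemA
      refine lt_of_lt_of_le ?_ (hM a)
      refine max_lt (lt_of_le_of_lt (card_closure_le _) (max_lt ?_ hA)) hA
      refine lt_of_le_of_lt Cardinal.mk_range_le ?_
      exact Cardinal.card_typein_lt (r := r) a hr)
  have key : ∀ (a : A) (F : Finset A), a ∉ F → M a • y a ∉ AddSubgroup.closure (y '' F) := by
    intro a F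
    induction F using Finset.induction_on_max with
    | empty => intro _ h; simp at h; exact (hy a).1 h
    | insert c F hc ih =>
      intro ha h
      rw [Finset.mem_insert, not_or] at ha
      rcases lt_or_gt_of_ne ha.1 with hac | hca
      · rw [Finset.coe_insert, Set.image_insert_eq, Set.insert_eq, AddSubgroup.closure_union,
          AddSubgroup.mem_sup] at h
        obtain ⟨v, hv, z, hz, hvz⟩ := h
        rw [← AddSubgroup.zmultiples_eq_closure, AddSubgroup.mem_zmultiples_iff] at hv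
        obtain ⟨k, rfl⟩ := hv
        have h1 : k • y c = M a • y a - z := eq_sub_of_add_eq hvz
        have h2 : k • y c = 0 := by
          apply (hy c).2
          rw [h1]
          refine AddSubgroup.sub_mem _ (AddSubgroup.nsmul_mem _ ?_ _) ?_
          · exact AddSubgroup.subset_closure ⟨⟨a, hac⟩, rfl⟩
          · refine AddSubgroup.closure_mono ?_ hz
            rintro _ ⟨b, hb, rfl⟩
            exact ⟨⟨b, hc b hb⟩, rfl⟩
        rw [h2, zero_add] at hvz
        exact ih ha.2 (hvz ▸ hz)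
      · apply (hy a).1
        have := (hy a).2 (M a) (by
          rw [natCast_zsmul]
          refine AddSubgroup.closure_mono ?_ h
          rintro _ ⟨b, hb, rfl⟩
          rw [Finset.coe_insert, Set.mem_insert_iff] at hb
          rcases hb with rfl | hb
          · exact ⟨⟨b, hca⟩, rfl⟩
          · exact ⟨⟨b, (hc b hb).trans hca⟩, rfl⟩)
        rwa [natCast_zsmul] at this
  have key2 : ∀ a : A, M a • y a ∉ AddSubgroup.closure (y '' {b | b ≠ a}) := by
    intro a h
    have hP : ∀ x ∈ AddSubgroup.closure (y '' {b | b ≠ a}),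
        ∃ F : Finset A, a ∉ F ∧ x ∈ AddSubgroup.closure (y '' F) := by
      intro x hx
      induction hx using AddSubgroup.closure_induction with
      | mem x hx =>
        obtain ⟨b, hb, rfl⟩ := hx
        exact ⟨{b}, by simpa using Ne.symm hb, AddSubgroup.subset_closure ⟨b, by simp, rfl⟩⟩
      | zero => exact ⟨∅, by simp, AddSubgroup.zero_mem _⟩
      | add x x' _ _ h1 h2 =>
        obtain ⟨F, hF, h1⟩ := h1
        obtain ⟨F', hF', h2⟩ := h2
        refine ⟨F ∪ F', by simp [hF, hF'], AddSubgroup.add_mem _ ?_ ?_⟩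
        · exact AddSubgroup.closure_mono (Set.image_mono (by simp)) h1
        · exact AddSubgroup.closure_mono (Set.image_mono (by simp)) h2
      | neg x _ h1 =>
        obtain ⟨F, hF, h1⟩ := h1
        exact ⟨F, hF, AddSubgroup.neg_mem _ h1⟩
    obtain ⟨F, hF, h1⟩ := hP _ h
    exact key a F hF h1
  choose s hs1 hs2 using fun a => exists_char _ _ (key2 a)
  exact ⟨y, s, fun a b hab => hs1 a _ (AddSubgroup.subset_closure ⟨b, hab.symm, rfl⟩), hs2⟩

/-- triangular systems in torsion groups -/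
theorem lemTri {X : Type u} [AddCommGroup X] (hX : ∀ x : X, IsOfFinAddOrder x) (M : ℕ → ℕ)
    (hM : ∀ k, (nR (M k) X).Infinite) :
    ∃ (y : ℕ → X) (s : ℕ → X →+ T), (∀ j k, j < k → s k (y j) = 0) ∧
      ∀ k, s k (M k • y k) ≠ 0 := by
  obtain ⟨y, hy⟩ := wf_rec (A := ℕ) (X := X)
    (fun a S y => M a • y ∉ AddSubgroup.closure S) (by
      intro a f
      have hfin : (Set.range f).Finite := by
        haveI : Finite {b // b < a} := Set.finite_lt_nat a
        exact Set.finite_range f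
      have h1 : Finite (AddSubgroup.closure (Set.range f)) := by
        haveI : AddGroup.FG (AddSubgroup.closure (Set.range f)) := by
          rw [AddGroup.fg_iff_addSubgroup_fg]
          exact (AddSubgroup.fg_iff _).2 ⟨_, rfl, hfin⟩
        exact AddCommGroup.finite_of_fg_isAddTorsion _ (fun x =>
          (Function.Injective.isOfFinAddOrder_iff (f := AddSubgroup.subtype _)
            Subtype.val_injective).1 (hX x.1))
      have h2 : ((AddSubgroup.closure (Set.range f) : AddSubgroup X) : Set X).Finite := h1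
      obtain ⟨_, ⟨x, rfl⟩, hx⟩ := (hM a).exists_notMem_finite h2
      exact ⟨x, hx⟩)
  choose s hs1 hs2 using fun a => exists_char _ _ (hy a)
  exact ⟨y, s, fun j k hjk => hs1 k _ (AddSubgroup.subset_closure ⟨⟨j, hjk⟩, rfl⟩), hs2⟩

end Pool.Agent.H107Z.PC
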