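import Mathlib
import Pool.Agent.H107Z.PC1

/-! Admissible cardinals and the block lemma. -/

set_option autoImplicit false
set_option linter.style.haveILetI false

namespace Pool.Agent.H107Z.PC

open Cardinal Function Topology

universe u

/-- every countable pattern is realised -/
def Real' {I Y D : Type*} (v : Y → I → D) : Prop :=
  ∀ J : Set I, J.Countable → ∀ f : I → D, ∃ y, ∀ i ∈ J, v y i = f i

def Adm (ρ κ : Cardinal.{u}) : Prop :=
  ∃ (I Y : Type u) (v : Y → I → Bool), Infinite I ∧ Real' v ∧ #Y ≤ ρ ∧ κ ≤ 2 ^ #I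

theorem Adm.mono {ρ κ ρ' κ' : Cardinal.{u}} (h : Adm ρ κ) (h1 : ρ ≤ ρ') (h2 : κ' ≤ κ) :
    Adm ρ' κ' := by
  obtain ⟨I, Y, v, hI, hv, hY, hκ⟩ := h
  exact ⟨I, Y, v, hI, hv, hY.trans h1, h2.trans hκ⟩

theorem Real'.continuum_le {I Y : Type u} [Infinite I] {v : Y → I → Bool} (hv : Real' v) :
    𝔠 ≤ #Y := by
  classical
  let e := Infinite.natEmbedding I
  have h : ∀ ε : ULift.{u} (ℕ → Bool), ∃ y, ∀ n, v y (e n) = ε.down n := by
    intro ε
    obtain ⟨y, hy⟩ := hv (Set.range e) (Set.countable_range e) (Function.extend e ε.down (fun _ => false))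
    exact ⟨y, fun n => by rw [hy _ ⟨n, rfl⟩, e.injective.extend_apply]⟩
  choose y hy using h
  have hinj : Injective y := by
    intro ε ε' h
    ext n
    rw [← hy ε n, ← hy ε' n, h]
  have := Cardinal.mk_le_of_injective hinj
  simpa using this

theorem Adm.continuum_le {ρ κ : Cardinal.{u}} (h : Adm ρ κ) : 𝔠 ≤ ρ := by
  obtain ⟨I, Y, v, hI, hv, hY, hκ⟩ := h
  exact hv.continuum_le.trans hY

theorem adm_continuum {ρ κ : Cardinal.{u}} (h1 : 𝔠 ≤ ρ) (h2 : κ ≤ 𝔠) : Adm ρ κ := by
  refine ⟨ULift ℕ, ULift ℕ → Bool, id, inferInstance, fun J _ f => ⟨f, fun _ _ => rfl⟩, ?_, ?_⟩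
  · simpa using h1
  · simpa using h2

/-- the Σ-product family -/
theorem sigma_real (L : Type u) [Nonempty L] :
    ∃ v : (ℕ → L × Bool) → L → Bool, Real' v := by
  classical
  refine ⟨fun y i => if h : ∃ n, (y n).1 = i then (y h.choose).2 else false, ?_⟩
  intro J hJ f
  obtain ⟨e, he⟩ := Set.countable_iff_exists_subset_range.1 hJ
  refine ⟨fun n => (e n, f (e n)), fun i hi => ?_⟩
  have h : ∃ n, e n = i := he hi
  simp only [h, dif_pos]
  rw [h.choose_spec]

theorem Adm.normal {ρ κ : Cardinal.{u}} (h : Adm ρ κ) :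
    ∃ (I Y : Type u) (v : Y → I → Bool), ℵ₀ < #I ∧ Real' v ∧ #Y ≤ ρ ∧ κ ≤ 2 ^ #I ∧
      #Y < 2 ^ #I ∧ 𝔠 ≤ #Y := by
  obtain ⟨I, Y, v, hI, hv, hY, hκ⟩ := h
  by_cases hlt : #Y < 2 ^ #I
  · refine ⟨I, Y, v, ?_, hv, hY, hκ, hlt, hv.continuum_le⟩
    by_contra hle
    push Not at hle
    have : (2 : Cardinal.{u}) ^ #I ≤ 𝔠 := by
      rw [← Cardinal.two_power_aleph0]
      exact Cardinal.power_le_power_left two_ne_zero hle
    exact absurd (hv.continuum_le.trans_lt (hlt.trans_le this)) (lt_irrefl _)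
  · push Not at hlt
    obtain ⟨w, hw⟩ := sigma_real (I → Bool)
    have hL : #(I → Bool) = 2 ^ #I := by simp
    have hI0 : ℵ₀ ≤ #I := Cardinal.aleph0_le_mk I
    have hlam : ℵ₀ < 2 ^ #I := hI0.trans_lt (Cardinal.cantor _)
    have hY' : #(ℕ → (I → Bool) × Bool) = 2 ^ #I := by
      have h1 : #((I → Bool) × Bool) = 2 ^ #I := by
        rw [Cardinal.mk_prod, hL]
        simp only [Cardinal.lift_uzero, Cardinal.mk_bool, Cardinal.lift_ofNat]
        exact Cardinal.mul_eq_left hlam.le ((Cardinal.natCast_le_aleph0 (n := 2)).trans hlam.le)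
          two_ne_zero
      rw [Cardinal.mk_arrow, h1]
      simp only [Cardinal.lift_uzero, Cardinal.mk_nat, Cardinal.lift_aleph0]
      rw [← Cardinal.power_mul, Cardinal.mul_eq_left hI0 hI0 Cardinal.aleph0_ne_zero]
    haveI : Infinite (I → Bool) := by
      rw [Cardinal.infinite_iff, hL]; exact hlam.le
    refine ⟨I → Bool, ℕ → (I → Bool) × Bool, w, hL ▸ hlam, hw, ?_, ?_, ?_, hw.continuum_le⟩
    · rw [hY']; exact hlt.trans hY
    · rw [hL]; exact hκ.trans (Cardinal.cantor _).le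
    · rw [hY', hL]; exact Cardinal.cantor _

theorem Real'.nat {I Y ι : Type*} {v : Y → I → Bool} (hv : Real' v) (φ : ι × ℕ ↪ I) :
    ∃ w : Y → ι → ℕ, Real' w := by
  classical
  let enc : ℕ → ℕ → Bool := fun m k => decide (k = m)
  have henc : Injective enc := by
    intro m m' h
    have := congrFun h m
    simpa [enc] using this
  refine ⟨fun y α => invFun enc fun k => v y (φ (α, k)), ?_⟩
  intro J hJ f
  obtain ⟨y, hy⟩ := hv (φ '' (J ×ˢ Set.univ)) ((hJ.prod Set.countable_univ).image _)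
    (Function.extend φ (fun p => enc (f p.1) p.2) (fun _ => false))
  refine ⟨y, fun α hα => ?_⟩
  have : (fun k => v y (φ (α, k))) = enc (f α) := by
    funext k
    rw [hy _ ⟨(α, k), ⟨hα, trivial⟩, rfl⟩, φ.injective.extend_apply]
  simp only [this]
  exact leftInverse_invFun henc _

/-! ### the cylinder embedding -/

section Phi

variable {L : Type u}

open Classical in
/-- indicator vector of a point -/
noncomputable def ind (ω : L → Bool) : T →+ (Finset (L × Bool) → T) where
  toFun t s := if ∀ p ∈ s, ω p.1 = p.2 then t else 0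
  map_zero' := by funext s; simp
  map_add' a b := by funext s; simp only [Pi.add_apply]; split_ifs <;> simp

noncomputable def Phi : ((L → Bool) →₀ T) →+ (Finset (L × Bool) → T) :=
  Finsupp.liftAddHom ind

theorem Phi_single (ω : L → Bool) (t : T) : Phi (Finsupp.single ω t) = ind ω t := by
  simp [Phi]

theorem Phi_inj [Nonempty L] : Injective (Phi (L := L)) := by
  classical
  rw [injective_iff_map_eq_zero]
  intro f hf
  ext ω₀
  by_contra h0
  have hω₀ : ω₀ ∈ f.support := Finsupp.mem_support_iff.2 h0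
  have hd : ∀ ω : L → Bool, ω ≠ ω₀ → ∃ l, ω l ≠ ω₀ l := fun ω h => Function.ne_iff.1 h
  choose! l hl using hd
  let s : Finset (L × Bool) := (f.support.erase ω₀).image fun ω => (l ω, ω₀ (l ω))
  have h1 := congrFun hf s
  rw [Phi, Finsupp.liftAddHom_apply, Finsupp.sum, Finset.sum_apply,
    Finset.sum_eq_single_of_mem ω₀ hω₀] at h1
  · apply h0
    simp only [ind, AddMonoidHom.coe_mk, ZeroHom.coe_mk, Pi.zero_apply] at h1
    rw [if_pos] at h1
    · exact h1
    · intro p hp
      obtain ⟨ω, -, rfl⟩ := Finset.mem_image.1 hp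
      rfl
  · intro ω hω hne
    simp only [ind, AddMonoidHom.coe_mk, ZeroHom.coe_mk]
    rw [if_neg]
    intro h
    exact hl ω hne (h _ (Finset.mem_image.2 ⟨ω, Finset.mem_erase.2 ⟨hne, hω⟩, rfl⟩))

theorem ind_cont {Δ : Type*} [TopologicalSpace Δ] (c : Δ → L → Bool) (hc : Continuous c) (t : T) :
    Continuous fun d => ind (c d) t := by
  classical
  refine continuous_pi fun s => ?_
  have h1 : IsClopen {d | ∀ p ∈ s, c d p.1 = p.2} := by
    have : {d | ∀ p ∈ s, c d p.1 = p.2} = ⋂ p ∈ s, (fun d => c d p.1) ⁻¹' {p.2} := by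
      ext d; simp
    rw [this]
    refine isClopen_biInter_finset fun p _ => ?_
    exact (isClopen_discrete _).preimage ((continuous_apply _).comp hc)
  have h2 : IsLocallyConstant fun d => ind (c d) t s := by
    rw [IsLocallyConstant.iff_exists_open]
    intro d
    by_cases hd : ∀ p ∈ s, c d p.1 = p.2
    · refine ⟨_, h1.isOpen, hd, fun d' hd' => ?_⟩
      simp only [ind, AddMonoidHom.coe_mk, ZeroHom.coe_mk]
      rw [if_pos hd, if_pos (show ∀ p ∈ s, c d' p.1 = p.2 from hd')]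
    · refine ⟨_, h1.compl.isOpen, hd, fun d' hd' => ?_⟩
      simp only [ind, AddMonoidHom.coe_mk, ZeroHom.coe_mk]
      rw [if_neg hd, if_neg (show ¬ ∀ p ∈ s, c d' p.1 = p.2 from hd')]
  exact h2.continuous

theorem avoid [Nonempty L] {S Λ : Type u} (ℓ : Λ × S → L → Bool) (hℓ : Injective ℓ)
    (N : Set (Finset (L × Bool) → T)) (hN : #N < #Λ) :
    ∃ η, ∀ f : S →₀ T, Phi (f.mapDomain fun s => ℓ (η, s)) ∈ N → f = 0 := by
  by_contra hcon
  push Not at hcon
  choose f hf hf0 using hcon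
  have hinj : Injective fun η => (⟨_, hf η⟩ : N) := by
    intro η η' h
    have h1 := Phi_inj (congrArg Subtype.val h)
    obtain ⟨s, hs⟩ := Finsupp.ne_iff.1 (hf0 η)
    have h2 := DFunLike.congr_fun h1 (ℓ (η, s))
    have hi : Injective fun s => ℓ (η, s) := fun a b hab => (Prod.ext_iff.1 (hℓ hab)).2
    rw [Finsupp.mapDomain_apply hi] at h2
    by_contra hne
    rw [Finsupp.mapDomain_of_notMem_range] at h2
    · exact hs h2
    · rintro ⟨s', hs'⟩
      exact hne (Prod.ext_iff.1 (hℓ hs')).1.symm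
  exact absurd (Cardinal.mk_le_of_injective hinj) (not_le.2 hN)

end Phi

/-- `e` is a free family over `ℤ/n` -/
def FreeFam (n : ℕ) {P H : Type*} [AddCommGroup H] (e : P → H) : Prop :=
  ∀ f : P →₀ ℤ, Finsupp.linearCombination ℤ e f = 0 → ∀ p, (n : ℤ) ∣ f p

theorem FreeFam.comp {n : ℕ} {P P' H : Type*} [AddCommGroup H] {e : P → H} (he : FreeFam n e)
    (i : P' → P) (hi : Injective i) : FreeFam n (e ∘ i) := by
  intro f hf p
  have := he (f.mapDomain i) (by rwa [Finsupp.linearCombination_mapDomain]) (i p)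
  rwa [Finsupp.mapDomain_apply hi] at this

theorem FreeFam.lift {n : ℕ} {P H V : Type*} [AddCommGroup H] [AddCommGroup V] {e : P → H}
    (he : FreeFam n e) (hV : IsDiv V) (w : P → V) (hw : ∀ p, n • w p = 0) :
    ∃ h : H →+ V, ∀ p, h (e p) = w p := by
  obtain ⟨h, hh⟩ := ext_hom hV (Finsupp.linearCombination ℤ e).toAddMonoidHom
    (Finsupp.linearCombination ℤ w).toAddMonoidHom (by
      intro f hf
      simp only [LinearMap.toAddMonoidHom_coe] at hf ⊢
      rw [Finsupp.linearCombination_apply, Finsupp.sum]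
      refine Finset.sum_eq_zero fun p _ => ?_
      obtain ⟨k, hk⟩ := he f hf p
      rw [hk, mul_comm, mul_smul, natCast_zsmul, hw, smul_zero])
  exact ⟨h, fun p => by simpa using hh (Finsupp.single p 1)⟩

theorem comb_single {P V : Type*} [AddCommGroup V] (θ : V) (f : P →₀ ℤ) (p : P) :
    (Finsupp.linearCombination ℤ (fun p => Finsupp.single p θ) f) p = f p • θ := by
  classical
  induction f using Finsupp.induction_linear with
  | zero => simp
  | add f g hf hg => rw [map_add, Finsupp.add_apply, hf, hg, Finsupp.add_apply, add_smul]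
  | single a k =>
    simp only [Finsupp.linearCombination_single, Finsupp.smul_single, Finsupp.single_apply]
    split_ifs <;> simp

theorem freeFam_single {n : ℕ} {P V : Type*} [AddCommGroup V] {θ : V}
    (hθ : ∀ k : ℤ, k • θ = 0 ↔ (n : ℤ) ∣ k) : FreeFam n fun p : P => Finsupp.single p θ := by
  intro f hf p
  rw [← hθ, ← comb_single, hf, Finsupp.zero_apply]

/-- the target property -/
def Good (H : Type u) [AddCommGroup H] : Prop :=
  ∃ τ : TopologicalSpace H, @IsTopologicalAddGroup H τ _ ∧ @T2Space H τ ∧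
    ∀ U : ℕ → Set H, (∀ n, IsOpen[τ] (U n)) → (∀ n, (U n).Nonempty) →
      ∃ K : Set H, @IsCompact H τ K ∧ ∀ n, (K ∩ U n).Nonempty

theorem good_of_embed {H ι : Type u} [AddCommGroup H] (j : H →+ (ι → T)) (hj : Injective j)
    {Δ : Type} [TopologicalSpace Δ] [CompactSpace Δ]
    (h : ∀ J : Set ι, J.Countable → ∃ c : Δ → H, Continuous (fun d => j (c d)) ∧
      ∀ x, ∃ d, ∀ α ∈ J, j (c d) α = j x α) : Good H := by
  letI τ : TopologicalSpace H := TopologicalSpace.induced j inferInstance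
  have hemb : IsEmbedding j := ⟨⟨rfl⟩, hj⟩
  refine ⟨τ, hemb.isInducing.topologicalAddGroup j, hemb.t2Space, fun U hU hne => ?_⟩
  choose x hx using hne
  have h1 : ∀ n, ∃ F : Finset ι, ∀ z, (∀ α ∈ F, j z α = j (x n) α) → z ∈ U n := by
    intro n
    obtain ⟨V, hV, hVU⟩ := isOpen_induced_iff.1 (hU n)
    have hxV : j (x n) ∈ V := by
      have := hx n
      rw [← hVU] at this
      exact this
    obtain ⟨F, u, hu, hFV⟩ := isOpen_pi_iff.1 hV _ hxV
    refine ⟨F, fun z hz => ?_⟩
    rw [← hVU]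
    exact hFV fun α hα => by rw [hz α hα]; exact (hu α hα).2
  choose F hF using h1
  obtain ⟨c, hc, hc2⟩ := h (⋃ n, (F n : Set ι)) (Set.countable_iUnion fun n => (F n).countable_toSet)
  refine ⟨Set.range c, isCompact_range (hemb.isInducing.continuous_iff.2 hc), fun n => ?_⟩
  obtain ⟨d, hd⟩ := hc2 (x n)
  exact ⟨c d, ⟨d, rfl⟩, hF n _ fun α hα => hd α (Set.mem_iUnion.2 ⟨n, hα⟩)⟩

theorem exists_cantor (n : ℕ) : ∃ g : (ℕ → Bool) → T, Continuous g ∧ (∀ d, n • g d = 0) ∧
    ∀ t : T, n • t = 0 → ∃ d, g d = t := by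
  let A : Set T := {t | n • t = 0}
  have hA : IsClosed A := isClosed_eq (continuous_const_smul n) continuous_const
  haveI : CompactSpace A := isCompact_iff_compactSpace.1 hA.isCompact
  haveI : Nonempty A := ⟨⟨0, by simp [A]⟩⟩
  obtain ⟨g, hg, hs⟩ := exists_nat_bool_continuous_surjective_of_compact A
  refine ⟨fun d => g d, continuous_subtype_val.comp hg, fun d => (g d).2, fun t ht => ?_⟩
  obtain ⟨d, hd⟩ := hs ⟨t, ht⟩
  exact ⟨d, congrArg Subtype.val hd⟩

theorem comb_eq_zero {n : ℕ} {P H : Type*} [AddCommGroup H] (e : P → H) (he : ∀ p, n • e p = 0)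
    (f : P →₀ ℤ) (hf : ∀ p, (n : ℤ) ∣ f p) : Finsupp.linearCombination ℤ e f = 0 := by
  rw [Finsupp.linearCombination_apply, Finsupp.sum]
  refine Finset.sum_eq_zero fun p _ => ?_
  obtain ⟨k, hk⟩ := hf p
  rw [hk, mul_comm, mul_smul, natCast_zsmul, he, smul_zero]

theorem map_comb {P H V : Type*} [AddCommGroup H] [AddCommGroup V] (e : P → H) (h : H →+ V)
    (f : P →₀ ℤ) : h (Finsupp.linearCombination ℤ e f) =
      Finsupp.linearCombination ℤ (fun p => h (e p)) f := by
  induction f using Finsupp.induction_linear with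
  | zero => simp
  | add f g hf hg => simp only [map_add, hf, hg]
  | single a k => simp

theorem block (n : ℕ) {H : Type u} [AddCommGroup H] (hH : ∀ h : H, n • h = 0) {P : Type u}
    (e : P → H) (he : FreeFam n e) (hA : Adm #P #H) : Good H := by
  classical
  obtain ⟨I, Y, v, hI, hv, hYP, hH2, hYlt, hcY⟩ := hA.normal
  obtain ⟨Γ, hΓ⟩ : ∃ Γ : Type u, #Γ = ℵ₁ := ⟨(ℵ₁ : Cardinal.{u}).out, Cardinal.mk_out _⟩
  have hΓI : #Γ ≤ #I := by rw [hΓ, ← Cardinal.succ_aleph0]; exact Order.succ_le_of_lt hI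
  have hΓc : #Γ ≤ 𝔠 := by rw [hΓ]; exact Cardinal.aleph_one_le_continuum
  have hΓ0 : ℵ₀ < #Γ := by rw [hΓ]; exact Cardinal.aleph0_lt_aleph_one
  have hY0 : ℵ₀ ≤ #Y := Cardinal.aleph0_le_continuum.trans hcY
  haveI : Infinite I := Cardinal.infinite_iff.2 hI.le
  haveI : Infinite Γ := Cardinal.infinite_iff.2 hΓ0.le
  let Δ := ℕ × ℕ → Bool
  let L := I ⊕ (ℕ × ℕ)
  let C := Finset (L × Bool)
  let ι := Option Γ × C
  have hL : #(L × Bool) = #I := by
    have h1 : #L = #I := by
      simp only [L, Cardinal.mk_sum, Cardinal.lift_uzero, Cardinal.mk_prod, Cardinal.mk_nat,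
        Cardinal.lift_aleph0, Cardinal.aleph0_mul_aleph0]
      exact Cardinal.add_eq_left hI.le hI.le
    rw [Cardinal.mk_prod, h1]
    simp only [Cardinal.lift_uzero, Cardinal.mk_bool, Cardinal.lift_ofNat]
    exact Cardinal.mul_eq_left hI.le ((Cardinal.natCast_le_aleph0 (n := 2)).trans hI.le) two_ne_zero
  have hC : #C = #I := by rw [← hL]; exact Cardinal.mk_finset_of_infinite _
  have hι : #(ι × ℕ) ≤ #I := by
    simp only [ι, Cardinal.mk_prod, Cardinal.lift_uzero, Cardinal.lift_id, Cardinal.mk_nat,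
      Cardinal.lift_aleph0, hC, Cardinal.mk_option]
    rw [Cardinal.add_one_eq hΓ0.le]
    calc #Γ * #I * ℵ₀ ≤ #I * #I * #I := mul_le_mul' (mul_le_mul' hΓI le_rfl) hI.le
      _ = #I := by rw [Cardinal.mul_eq_self hI.le, Cardinal.mul_eq_self hI.le]
  obtain ⟨φ⟩ : Nonempty (ι × ℕ ↪ I) := hι
  obtain ⟨w, hw⟩ := hv.nat φ
  have hΔ : #Δ = 𝔠 := by simp [Δ]
  have hP0 : #(Y × Γ × Δ) ≤ #Y := by
    simp only [Cardinal.mk_prod, Cardinal.lift_uzero, Cardinal.lift_id, hΔ,
      Cardinal.lift_continuum]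
    calc #Y * (#Γ * 𝔠) ≤ #Y * (#Y * #Y) := mul_le_mul' le_rfl (mul_le_mul' (hΓc.trans hcY) hcY)
      _ = #Y := by rw [Cardinal.mul_eq_self hY0, Cardinal.mul_eq_self hY0]
  obtain ⟨i0⟩ : Nonempty (Y × Γ × Δ ↪ P) := hP0.trans hYP
  let e0 : Y × Γ × Δ → H := e ∘ i0
  have he0 : FreeFam n e0 := he.comp i0 i0.injective
  obtain ⟨g, hg, hgn, hgs⟩ := exists_cantor n
  let x : Y × Γ × Δ → ι → T := fun p α => g fun k => p.2.2 (w p.1 α, k)
  obtain ⟨θW, hθW⟩ := hasAll_W n
  obtain ⟨k, hk⟩ := he0.lift (isDiv_W.finsupp (Y × Γ × Δ)) (fun p => Finsupp.single p θW) (by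
    intro p
    rw [Finsupp.smul_single, ← natCast_zsmul, (hθW n).2 dvd_rfl, Finsupp.single_zero])
  obtain ⟨j', hj'⟩ := (freeFam_single hθW).lift (isDiv_T.pi ι) x (fun p => funext fun α => hgn _)
  let N : Option Γ → Set (C → T) := fun o =>
    Set.range fun z : (Y × Γ × Δ) →₀ W => fun c : C => j' z (o, c)
  have hΛ : #(I → Bool) = 2 ^ #I := by simp
  have hΛ0 : ℵ₀ ≤ 2 ^ #I := hI.le.trans (Cardinal.cantor _).le
  have hN : ∀ o, #(N o) < #(I → Bool) := by
    intro o
    rw [hΛ]
    exact (Cardinal.mk_range_le.trans ((card_finsupp_W _).trans (max_le hP0 hY0))).trans_lt hYlt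
  let F0 : AddSubgroup H := (Finsupp.linearCombination ℤ e0).toAddMonoidHom.range
  have hc : ∀ Z : Type u, #Z ≤ 2 ^ #I → Nonempty ((I → Bool) × Z ↪ (I → Bool)) := by
    intro Z hZ
    change #((I → Bool) × Z) ≤ #(I → Bool)
    rw [Cardinal.mk_prod, Cardinal.lift_id, Cardinal.lift_id, hΛ]
    exact (mul_le_mul' le_rfl hZ).trans (Cardinal.mul_eq_self hΛ0).le
  obtain ⟨c1⟩ := hc Y hYlt.le
  obtain ⟨c2⟩ := hc (H ⧸ F0) (Cardinal.mk_quotient_le.trans hH2)
  let ℓ1 : (I → Bool) × (Y × Δ) → L → Bool := fun p => Sum.elim (c1 (p.1, p.2.1)) p.2.2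
  let ℓ2 : (I → Bool) × (H ⧸ F0) → L → Bool := fun p => Sum.elim (c2 p) fun _ => false
  have hℓ1 : Injective ℓ1 := by
    rintro ⟨a, b, c⟩ ⟨a', b', c'⟩ h
    have h1 : c1 (a, b) = c1 (a', b') := funext fun i => congrFun h (Sum.inl i)
    have h2 : c = c' := funext fun i => congrFun h (Sum.inr i)
    have h3 := c1.injective h1
    simp only [Prod.mk.injEq] at h3 ⊢
    exact ⟨h3.1, h3.2, h2⟩
  have hℓ2 : Injective ℓ2 := fun p p' h =>
    c2.injective (funext fun i => congrFun h (Sum.inl i))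
  choose η1 hη1 using fun γ : Γ => avoid ℓ1 hℓ1 (N (some γ)) (hN _)
  obtain ⟨η2, hη2⟩ := avoid ℓ2 hℓ2 (N none) (hN _)
  obtain ⟨ψ, hψ⟩ := embed_finsupp (H ⧸ F0) isDiv_T hasAll_T
  obtain ⟨θ, hθ⟩ := hasAll_T n
  have hθn : n • θ = 0 := by rw [← natCast_zsmul, (hθ n).2 dvd_rfl]
  have hex : ∀ γ : Γ, ∃ h : H →+ (C → T), ∀ p, h (e0 p) =
      if p.2.1 = γ then ind (ℓ1 (η1 γ, (p.1, p.2.2))) θ else 0 := by
    intro γ
    refine he0.lift (isDiv_T.pi C) _ fun p => ?_
    split_ifs
    · rw [← map_nsmul, hθn, map_zero]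
    · simp
  choose j2 hj2 using hex
  let j3 : H →+ (C → T) := Phi.comp ((Finsupp.mapDomain.addMonoidHom fun s => ℓ2 (η2, s)).comp
    (ψ.comp (QuotientAddGroup.mk' F0)))
  have hj3 : ∀ p, j3 (e0 p) = 0 := by
    intro p
    have : QuotientAddGroup.mk' F0 (e0 p) = 0 := by
      rw [QuotientAddGroup.mk'_apply, QuotientAddGroup.eq_zero_iff]
      exact ⟨Finsupp.single p 1, by simp⟩
    simp only [j3, AddMonoidHom.comp_apply, this, map_zero]
  let jb : Option Γ → H →+ (C → T) := fun o => o.elim j3 j2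
  let j4 : H →+ (ι → T) :=
    { toFun := fun h α => jb α.1 h α.2
      map_zero' := by funext α; simp
      map_add' := fun a b => by funext α; simp }
  let j : H →+ (ι → T) := j'.comp k + j4
  have hj : ∀ h α, j h α = j' (k h) α + jb α.1 h α.2 := fun h α => rfl
  have hinj : Injective j := by
    rw [injective_iff_map_eq_zero]
    intro h h0
    have hmem : ∀ o, jb o h ∈ N o := by
      intro o
      refine ⟨-k h, funext fun c => ?_⟩
      have := congrFun h0 (o, c)
      rw [hj] at this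
      simp only [map_neg, Pi.neg_apply]
      exact neg_eq_of_add_eq_zero_right this
    have h1 : ψ (QuotientAddGroup.mk' F0 h) = 0 := hη2 _ (hmem none)
    have h2 := (injective_iff_map_eq_zero ψ).1 hψ _ h1
    rw [QuotientAddGroup.mk'_apply, QuotientAddGroup.eq_zero_iff] at h2
    obtain ⟨f, hf⟩ := h2
    have hf' : Finsupp.linearCombination ℤ e0 f = h := hf
    rw [← hf']
    refine comb_eq_zero e0 (fun p => hH _) f ?_
    rintro ⟨y, γ, d⟩
    let R : Y × Γ × Δ → (Y × Δ →₀ T) := fun p =>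
      if p.2.1 = γ then Finsupp.single (p.1, p.2.2) θ else 0
    have hR : ∀ f : Y × Γ × Δ →₀ ℤ,
        (Finsupp.linearCombination ℤ R f) (y, d) = f (y, γ, d) • θ := by
      intro f
      induction f using Finsupp.induction_linear with
      | zero => simp
      | add f g hf hg => rw [map_add, Finsupp.add_apply, hf, hg, Finsupp.add_apply, add_smul]
      | single a m =>
        obtain ⟨y', γ', d'⟩ := a
        simp only [Finsupp.linearCombination_single, R, Finsupp.smul_apply]
        by_cases hγ : γ' = γ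
        · subst hγ
          simp only [if_true, Finsupp.single_apply, Prod.mk.injEq, true_and]
          split_ifs <;> simp
        · simp [hγ]
    have h3 : j2 γ h = Phi ((Finsupp.linearCombination ℤ R f).mapDomain fun s => ℓ1 (η1 γ, s)) := by
      rw [← hf', map_comb]
      have := map_comb R (Phi.comp (Finsupp.mapDomain.addMonoidHom fun s => ℓ1 (η1 γ, s))) f
      refine Eq.trans ?_ this.symm
      congr 2
      funext p
      rw [hj2]
      simp only [R, AddMonoidHom.comp_apply]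
      split_ifs
      · rw [Finsupp.mapDomain.addMonoidHom_apply, Finsupp.mapDomain_single, Phi_single]
      · simp
    have h4 := hη1 γ _ (h3 ▸ hmem (some γ))
    rw [← hθ, ← hR, h4, Finsupp.zero_apply]
  refine good_of_embed j hinj (Δ := Δ) fun J hJ => ?_
  obtain ⟨γ, hγ⟩ : ∃ γ : Γ, ∀ α ∈ J, α.1 ≠ some γ := by
    by_contra hcon
    push Not at hcon
    have h1 : (Set.univ : Set Γ).Countable := by
      refine ((hJ.image Prod.fst).preimage_of_injOn (f := some)
        (Option.some_injective _).injOn).mono ?_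
      intro γ _
      obtain ⟨α, hα, h⟩ := hcon γ
      exact ⟨α, hα, h⟩
    rw [Set.countable_univ_iff, ← Cardinal.mk_le_aleph0_iff] at h1
    exact absurd hΓ0 (not_lt.2 h1)
  obtain ⟨enc, henc⟩ := Set.countable_iff_exists_injOn.1 hJ
  obtain ⟨y, hy⟩ := hw J hJ enc
  have hval : ∀ d α, j (e0 (y, γ, d)) α = x (y, γ, d) α + jb α.1 (e0 (y, γ, d)) α.2 := by
    intro d α
    rw [hj, hk, hj']
  refine ⟨fun d => e0 (y, γ, d), ?_, fun h => ?_⟩
  · refine continuous_pi fun α => ?_
    simp only [hval]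
    refine Continuous.add (hg.comp (continuous_pi fun m => continuous_apply (w y α, m))) ?_
    obtain ⟨o, c⟩ := α
    cases o with
    | none =>
      simp only [jb, Option.elim_none, hj3]
      exact continuous_const
    | some γ' =>
      simp only [jb, Option.elim_some, hj2]
      by_cases hγ' : γ = γ'
      · simp only [hγ', if_true]
        refine (continuous_apply c).comp (ind_cont (fun d : Δ => ℓ1 (η1 γ', (y, d))) ?_ θ)
        refine continuous_pi fun l => ?_
        cases l with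
        | inl i => exact (continuous_const : Continuous fun _ : Δ => c1 (η1 γ', y) i)
        | inr i => exact (continuous_apply i : Continuous fun d : Δ => d i)
      · simp only [hγ', if_false]
        exact continuous_const
  · have h1 : ∀ α : ι, ∃ d, g d = j h α := fun α => hgs _ (by
      rw [← Pi.smul_apply, ← map_nsmul, hH, map_zero, Pi.zero_apply])
    choose dd hdd using h1
    let d : Δ := fun p => if hp : ∃ α ∈ J, enc α = p.1 then dd hp.choose p.2 else false
    refine ⟨d, fun α hα => ?_⟩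
    rw [hval]
    have h2 : jb α.1 (e0 (y, γ, d)) α.2 = 0 := by
      have h3 := hγ α hα
      obtain ⟨o, c⟩ := α
      cases o with
      | none => simp only [jb, Option.elim_none, hj3, Pi.zero_apply]
      | some γ' =>
        have h4 : γ ≠ γ' := fun h => h3 (by rw [h])
        simp only [jb, Option.elim_some, hj2, h4, if_false, Pi.zero_apply]
    rw [h2, add_zero, ← hdd]
    simp only [x, hy α hα]
    congr 1
    funext m
    have hp : ∃ β ∈ J, enc β = enc α := ⟨α, hα, rfl⟩
    simp only [d, hp, dif_pos]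
    rw [henc hp.choose_spec.1 hα hp.choose_spec.2]

end Pool.Agent.H107Z.PC
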