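import Mathlib
import Pool.Agent.H107Z.PC2

/-! Splitting off bounded summands; the main induction. -/

set_option autoImplicit false
set_option linter.style.haveILetI false

namespace Pool.Agent.H107Z.PC

open Cardinal Function Topology

universe u

theorem Good.prod {A B : Type u} [AddCommGroup A] [AddCommGroup B] (hA : Good A) (hB : Good B) :
    Good (A × B) := by
  obtain ⟨τA, hA1, hA2, hA3⟩ := hA
  obtain ⟨τB, hB1, hB2, hB3⟩ := hB
  refine ⟨inferInstance, inferInstance, inferInstance, fun U hU hne => ?_⟩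
  choose x hx using hne
  choose u v hu hv hxu hxv huv using fun n => isOpen_prod_iff.1 (hU n) (x n).1 (x n).2 (hx n)
  obtain ⟨K, hK, hK2⟩ := hA3 u hu fun n => ⟨_, hxu n⟩
  obtain ⟨K', hK', hK2'⟩ := hB3 v hv fun n => ⟨_, hxv n⟩
  refine ⟨K ×ˢ K', hK.prod hK', fun n => ?_⟩
  obtain ⟨a, ha, ha'⟩ := hK2 n
  obtain ⟨b, hb, hb'⟩ := hK2' n
  exact ⟨(a, b), ⟨ha, hb⟩, huv n ⟨ha', hb'⟩⟩

theorem Good.of_equiv {A B : Type u} [AddCommGroup A] [AddCommGroup B] (e : A ≃+ B)
    (hB : Good B) : Good A := by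
  obtain ⟨τB, hB1, hB2, hB3⟩ := hB
  letI τ : TopologicalSpace A := TopologicalSpace.induced e τB
  have hind : IsInducing e := ⟨rfl⟩
  let h : A ≃ₜ B := e.toEquiv.toHomeomorphOfIsInducing hind
  refine ⟨τ, hind.topologicalAddGroup e, h.isEmbedding.t2Space, fun U hU hne => ?_⟩
  obtain ⟨K, hK, hK2⟩ := hB3 (fun n => h '' U n) (fun n => h.isOpenMap _ (hU n))
    (fun n => (hne n).image _)
  refine ⟨h.symm '' K, hK.image h.symm.continuous, fun n => ?_⟩
  obtain ⟨_, hb, a, ha, rfl⟩ := hK2 n
  exact ⟨a, ⟨_, hb, h.symm_apply_apply a⟩, ha⟩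

theorem good_finite (A : Type u) [AddCommGroup A] [Finite A] : Good A := by
  letI : TopologicalSpace A := ⊥
  haveI : DiscreteTopology A := ⟨rfl⟩
  refine ⟨⊥, inferInstance, inferInstance, fun U _ hne => ⟨Set.univ, isCompact_univ, ?_⟩⟩
  simpa using hne

/-- `p`-torsion elements are divisible by `p ^ j` -/
def Lev (G : Type u) [AddCommGroup G] (p j : ℕ) : Prop :=
  ∀ x : G, p • x = 0 → ∃ y, x = p ^ j • y

theorem basisK (K : Type) [Field K] (V : Type u) [AddCommGroup V] [Module K V] :
    ∃ (S : Type u) (b : S → V), (∀ f, Finsupp.linearCombination K b f = 0 → f = 0) ∧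
      ∀ v, ∃ f, Finsupp.linearCombination K b f = v :=
  let b := Module.Basis.ofVectorSpace K V
  ⟨_, b, linearIndependent_iff.1 b.linearIndependent,
    fun v => ⟨b.repr v, b.linearCombination_repr v⟩⟩

theorem basisZ (p : ℕ) [Fact p.Prime] (V : Type u) [AddCommGroup V] [Module (ZMod p) V] :
    ∃ (S : Type u) (b : S → V), FreeFam p b ∧ ∀ v, ∃ f, Finsupp.linearCombination ℤ b f = v := by
  obtain ⟨S, b, hb1, hb2⟩ := basisK (ZMod p) V
  have hcast : ∀ f : S →₀ ℤ, Finsupp.linearCombination ℤ b f =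
        Finsupp.linearCombination (ZMod p) b (f.mapRange (Int.cast : ℤ → ZMod p) (by simp)) := by
    intro f
    induction f using Finsupp.induction_linear with
    | zero => simp
    | add f g hf hg =>
      rw [map_add, hf, hg, Finsupp.mapRange_add (by simp), map_add]
    | single a k => simp [Int.cast_smul_eq_zsmul]
  refine ⟨S, b, fun f hf s => ?_, fun v => ?_⟩
  · rw [hcast] at hf
    have h1 := hb1 _ hf
    have h2 := DFunLike.congr_fun h1 s
    rw [Finsupp.mapRange_apply, Finsupp.zero_apply] at h2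
    exact (ZMod.intCast_zmod_eq_zero_iff_dvd _ _).1 h2
  · obtain ⟨f, hf⟩ := hb2 v
    refine ⟨f.mapRange (fun c => (c.val : ℤ)) (by simp), ?_⟩
    rw [hcast, ← hf]
    congr 1
    ext s
    simp

theorem basisP {V : Type u} [AddCommGroup V] (p : ℕ) (hp : p.Prime) (hV : ∀ v : V, p • v = 0) :
    ∃ (S : Type u) (b : S → V), FreeFam p b ∧ ∀ v, ∃ f, Finsupp.linearCombination ℤ b f = v := by
  haveI : Fact p.Prime := ⟨hp⟩
  exact @basisZ p _ V _ (AddCommGroup.zmodModule hV)

theorem step {G : Type u} [AddCommGroup G] {p j : ℕ} (hp : p.Prime) (hL : Lev G p j) :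
    ∃ (F G' : Type u) (_ : AddCommGroup F) (_ : AddCommGroup G') (_ : G ≃+ F × G') (S : Type u)
      (g : S → F), FreeFam (p ^ (j + 1)) g ∧ #F ≤ max #S ℵ₀ ∧ (∀ b : F, p ^ (j + 1) • b = 0) ∧
      Lev G' p (j + 1) := by
  classical
  set q := p ^ (j + 1) with hq
  have hq0 : 0 < q := pow_pos hp.pos _
  let Rq : AddSubgroup G := (nsmulAddMonoidHom q : G →+ G).range
  let Gp : AddSubgroup G := (nsmulAddMonoidHom p : G →+ G).ker
  let V : AddSubgroup (G ⧸ Rq) := Gp.map (QuotientAddGroup.mk' Rq)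
  obtain ⟨S, b, hb1, hb2⟩ := basisP (V := V) p hp (by
    rintro ⟨_, x, hx, rfl⟩
    apply Subtype.ext
    have hx' : p • x = 0 := hx
    change p • QuotientAddGroup.mk' Rq x = 0
    rw [← map_nsmul, hx', map_zero])
  choose uu hu1 hu2 using fun s => (b s).2
  have hu1' : ∀ s, p • uu s = 0 := hu1
  choose g hg using fun s => hL (uu s) (hu1' s)
  have hgq : ∀ s, q • g s = 0 := fun s => by
    rw [hq, pow_succ', mul_smul, ← hg, hu1']
  have hmk : ∀ f : S →₀ ℤ, QuotientAddGroup.mk' Rq (Finsupp.linearCombination ℤ uu f) =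
      (Finsupp.linearCombination ℤ b f : V) := by
    intro f
    rw [map_comb]
    have := map_comb b V.subtype f
    simp only [AddSubgroup.coe_subtype] at this
    rw [this]
    simp only [hu2]
  have hA : ∀ f : S →₀ ℤ, Finsupp.linearCombination ℤ uu f ∈ Rq → ∀ s, (p : ℤ) ∣ f s := by
    intro f hf
    apply hb1
    apply Subtype.ext
    rw [← hmk, QuotientAddGroup.mk'_apply]
    exact (QuotientAddGroup.eq_zero_iff _).2 hf
  have hug : ∀ f : S →₀ ℤ, Finsupp.linearCombination ℤ uu f =
      p ^ j • Finsupp.linearCombination ℤ g f := by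
    intro f
    have := map_comb g (nsmulAddMonoidHom (p ^ j) : G →+ G) f
    simp only [nsmulAddMonoidHom_apply, ← hg] at this
    exact this.symm
  have hB : ∀ f : S →₀ ℤ, Finsupp.linearCombination ℤ g f ∈ Rq → ∀ s, (q : ℤ) ∣ f s := by
    intro f hf
    have key : ∀ i, i ≤ j + 1 → ∀ s, ((p ^ i : ℕ) : ℤ) ∣ f s := by
      intro i
      induction i with
      | zero => intro _ s; simp
      | succ i ih =>
        intro hi
        have ih' := ih (by omega)
        let f' : S →₀ ℤ := f.mapRange (fun k => k / ((p ^ i : ℕ) : ℤ)) (by simp)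
        have hff : f = (p ^ i) • f' := by
          ext s
          simp only [f', Finsupp.smul_apply, Finsupp.mapRange_apply, nsmul_eq_mul]
          exact (Int.mul_ediv_cancel' (ih' s)).symm
        have h1 : Finsupp.linearCombination ℤ uu f' ∈ Rq := by
          rw [hug]
          obtain ⟨c, rfl⟩ : ∃ c, j = c + i := ⟨j - i, by omega⟩
          rw [pow_add, mul_smul, ← map_nsmul, ← hff]
          exact Rq.nsmul_mem hf _
        intro s
        obtain ⟨c, hc⟩ := hA f' h1 s
        refine ⟨c, ?_⟩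
        rw [hff, Finsupp.smul_apply, hc, nsmul_eq_mul]
        push_cast
        ring
    exact key (j + 1) le_rfl
  obtain ⟨θ, hθ1, hθ2⟩ := exists_gen q hq0
  obtain ⟨h, hh⟩ := ext_hom (isDiv_T.finsupp S)
    ((Finsupp.linearCombination ℤ g).toAddMonoidHom.coprod (nsmulAddMonoidHom q : G →+ G))
    ((Finsupp.linearCombination ℤ fun s => Finsupp.single s θ).toAddMonoidHom.coprod
      (0 : G →+ (S →₀ T))) (by
      rintro ⟨f, x⟩ hfx
      simp only [AddMonoidHom.coprod_apply, LinearMap.toAddMonoidHom_coe, nsmulAddMonoidHom_apply,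
        AddMonoidHom.zero_apply, add_zero] at hfx ⊢
      refine comb_eq_zero (n := q) _ (fun s => ?_) f (hB f ⟨-x, ?_⟩)
      · rw [Finsupp.smul_single, ← natCast_zsmul, (hθ1 q).2 dvd_rfl, Finsupp.single_zero]
      · rw [map_neg, nsmulAddMonoidHom_apply]
        exact neg_eq_of_add_eq_zero_left hfx)
  have hh1 : ∀ f, h (Finsupp.linearCombination ℤ g f) =
      Finsupp.linearCombination ℤ (fun s => Finsupp.single s θ) f := fun f => by
    simpa using hh (f, 0)
  have hh2 : ∀ x, h (q • x) = 0 := fun x => by simpa using hh (0, x)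
  let F : AddSubgroup G := (Finsupp.linearCombination ℤ g).toAddMonoidHom.range
  let G' : AddSubgroup G := h.ker
  have hF0 : ∀ f, h (Finsupp.linearCombination ℤ g f) = 0 →
      Finsupp.linearCombination ℤ g f = 0 := by
    intro f hf
    rw [hh1] at hf
    exact comb_eq_zero _ hgq f (freeFam_single hθ1 f hf)
  have hdec : ∀ x, ∃ f, h (x - Finsupp.linearCombination ℤ g f) = 0 := by
    intro x
    have h1 : ∀ s, q • h x s = 0 := fun s => by
      rw [← Finsupp.smul_apply, ← map_nsmul, hh2, Finsupp.zero_apply]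
    choose k hk using fun s => hθ2 _ (h1 s)
    refine ⟨Finsupp.onFinset (h x).support (fun s => if h x s = 0 then 0 else k s) (by
      intro s hs
      rw [Finsupp.mem_support_iff]
      intro h0
      exact hs (if_pos h0)), ?_⟩
    rw [map_sub, hh1, sub_eq_zero]
    ext s
    rw [comb_single, Finsupp.onFinset_apply]
    split_ifs with h0
    · simp [h0]
    · exact hk s
  have hqF : ∀ f, q • Finsupp.linearCombination ℤ g f = 0 := by
    intro f
    have := map_comb g (nsmulAddMonoidHom q : G →+ G) f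
    simp only [nsmulAddMonoidHom_apply, hgq] at this
    rw [this]
    exact comb_eq_zero (n := 1) _ (by simp) f (by simp)
  let φ : F × G' →+ G := F.subtype.coprod G'.subtype
  have hφ : Bijective φ := by
    constructor
    · rw [injective_iff_map_eq_zero]
      rintro ⟨⟨_, f, rfl⟩, ⟨y, hy⟩⟩ h0
      have h1 : Finsupp.linearCombination ℤ g f + y = 0 := h0
      have hy' : h y = 0 := hy
      have h2 : h (Finsupp.linearCombination ℤ g f) = 0 := by
        have := congrArg h h1
        rwa [map_add, hy', add_zero, map_zero] at this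
      have h3 := hF0 f h2
      rw [h3, zero_add] at h1
      exact Prod.ext (Subtype.ext h3) (Subtype.ext h1)
    · intro x
      obtain ⟨f, hf⟩ := hdec x
      exact ⟨(⟨_, f, rfl⟩, ⟨_, hf⟩), by simp [φ]⟩
  let g' : S → F := fun s => ⟨g s, Finsupp.single s 1, by simp⟩
  refine ⟨F, G', inferInstance, inferInstance, (AddEquiv.ofBijective φ hφ).symm, S, g', ?_, ?_,
    ?_, ?_⟩
  · intro f hf
    apply hB
    have := map_comb g' F.subtype f
    rw [hf, map_zero] at this
    change 0 = Finsupp.linearCombination ℤ g f at this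
    rw [← this]
    exact Rq.zero_mem
  · exact Cardinal.mk_range_le.trans (card_finsupp_W S)
  · rintro ⟨_, f, rfl⟩
    exact Subtype.ext (hqF f)
  · rintro ⟨x, hx⟩ hpx
    have hx' : h x = 0 := hx
    have hpx' : p • x = 0 := congrArg Subtype.val hpx
    obtain ⟨f, hf⟩ := hb2 ⟨QuotientAddGroup.mk' Rq x, x, hpx', rfl⟩
    have h1 : QuotientAddGroup.mk' Rq (x - Finsupp.linearCombination ℤ uu f) = 0 := by
      rw [map_sub, hmk, hf, sub_self]
    rw [QuotientAddGroup.mk'_apply, QuotientAddGroup.eq_zero_iff] at h1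
    obtain ⟨z, hz⟩ := h1
    rw [nsmulAddMonoidHom_apply, hug, ← map_nsmul] at hz
    have h2 : h (Finsupp.linearCombination ℤ g (p ^ j • f)) = 0 := by
      have := congrArg h hz
      rw [hh2, map_sub, hx', zero_sub] at this
      exact neg_eq_zero.1 this.symm
    rw [hF0 _ h2, sub_zero] at hz
    obtain ⟨f', hf'⟩ := hdec z
    refine ⟨⟨_, hf'⟩, Subtype.ext ?_⟩
    change x = q • (z - Finsupp.linearCombination ℤ g f')
    rw [smul_sub, hqF, sub_zero, hz]

theorem split {G : Type u} [AddCommGroup G] {p : ℕ} (hp : p.Prime) (k : ℕ) :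
    ∃ (B G' : Type u) (_ : AddCommGroup B) (_ : AddCommGroup G') (_ : G ≃+ B × G'),
      (∀ b : B, p ^ k • b = 0) ∧ Lev G' p k := by
  induction k with
  | zero =>
    refine ⟨PUnit, G, inferInstance, inferInstance, (AddEquiv.uniqueProd).symm, fun b => rfl,
      fun x _ => ⟨x, by simp⟩⟩
  | succ k ih =>
    obtain ⟨B, G₁, _, _, e, hB, hL⟩ := ih
    obtain ⟨F, G', _, _, e', S, g, -, -, hF, hL'⟩ := step hp hL
    refine ⟨B × F, G', inferInstance, inferInstance,
      (e.trans ((AddEquiv.refl B).prodCongr e')).trans AddEquiv.prodAssoc.symm, ?_, hL'⟩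
    rintro ⟨a, b⟩
    rw [Prod.smul_mk, hF, pow_succ', mul_smul, hB, smul_zero]
    rfl

/-- size of `n G` -/
noncomputable def cn (n : ℕ) (G : Type u) [AddCommGroup G] : Cardinal.{u} := #(nR n G)

theorem cn_one (G : Type u) [AddCommGroup G] : cn 1 G = #G := by
  have : nR 1 G = Set.univ := by
    ext x; simp [nR]
  rw [cn, this, Cardinal.mk_univ]

theorem cn_le (n : ℕ) (G : Type u) [AddCommGroup G] : cn n G ≤ #G := Cardinal.mk_set_le _

theorem cn_mul_le (n m : ℕ) (G : Type u) [AddCommGroup G] : cn (n * m) G ≤ cn n G := by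
  apply Cardinal.mk_le_mk_of_subset
  rintro _ ⟨x, rfl⟩
  exact ⟨m • x, by simp only [mul_smul]⟩

theorem cn_equiv {A B : Type u} [AddCommGroup A] [AddCommGroup B] (e : A ≃+ B) (n : ℕ) :
    cn n A = cn n B := by
  have : nR n B = e '' nR n A := by
    ext y
    constructor
    · rintro ⟨x, rfl⟩
      exact ⟨_, ⟨e.symm x, rfl⟩, by simp⟩
    · rintro ⟨_, ⟨x, rfl⟩, rfl⟩
      exact ⟨e x, by simp⟩
  rw [cn, cn, this, Cardinal.mk_image_eq e.injective]

theorem cn_prod (A B : Type u) [AddCommGroup A] [AddCommGroup B] (n : ℕ) :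
    cn n (A × B) = cn n A * cn n B := by
  have : nR n (A × B) = nR n A ×ˢ nR n B := by
    ext ⟨a, b⟩
    constructor
    · rintro ⟨⟨x, y⟩, h⟩
      exact ⟨⟨x, congrArg Prod.fst h⟩, ⟨y, congrArg Prod.snd h⟩⟩
    · rintro ⟨⟨x, hx⟩, ⟨y, hy⟩⟩
      exact ⟨(x, y), Prod.ext hx hy⟩
  rw [cn, cn, cn, this, Cardinal.mk_setProd]

theorem cn_pos (n : ℕ) (G : Type u) [AddCommGroup G] : 1 ≤ cn n G := by
  rw [cn, Cardinal.one_le_iff_ne_zero, Cardinal.mk_ne_zero_iff]
  exact ⟨⟨_, 0, rfl⟩⟩

theorem cn_of_zero {n : ℕ} {G : Type u} [AddCommGroup G] (h : ∀ x : G, n • x = 0) :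
    cn n G = 1 := by
  have : nR n G = {0} := by
    ext x
    constructor
    · rintro ⟨y, rfl⟩; exact h y
    · rintro rfl; exact ⟨0, by simp⟩
  rw [cn, this, Cardinal.mk_singleton]

theorem cn_lev {G : Type u} [AddCommGroup G] {p k a r : ℕ} (hp : p.Prime) (hL : Lev G p k)
    (hr : ¬ p ∣ r) (ha : a < k) :
    cn (p ^ a * r) G ≤ cn (p ^ (a + 1) * r) G * cn (p ^ (a + 1) * r) G := by
  have hcop : IsCoprime (r : ℤ) (p : ℤ) :=
    Nat.isCoprime_iff_coprime.2 ((Nat.Prime.coprime_iff_not_dvd hp).2 hr).symm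
  obtain ⟨c, d, hcd⟩ := hcop
  have h1 : ∀ x : G, p • x = 0 → x ∈ nR (p ^ (a + 1) * r) G := by
    intro x hx
    obtain ⟨y, hy⟩ := hL x hx
    obtain ⟨b, rfl⟩ : ∃ b, k = a + 1 + b := ⟨k - (a + 1), by omega⟩
    refine ⟨c • p ^ b • y, ?_⟩
    have h2 : x = c • r • x := by
      conv_lhs => rw [← one_smul ℤ x, ← hcd, add_smul, mul_smul, mul_smul, natCast_zsmul,
        natCast_zsmul, hx, smul_zero, add_zero]
    rw [h2, hy]
    simp only [← natCast_zsmul, smul_smul]
    congr 1
    push_cast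
    ring
  have h2 : ∀ x : G, p • (p ^ a * r) • x = (p ^ (a + 1) * r) • x := by
    intro x
    rw [smul_smul]
    congr 1
    ring
  let sec : nR (p ^ (a + 1) * r) G → G := fun y => (p ^ a * r) • y.2.choose
  have hsec : ∀ y, p • sec y = y := fun y => by
    simp only [sec]
    rw [h2]
    exact y.2.choose_spec
  let f : G → nR (p ^ (a + 1) * r) G × nR (p ^ (a + 1) * r) G := fun x =>
    (⟨_, x, rfl⟩, ⟨(p ^ a * r) • x - sec ⟨_, x, rfl⟩, h1 _ (by
      rw [smul_sub, hsec, h2, sub_self])⟩)
  rw [cn, cn, Cardinal.mul_def]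
  refine card_range_le _ f fun x x' hx => ?_
  have h3 := congrArg Prod.fst hx
  have h4 := congrArg (fun z => (z.2 : G)) hx
  simp only [f] at h3 h4
  rw [h3] at h4
  exact sub_left_injective h4

def CondA (G : Type u) [AddCommGroup G] : Prop :=
  ∀ n, 0 < n → cn n G < ℵ₀ ∨ Adm (cn n G) (cn n G)

def CondB (m : ℕ) (G : Type u) [AddCommGroup G] : Prop :=
  cn m G < ℵ₀ ∨ ∃ (P : Type u) (e : P → G), FreeFam 0 e ∧ Adm #P (cn m G)

theorem main_ind (m : ℕ) (hm : 0 < m) (N : ℕ) : ∀ (G : Type u) [AddCommGroup G] (lev : ℕ → ℕ),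
    (∑ p ∈ m.primeFactors, (m.factorization p - lev p)) = N →
    (∀ p, p.Prime → Lev G p (lev p)) → CondA G → CondB m G → Good G := by
  classical
  induction N using Nat.strong_induction_on with
  | _ N ih =>
  intro G _ lev hN hlev hA hB
  by_cases hfin : #G < ℵ₀
  · haveI := Cardinal.lt_aleph0_iff_finite.1 hfin
    exact good_finite G
  push Not at hfin
  by_cases hle : #G ≤ cn m G
  · rcases hB with hB | ⟨P, e, he, hB⟩
    · exact absurd (hfin.trans hle) (not_le.2 hB)
    · exact block 0 (fun h => zero_smul ℕ h) e he (hB.mono le_rfl hle)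
  push Not at hle
  -- choose a maximal divisor
  obtain ⟨n, hn, hmax⟩ := Finset.exists_max_image (m.divisors.filter fun n => cn n G = #G) id
    ⟨1, by simp [cn_one, hm.ne']⟩
  rw [Finset.mem_filter, Nat.mem_divisors] at hn
  obtain ⟨⟨⟨t, hmt⟩, -⟩, hn2⟩ := hn
  have hn0 : 0 < n := Nat.pos_of_ne_zero fun h => by simp [h] at hmt; omega
  have ht1 : t ≠ 1 := by
    rintro rfl
    rw [mul_one] at hmt
    rw [hmt, hn2] at hle
    exact lt_irrefl _ hle
  obtain ⟨p, hp, t', rfl⟩ := Nat.exists_prime_and_dvd ht1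
  obtain ⟨a, r, hr, rfl⟩ := Nat.exists_eq_pow_mul_and_not_dvd hn0.ne' p hp.ne_one
  have hnp : p ^ (a + 1) * r = p ^ a * r * p := by ring
  have hdvd : p ^ (a + 1) * r ∣ m := ⟨t', by rw [hmt]; ring⟩
  have hlt : cn (p ^ (a + 1) * r) G < #G := by
    refine lt_of_le_of_ne (cn_le _ _) fun h => ?_
    have := hmax _ (Finset.mem_filter.2 ⟨Nat.mem_divisors.2 ⟨hdvd, hm.ne'⟩, h⟩)
    simp only [id] at this
    rw [hnp] at this
    have h2 := hp.two_le
    nlinarith
  have hlt2 : cn (p ^ (a + 1) * r) G * cn (p ^ (a + 1) * r) G < #G :=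
    Cardinal.mul_lt_of_lt hfin hlt hlt
  have hlev_a : lev p ≤ a := by
    by_contra h
    push Not at h
    have := cn_lev hp (hlev p hp) hr h
    rw [hn2] at this
    exact absurd hlt2 (not_lt.2 this)
  have hAdm : Adm #G #G := by
    rcases hA 1 one_pos with h | h
    · rw [cn_one] at h; exact absurd hfin (not_le.2 h)
    · rwa [cn_one] at h
  have hG0 : ℵ₀ < #G := Cardinal.aleph0_lt_continuum.trans_le hAdm.continuum_le
  obtain ⟨B, G₁, _, _, e₁, hB1, hL1⟩ := split (G := G) hp a
  obtain ⟨F, G', _, _, e₂, S, g, hg, hFS, hF, hL'⟩ := step hp hL1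
  let e : G ≃+ (B × F) × G' :=
    (e₁.trans ((AddEquiv.refl B).prodCongr e₂)).trans AddEquiv.prodAssoc.symm
  have hBF : ∀ b : B × F, p ^ (a + 1) • b = 0 := by
    rintro ⟨x, y⟩
    rw [Prod.smul_mk, hF, pow_succ', mul_smul, hB1, smul_zero]
    rfl
  have hcn : ∀ n, cn n G = cn n B * cn n F * cn n G' := fun n => by
    rw [cn_equiv e, cn_prod, cn_prod]
  have hcn' : ∀ n, p ^ (a + 1) ∣ n → cn n G' = cn n G := by
    rintro _ ⟨c, rfl⟩
    rw [cn_equiv e, cn_prod, cn_of_zero (G := B × F), one_mul]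
    intro x
    rw [mul_comm, mul_smul, hBF, smul_zero]
  have hS : #G ≤ #S := by
    have h1 : cn (p ^ a * r) B = 1 := cn_of_zero fun x => by
      rw [mul_comm, mul_smul, hB1, smul_zero]
    have h2 : cn (p ^ a * r) G' < #G := by
      refine (cn_lev hp hL' hr (Nat.lt_succ_self a)).trans_lt ?_
      rwa [hcn' _ (dvd_mul_right _ _)]
    by_contra hS
    push Not at hS
    have h3 : cn (p ^ a * r) F < #G := ((cn_le _ _).trans hFS).trans_lt (max_lt hS hG0)
    have h4 := hcn (p ^ a * r)
    rw [h1, one_mul, hn2] at h4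
    exact absurd (Cardinal.mul_lt_of_lt hfin h3 h2) (by rw [← h4]; exact lt_irrefl _)
  have hgood1 : Good (B × F) := by
    refine block (p ^ (a + 1)) hBF (fun s => ((0 : B), g s)) ?_ (hAdm.mono hS ?_)
    · intro f hf
      apply hg
      have := map_comb (fun s => ((0 : B), g s)) (AddMonoidHom.snd B F) f
      rw [hf, map_zero] at this
      exact this.symm
    · rw [Cardinal.mk_congr e.toEquiv]
      exact Cardinal.mk_le_of_injective (f := fun b : B × F => (b, (0 : G')))
        fun _ _ h => congrArg Prod.fst h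
  have hgood2 : Good G' := by
    have hpm : p ∈ m.primeFactors :=
      Nat.mem_primeFactors.2 ⟨hp, ⟨p ^ a * r * t', by rw [hmt]; ring⟩, hm.ne'⟩
    have hfa : a + 1 ≤ m.factorization p :=
      (hp.pow_dvd_iff_le_factorization hm.ne').1 ((dvd_mul_right _ _).trans hdvd)
    refine ih _ ?_ G' (Function.update lev p (a + 1)) rfl ?_ ?_ ?_
    · rw [← hN]
      refine Finset.sum_lt_sum (fun q _ => ?_) ⟨p, hpm, ?_⟩
      · by_cases hq : q = p
        · subst hq; rw [Function.update_self]; omega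
        · rw [Function.update_of_ne hq]
      · rw [Function.update_self]; omega
    · intro q hq
      by_cases hqp : q = p
      · subst hqp; rw [Function.update_self]; exact hL'
      · rw [Function.update_of_ne hqp]
        intro x hx
        obtain ⟨y, hy⟩ := hlev q hq (e.symm (0, x)) (by
          rw [← map_nsmul, Prod.smul_mk, hx, smul_zero]; exact map_zero _)
        refine ⟨(e y).2, ?_⟩
        have := congrArg (fun z => (e z).2) hy
        simpa using this
    · have key : ∀ c b r', b + c = a + 1 → ¬ p ∣ r' →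
          cn (p ^ b * r') G' < ℵ₀ ∨ Adm (cn (p ^ b * r') G') (cn (p ^ b * r') G') := by
        intro c
        induction c with
        | zero =>
          intro b r' hb hr'
          rw [add_zero] at hb
          rw [hb, hcn' _ (dvd_mul_right _ _)]
          refine hA _ (mul_pos (pow_pos hp.pos _) (Nat.pos_of_ne_zero ?_))
          rintro rfl
          exact hr' (dvd_zero _)
        | succ c ihc =>
          intro b r' hb hr'
          have h1 := cn_lev hp hL' hr' (show b < a + 1 by omega)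
          have h2 : cn (p ^ (b + 1) * r') G' ≤ cn (p ^ b * r') G' := by
            rw [show p ^ (b + 1) * r' = p ^ b * r' * p by ring]
            exact cn_mul_le _ _ _
          rcases ihc (b + 1) r' (by omega) hr' with h | h
          · exact Or.inl (h1.trans_lt (Cardinal.mul_lt_aleph0 h h))
          · right
            rw [Cardinal.mul_eq_self (Cardinal.aleph0_le_continuum.trans h.continuum_le)] at h1
            rwa [le_antisymm h1 h2]
      intro n hn
      obtain ⟨b, r', hr', rfl⟩ := Nat.exists_eq_pow_mul_and_not_dvd hn.ne' p hp.ne_one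
      rcases le_total b (a + 1) with hb | hb
      · exact key (a + 1 - b) b r' (by omega) hr'
      · rw [hcn' _ ((pow_dvd_pow p hb).trans (dvd_mul_right _ _))]
        exact hA _ hn
    · have hm' : cn m G' = cn m G := hcn' m ((dvd_mul_right _ _).trans hdvd)
      rcases hB with hB | ⟨P, e', he', hB⟩
      · exact Or.inl (hm' ▸ hB)
      · refine Or.inr ⟨P, fun s => (e (e' s)).2, fun f hf s => ?_, hm' ▸ hB⟩
        have h1 := map_comb e' ((AddMonoidHom.snd _ _).comp e.toAddMonoidHom) f
        have h2 : (e (Finsupp.linearCombination ℤ e' f)).2 = 0 := h1.trans hf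
        have h3 : Finsupp.linearCombination ℤ e' (p ^ (a + 1) • f) = 0 := by
          apply e.injective
          rw [map_nsmul, map_nsmul, map_zero]
          refine Prod.ext (hBF _) ?_
          rw [Prod.smul_snd, h2, smul_zero]
          rfl
        have h4 := he' _ h3 s
        simp only [Nat.cast_zero, zero_dvd_iff, Finsupp.smul_apply, nsmul_eq_mul,
          mul_eq_zero] at h4 ⊢
        rcases h4 with h4 | h4
        · exact absurd (by exact_mod_cast h4) (pow_pos hp.pos (a + 1)).ne'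
        · exact h4
  exact (hgood1.prod hgood2).of_equiv e

theorem good_of_cond {G : Type u} [AddCommGroup G] (hA : CondA G) {m : ℕ} (hm : 0 < m)
    (hB : CondB m G) : Good G :=
  main_ind m hm _ G (fun _ => 0) rfl (fun _ _ x _ => ⟨x, by simp⟩) hA hB

end Pool.Agent.H107Z.PC
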