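import Mathlib
import Pool.Agent.H107Z.PC3

/-! From a dual pair with the countable realisation property to the cardinal conditions. -/

set_option autoImplicit false
set_option linter.style.haveILetI false

namespace Pool.Agent.H107Z.PC

open Cardinal Function Topology

universe u

theorem continuum_le_of_inj {α : Type} {β : Type u} (hα : #α = 𝔠) (f : α → β)
    (hf : Injective f) : 𝔠 ≤ #β := by
  have := Cardinal.mk_le_of_injective (f := fun a : ULift.{u} α => f a.down)
    (hf.comp ULift.down_injective)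
  simpa [hα] using this

theorem rank (G : Type u) [AddCommGroup G] : ∃ (P : Type u) (e : P → G) (Y : Type u)
    (cls : G → Y), FreeFam 0 e ∧ #Y ≤ max #P ℵ₀ ∧
      ∀ g g', cls g = cls g' → ∃ N : ℕ, 0 < N ∧ N • g = N • g' := by
  obtain ⟨s, hs1, hs2⟩ := exists_maximal_linearIndepOn ℤ (id : G → G)
  have h1 : ∀ g : G, ∃ (a : ℤ) (f : s →₀ ℤ), a ≠ 0 ∧
      a • g = Finsupp.linearCombination ℤ (Subtype.val : s → G) f := by
    intro g
    by_cases hg : g ∈ s
    · exact ⟨1, Finsupp.single ⟨g, hg⟩ 1, one_ne_zero, by simp⟩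
    · obtain ⟨a, ha, h⟩ := hs2 g hg
      rw [Set.image_id, ← Subtype.range_coe (s := s), ← Finsupp.range_linearCombination] at h
      obtain ⟨f, hf⟩ := h
      exact ⟨a, f, ha, hf.symm⟩
  choose a f ha hf using h1
  refine ⟨s, Subtype.val, ℤ × (s →₀ ℤ), fun g => (a g, f g), fun l hl p => ?_, ?_, ?_⟩
  · rw [linearIndependent_iff.1 hs1 l hl]; simp
  · rw [Cardinal.mk_prod]
    simp only [Cardinal.mk_int, Cardinal.lift_aleph0, Cardinal.lift_uzero]
    exact (mul_le_mul' (le_max_right _ _) (card_finsupp_W _)).trans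
      (Cardinal.mul_eq_self (le_max_right _ _)).le
  · intro g g' h
    have h1 : a g = a g' := congrArg Prod.fst h
    have h2 : f g = f g' := congrArg Prod.snd h
    refine ⟨(a g).natAbs, Int.natAbs_pos.2 (ha g), ?_⟩
    have h3 : a g • (g - g') = 0 := by rw [smul_sub, hf g, h1, hf g', h2, sub_self]
    rw [← sub_eq_zero, ← smul_sub]
    exact natAbs_nsmul_eq_zero.2 h3

variable {G X : Type u} [AddCommGroup G] [AddCommGroup X] (ev : X →+ G →+ T)

/-- countable realisation -/
def Rl : Prop := ∀ (y : ℕ → X) (t : ℕ → T),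
  (∀ k, ∃ s : X →+ T, ∀ j < k, s (y j) = t j) → ∃ g, ∀ j, ev (y j) g = t j

variable {ev}

theorem Rl.set (hR : Rl ev) {A : Type*} (y : A → X) (t : A → T) (J : Set A) (hJ : J.Countable)
    (h : ∀ F : Finset A, ∃ s : X →+ T, ∀ a ∈ F, s (y a) = t a) :
    ∃ g, ∀ a ∈ J, ev (y a) g = t a := by
  classical
  rcases J.eq_empty_or_nonempty with rfl | hne
  · exact ⟨0, by simp⟩
  obtain ⟨e, rfl⟩ := hJ.exists_eq_range hne
  obtain ⟨g, hg⟩ := hR (y ∘ e) (t ∘ e) fun k => by
    obtain ⟨s, hs⟩ := h ((Finset.range k).image e)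
    exact ⟨s, fun j hj => hs _ (Finset.mem_image_of_mem e (Finset.mem_range.2 hj))⟩
  exact ⟨g, by rintro _ ⟨j, rfl⟩; exact hg j⟩

theorem Rl.bi (hR : Rl ev) {A : Type*} {y : A → X} {s : A → X →+ T}
    (hs : ∀ a b, a ≠ b → s a (y b) = 0) (c : A → Bool) (J : Set A) (hJ : J.Countable) :
    ∃ g, ∀ a ∈ J, ev (y a) g = if c a then 0 else s a (y a) := by
  refine hR.set y _ J hJ fun F => ⟨∑ b ∈ F, if c b then 0 else s b, fun a ha => ?_⟩
  rw [AddMonoidHom.finsetSum_apply, Finset.sum_eq_single_of_mem a ha]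
  · split_ifs <;> simp
  · intro b _ hb
    split_ifs
    · simp
    · exact hs b a hb

theorem Rl.tri (hR : Rl ev) (hX : ∀ x : X, IsOfFinAddOrder x) (M : ℕ → ℕ)
    (hM : ∀ k, (nR (M k) X).Infinite) : ∃ g : (ℕ → Bool) → G, ∀ ε ε' k,
      (∀ j < k, ε j = ε' j) → M k • g ε = M k • g ε' → ε k = ε' k := by
  obtain ⟨y, s, hs1, hs2⟩ := lemTri hX M hM
  have h1 : ∀ ε : ℕ → Bool, ∃ g, ∀ j, ev (y j) g =
      ∑ i ∈ Finset.range (j + 1), if ε i then s i (y j) else 0 := by
    intro ε
    refine hR y _ fun k => ⟨∑ i ∈ Finset.range k, if ε i then s i else 0, fun j hj => ?_⟩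
    rw [AddMonoidHom.finsetSum_apply]
    symm
    refine (Finset.sum_subset (Finset.range_mono hj) ?_).trans ?_
    · intro i _ hi
      rw [Finset.mem_range, not_lt] at hi
      rw [hs1 j i hi]; simp
    · refine Finset.sum_congr rfl fun i _ => ?_
      split_ifs <;> simp
  choose g hg using h1
  refine ⟨g, fun ε ε' k hk h => ?_⟩
  have h2 := congrArg (ev (y k)) h
  rw [map_nsmul, map_nsmul, hg, hg, Finset.sum_range_succ, Finset.sum_range_succ, smul_add,
    smul_add] at h2
  have h3 : (∑ i ∈ Finset.range k, if ε i then s i (y k) else 0) =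
      ∑ i ∈ Finset.range k, if ε' i then s i (y k) else 0 :=
    Finset.sum_congr rfl fun i hi => by rw [hk i (Finset.mem_range.1 hi)]
  rw [h3, add_right_inj] at h2
  have h4 := hs2 k
  rw [map_nsmul] at h4
  cases h5 : ε k <;> cases h6 : ε' k <;> simp_all

theorem Rl.surj (hR : Rl ev) {χ : X} (hχ : ¬ IsOfFinAddOrder χ) (t : T) : ∃ g, ev χ g = t := by
  obtain ⟨s, hs⟩ := ext_hom isDiv_T (zmultiplesHom X χ) (zmultiplesHom T t) (by
    intro k hk
    rw [zmultiplesHom_apply] at hk ⊢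
    by_cases h : k = 0
    · simp [h]
    · exact absurd (isOfFinAddOrder_iff_zsmul_eq_zero.2 ⟨k, h, hk⟩) hχ)
  obtain ⟨g, hg⟩ := hR (fun _ => χ) (fun _ => t) fun k => ⟨s, fun _ _ => by simpa using hs 1⟩
  exact ⟨g, hg 0⟩

theorem sep_n (hsep : ∀ g, (∀ χ, ev χ g = 0) → g = 0) (n : ℕ) (g g' : G)
    (h : ∀ ψ : nR n X, ev ψ g = ev ψ g') : n • g = n • g' := by
  rw [← sub_eq_zero, ← smul_sub]
  refine hsep _ fun χ => ?_
  have := h ⟨_, χ, rfl⟩
  simp only [map_nsmul, AddMonoidHom.smul_apply] at this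
  rw [map_nsmul, map_sub, smul_sub, this, sub_self]

theorem cn_le_pow (hsep : ∀ g, (∀ χ, ev χ g = 0) → g = 0) (n : ℕ) :
    cn n G ≤ 𝔠 ^ cn n X := by
  have := card_range_le (fun g : G => n • g) (fun g => fun ψ : nR n X => ev ψ g)
    fun g g' h => sep_n hsep n g g' (congrFun h)
  rw [Cardinal.mk_arrow, card_T] at this
  simpa [cn, nR] using this

theorem cn_le_two_pow (hsep : ∀ g, (∀ χ, ev χ g = 0) → g = 0) (n : ℕ) (h : ℵ₀ ≤ cn n X) :
    cn n G ≤ 2 ^ cn n X := by
  refine (cn_le_pow hsep n).trans (le_of_eq ?_)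
  rw [← Cardinal.two_power_aleph0, ← Cardinal.power_mul,
    Cardinal.mul_eq_right h h Cardinal.aleph0_ne_zero]

theorem cn_le_continuum (hsep : ∀ g, (∀ χ, ev χ g = 0) → g = 0) (n : ℕ) (h : cn n X ≤ ℵ₀) :
    cn n G ≤ 𝔠 :=
  (cn_le_pow hsep n).trans ((Cardinal.power_le_power_left Cardinal.continuum_ne_zero h).trans
    Cardinal.continuum_power_aleph0.le)

theorem cn_finite (hsep : ∀ g, (∀ χ, ev χ g = 0) → g = 0) (n : ℕ) (h : cn n X < ℵ₀) :
    cn n G < ℵ₀ := by
  haveI hf : Finite (nR n X) := Cardinal.lt_aleph0_iff_finite.1 h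
  let R : AddSubgroup X := (nsmulAddMonoidHom n : X →+ X).range
  haveI : Finite R := hf
  have hN : ∀ ψ : nR n X, Nat.card R • (ψ : X) = 0 := fun ψ =>
    congrArg Subtype.val (card_nsmul_eq_zero' (x := (⟨ψ.1, ψ.2⟩ : R)))
  haveI : Finite {u : T | Nat.card R • u = 0} :=
    AddCircle.finite_torsion (1 : ℝ) Nat.card_pos
  have := card_range_le (fun g : G => n • g)
    (fun g => fun ψ : nR n X => (⟨ev ψ g, by
      change Nat.card R • ev ψ g = 0
      rw [← AddMonoidHom.smul_apply, ← map_nsmul, hN, map_zero, AddMonoidHom.zero_apply]⟩ :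
        {u : T | Nat.card R • u = 0}))
    fun g g' h => sep_n hsep n g g' fun ψ => congrArg Subtype.val (congrFun h ψ)
  exact this.trans_lt (Cardinal.lt_aleph0_of_finite _)

theorem infinite_nR {n : ℕ} (h : ℵ₀ ≤ cn n X) : (nR n X).Infinite :=
  Set.infinite_coe_iff.1 (Cardinal.infinite_iff.2 h)

theorem condA (hsep : ∀ g, (∀ χ, ev χ g = 0) → g = 0) (hR : Rl ev) : CondA G := by
  classical
  intro n hn
  rcases lt_or_ge (cn n X) ℵ₀ with hfin | hinf
  · exact Or.inl (cn_finite hsep n hfin)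
  right
  rcases le_or_gt (cn n X) ℵ₀ with hle | hlt
  · refine adm_continuum ?_ (cn_le_continuum hsep n hle)
    by_cases hX : ∀ x : X, IsOfFinAddOrder x
    · obtain ⟨g, hg⟩ := hR.tri hX (fun _ => n) fun _ => infinite_nR hinf
      refine continuum_le_of_inj (α := ℕ → Bool) (by simp)
        (fun ε => (⟨_, g ε, rfl⟩ : nR n G)) fun ε ε' h => ?_
      funext k
      induction k using Nat.strong_induction_on with
      | _ k ih => exact hg ε ε' k ih (congrArg Subtype.val h)
    · push Not at hX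
      obtain ⟨χ, hχ⟩ := hX
      have h1 : ∀ t : T, ∃ g, ev χ (n • g) = t := by
        intro t
        obtain ⟨t', ht'⟩ := isDiv_T n (by exact_mod_cast hn.ne') t
        obtain ⟨g, hg⟩ := hR.surj hχ t'
        exact ⟨g, by rw [map_nsmul, hg, ← natCast_zsmul, ht']⟩
      choose g hg using h1
      refine continuum_le_of_inj card_T (fun t => (⟨_, g t, rfl⟩ : nR n G)) fun t t' h => ?_
      have h2 : n • g t = n • g t' := congrArg Subtype.val h
      rw [← hg t, ← hg t', h2]
  · obtain ⟨y, s, hs1, hs2⟩ := lemBi (X := X) (nR n X) hlt (fun _ => n) fun _ => le_rfl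
    refine ⟨nR n X, nR n G, fun z a => decide (ev (y a) z = 0), Cardinal.infinite_iff.2 hinf,
      fun J hJ f => ?_, le_rfl, cn_le_two_pow hsep n hinf⟩
    obtain ⟨g, hg⟩ := hR.bi hs1 f J hJ
    refine ⟨⟨_, g, rfl⟩, fun a ha => ?_⟩
    have h1 := hs2 a
    simp only [map_nsmul] at h1 ⊢
    rw [hg a ha]
    cases f a <;> simp [h1]

theorem condB (hsep : ∀ g, (∀ χ, ev χ g = 0) → g = 0) (hR : Rl ev) :
    ∃ m, 0 < m ∧ CondB m G := by
  classical
  obtain ⟨_, ⟨m, hm, rfl⟩, hmin⟩ := (wellFounded_lt (α := Cardinal.{u})).has_min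
    ((fun m => cn m X) '' {m | 0 < m}) ⟨_, 1, Nat.one_pos, rfl⟩
  have hmin' : ∀ N, 0 < N → cn m X ≤ cn N X := fun N hN => not_lt.1 (hmin _ ⟨N, hN, rfl⟩)
  refine ⟨m, hm, ?_⟩
  rcases lt_or_ge (cn m X) ℵ₀ with hfin | hinf
  · exact Or.inl (cn_finite hsep m hfin)
  right
  obtain ⟨P, e, Y, cls, he, hY, hcls⟩ := rank G
  refine ⟨P, e, he, ?_⟩
  let rep : Y → G := invFun cls
  have hrep : ∀ g, cls (rep (cls g)) = cls g := fun g => invFun_eq ⟨g, rfl⟩
  choose N hN0 hN using fun g => hcls _ _ (hrep g)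
  have hP : ∀ Z : Type, Countable Z → 𝔠 ≤ #(Y × Z) → 𝔠 ≤ #P := by
    intro Z hZ h
    rw [Cardinal.mk_prod, Cardinal.lift_uzero] at h
    have h1 : Cardinal.lift.{u} #Z ≤ ℵ₀ := by
      rw [Cardinal.lift_le_aleph0]; exact Cardinal.mk_le_aleph0
    have h2 := h.trans ((mul_le_mul' hY (h1.trans (le_max_right _ _))).trans
      (Cardinal.mul_eq_self (le_max_right _ _)).le)
    rcases le_max_iff.1 h2 with h3 | h3
    · exact h3
    · exact absurd Cardinal.aleph0_lt_continuum (not_lt.2 h3)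
  rcases le_or_gt (cn m X) ℵ₀ with hle | hlt
  · refine adm_continuum ?_ (cn_le_continuum hsep m hle)
    by_cases hX : ∀ x : X, IsOfFinAddOrder x
    · obtain ⟨g, hg⟩ := hR.tri hX Nat.factorial fun k =>
        infinite_nR (hinf.trans (hmin' _ (Nat.factorial_pos k)))
      refine hP (ℕ × Finset ℕ) inferInstance (continuum_le_of_inj (α := ℕ → Bool) (by simp)
        (fun ε => (cls (g ε), N (g ε), (Finset.range (N (g ε))).filter fun i => ε i))
        fun ε ε' h => ?_)
      simp only [Prod.mk.injEq] at h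
      obtain ⟨h1, h2, h3⟩ := h
      have h4 : N (g ε) • g ε = N (g ε) • g ε' := by
        rw [← hN, h1, h2, hN]
      funext k
      induction k using Nat.strong_induction_on with
      | _ k ih =>
        rcases lt_or_ge k (N (g ε)) with hk | hk
        · have h5 := Finset.ext_iff.1 h3 k
          simp only [Finset.mem_filter, Finset.mem_range, ← h2, hk, true_and] at h5
          exact Bool.eq_iff_iff.2 h5
        · refine hg ε ε' k ih ?_
          obtain ⟨c, hc⟩ := Nat.dvd_factorial (hN0 (g ε)) hk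
          rw [hc, mul_comm, mul_smul, mul_smul, h4]
    · push Not at hX
      obtain ⟨χ, hχ⟩ := hX
      choose g hg using hR.surj hχ
      let Z : Set T := ⋃ k : ℕ, {u : T | (k + 1) • u = 0}
      have hZ : Z.Countable := Set.countable_iUnion fun k =>
        (AddCircle.finite_torsion (1 : ℝ) (Nat.succ_pos k)).countable
      have hmem : ∀ t, t - ev χ (rep (cls (g t))) ∈ Z := by
        intro t
        refine Set.mem_iUnion.2 ⟨N (g t) - 1, ?_⟩
        have h1 := hN0 (g t)
        change (N (g t) - 1 + 1) • (t - ev χ (rep (cls (g t)))) = 0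
        rw [Nat.sub_add_cancel h1, smul_sub, ← map_nsmul, hN, map_nsmul, hg, sub_self]
      refine hP Z hZ.to_subtype (continuum_le_of_inj card_T
        (fun t => (cls (g t), (⟨_, hmem t⟩ : Z))) fun t t' h => ?_)
      simp only [Prod.mk.injEq, Subtype.mk.injEq] at h
      rw [h.1] at h
      exact sub_left_injective h.2
  · haveI : Infinite (nR m X) := Cardinal.infinite_iff.2 hinf
    have hA : #(nR m X × ℕ) = cn m X := by
      rw [Cardinal.mk_prod]
      simp only [Cardinal.mk_nat, Cardinal.lift_aleph0, Cardinal.lift_uzero]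
      exact Cardinal.mul_eq_left hinf hinf Cardinal.aleph0_ne_zero
    obtain ⟨y, s, hs1, hs2⟩ := lemBi (X := X) (nR m X × ℕ) (hA ▸ hlt) (fun a => a.2.factorial)
      fun a => hA ▸ hmin' _ (Nat.factorial_pos _)
    let F : G → nR m X → Bool := fun g i =>
      decide (∃ K : ℕ, 0 < K ∧ ∀ k, K • ev (y (i, k)) g = 0)
    have hF : ∀ g g' (K : ℕ), 0 < K → K • g = K • g' → ∀ i, F g i → F g' i := by
      intro g g' K hK h i hi
      simp only [F, decide_eq_true_eq] at hi ⊢
      obtain ⟨K', hK', h'⟩ := hi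
      refine ⟨K' * K, mul_pos hK' hK, fun k => ?_⟩
      rw [mul_smul, ← map_nsmul _ K, ← h, map_nsmul, smul_comm, h', smul_zero]
    have hreal : Real' fun z => F (rep z) := by
      intro J hJ f
      obtain ⟨g, hg⟩ := hR.bi hs1 (fun a => f a.1) (J ×ˢ Set.univ) (hJ.prod Set.countable_univ)
      refine ⟨cls g, fun i hi => ?_⟩
      have h1 : F (rep (cls g)) i = F g i :=
        Bool.eq_iff_iff.2 ⟨hF _ _ _ (hN0 g) (hN g) i, hF _ _ _ (hN0 g) (hN g).symm i⟩
      refine h1.trans ?_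
      have h2 : ∀ k, ev (y (i, k)) g = if f i then 0 else s (i, k) (y (i, k)) :=
        fun k => hg (i, k) ⟨hi, trivial⟩
      cases hfi : f i
      · simp only [F, decide_eq_false_iff_not]
        rintro ⟨K, hK, h⟩
        apply hs2 (i, K)
        have h3 := h K
        rw [h2, hfi] at h3
        obtain ⟨c, hc⟩ := Nat.dvd_factorial hK le_rfl
        simp only [Bool.false_eq_true, if_false] at h3
        simp only [map_nsmul]
        rw [hc, mul_comm, mul_smul, h3, smul_zero]
      · simp only [F, decide_eq_true_eq]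
        exact ⟨1, one_pos, fun k => by rw [h2, hfi]; simp⟩
    have hcP : 𝔠 ≤ #P := by
      rcases le_max_iff.1 (hreal.continuum_le.trans hY) with h3 | h3
      · exact h3
      · exact absurd Cardinal.aleph0_lt_continuum (not_lt.2 h3)
    exact ⟨nR m X, Y, _, inferInstance, hreal,
      hY.trans (max_le le_rfl (Cardinal.aleph0_le_continuum.trans hcP)),
      cn_le_two_pow hsep m hinf⟩

theorem good_of_dual (hsep : ∀ g, (∀ χ, ev χ g = 0) → g = 0) (hR : Rl ev) : Good G := by
  obtain ⟨m, hm, hB⟩ := condB hsep hR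
  exact good_of_cond (condA hsep hR) hm hB

end Pool.Agent.H107Z.PC
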