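import Mathlib
import Pool.Agent.H107Z.PC4
import Pool.Agent.H452Z.Chars
import Pool.Agent.H567Z.Compl2

/-! Pseudocompact abelian groups and their continuous characters. -/

set_option autoImplicit false
set_option linter.style.haveILetI false

namespace Pool.Agent.H107Z.PC

open Function Topology MeasureTheory UnitAddTorus

universe u

theorem mF_eq {d : Type} [Fintype d] (n : d → ℤ) (x : d → T) :
    mFourier n x = (AddCircle.toCircle (∑ i, n i • x i) : ℂ) := by
  classical
  have : ∀ s : Finset d, ∏ i ∈ s, fourier (n i) (x i) =
      (AddCircle.toCircle (∑ i ∈ s, n i • x i) : ℂ) := by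
    intro s
    induction s using Finset.induction_on with
    | empty => simp
    | insert a s ha ih =>
      rw [Finset.prod_insert ha, Finset.sum_insert ha, ih, AddCircle.toCircle_add, fourier_apply,
        Circle.coe_mul]
  exact this Finset.univ

theorem mF_add {d : Type} [Fintype d] (n : d → ℤ) (x y : d → T) :
    mFourier n (x + y) = mFourier n x * mFourier n y := by
  simp only [mF_eq, Pi.add_apply, smul_add, Finset.sum_add_distrib, AddCircle.toCircle_add,
    Circle.coe_mul]

theorem mF_one {d : Type} [Fintype d] (n : d → ℤ) (x : d → T) :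
    mFourier n x = 1 ↔ ∑ i, n i • x i = 0 := by
  rw [mF_eq, ← Circle.coe_one, Circle.coe_inj, ← AddCircle.toCircle_zero (T := 1),
    (AddCircle.injective_toCircle one_ne_zero).eq_iff]

/-- closed subgroups of the torus are determined by their annihilators -/
theorem mem_of_annih {d : Type} [Fintype d] (L : AddSubgroup (d → T))
    (hL : IsClosed (L : Set (d → T))) (t : d → T)
    (ht : ∀ n : d → ℤ, (∀ x ∈ L, ∑ i, n i • x i = 0) → ∑ i, n i • t i = 0) : t ∈ L := by
  by_contra hcon
  haveI : CompactSpace L := isCompact_iff_compactSpace.1 hL.isCompact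
  let μ : Measure L := Measure.addHaar
  have hint : ∀ (f : C(UnitAddTorus d, ℂ)) (c : d → T),
      Integrable (fun x : L => f (c + x)) μ := by
    intro f c
    have : Continuous fun x : L => f (c + x) := by fun_prop
    exact this.integrable_of_hasCompactSupport (HasCompactSupport.of_compactSpace _)
  let I : (d → T) → C(UnitAddTorus d, ℂ) →L[ℂ] ℂ := fun c =>
    LinearMap.mkContinuous
      { toFun := fun f => ∫ x : L, f (c + x) ∂μ
        map_add' := fun f g => by
          simp only [ContinuousMap.add_apply]
          exact integral_add (hint f c) (hint g c)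
        map_smul' := fun a f => by
          simp only [ContinuousMap.smul_apply, RingHom.id_apply]
          exact integral_smul a _ } (μ.real Set.univ) (fun f => by
        simp only [LinearMap.coe_mk, AddHom.coe_mk]
        rw [mul_comm]
        exact norm_integral_le_of_norm_le_const
          (Filter.Eventually.of_forall fun x => f.norm_coe_le_norm _))
  have hI : ∀ c f, I c f = ∫ x : L, f (c + x) ∂μ := fun c f => rfl
  have hIt : I t = I 0 := by
    refine ContinuousLinearMap.ext_on (s := Set.range (mFourier (d := d))) ?_ ?_
    · rw [Submodule.dense_iff_topologicalClosure_eq_top]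
      exact span_mFourier_closure_eq_top
    · rintro _ ⟨n, rfl⟩
      have h1 : ∀ c, I c (mFourier n) = mFourier n c * ∫ x : L, mFourier n (x : d → T) ∂μ := by
        intro c
        rw [hI]
        simp only [mF_add]
        exact integral_const_mul _ _
      rw [h1, h1]
      by_cases h : ∀ x ∈ L, ∑ i, n i • x i = 0
      · rw [(mF_one n t).2 (ht n h), (mF_one n 0).2 (by simp)]
      · push Not at h
        obtain ⟨x₀, hx₀, h⟩ := h
        have h2 : ∫ x : L, mFourier n (x : d → T) ∂μ = 0 := by
          have h3 := integral_add_left_eq_self (μ := μ)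
            (fun x : L => mFourier n (x : d → T)) (⟨x₀, hx₀⟩ : L)
          simp only [AddSubgroup.coe_add, mF_add] at h3
          rw [integral_const_mul] at h3
          have h4 : mFourier n x₀ ≠ 1 := fun h' => h ((mF_one n x₀).1 h')
          have h5 : (mFourier n x₀ - 1) * ∫ x : L, mFourier n (x : d → T) ∂μ = 0 := by
            rw [sub_mul, h3, one_mul, sub_self]
          exact (mul_eq_zero.1 h5).resolve_left (sub_ne_zero.2 h4)
        rw [h2, mul_zero, mul_zero]
  have hcl : IsClosed {x : d → T | x - t ∈ L} := hL.preimage (by fun_prop)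
  obtain ⟨f, hf0, hf1, -⟩ := exists_continuous_zero_one_of_isClosed hcl hL (by
    rw [Set.disjoint_left]
    intro x hx hx'
    apply hcon
    have := L.sub_mem hx' hx
    simpa using this)
  let f' : C(UnitAddTorus d, ℂ) := ⟨fun x => (f x : ℂ), by fun_prop⟩
  have h1 : I t f' = 0 := by
    rw [hI]
    have : ∀ x : L, f' (t + x) = 0 := fun x => by
      have : f (t + x) = 0 := hf0 (by simp)
      simp [f', this]
    simp [this]
  have h2 : I 0 f' = μ.real Set.univ := by
    rw [hI]
    have : ∀ x : L, f' (0 + x) = 1 := fun x => by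
      have : f (0 + x) = 1 := hf1 (by simp)
      simp only [f', ContinuousMap.coe_mk, this, Complex.ofReal_one]
    simp only [this, integral_const, Complex.real_smul, mul_one]
  rw [hIt, h2] at h1
  have h3 : 0 < μ.real Set.univ := by
    rw [Measure.real, ENNReal.toReal_pos_iff]
    exact ⟨isOpen_univ.measure_pos μ Set.univ_nonempty, measure_lt_top _ _⟩
  exact h3.ne' (by exact_mod_cast h1)

variable {G : Type u} [AddCommGroup G] [TopologicalSpace G] [IsTopologicalAddGroup G]

/-- continuous characters -/
def Dual (G : Type u) [AddCommGroup G] [TopologicalSpace G] : AddSubgroup (G →+ T) where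
  carrier := {χ | Continuous χ}
  add_mem' := fun ha hb => Continuous.add ha hb
  zero_mem' := continuous_const
  neg_mem' := fun ha => Continuous.neg ha

theorem dual_sep [T2Space G] (hG : ∀ f : G → ℝ, Continuous f → ∃ M : ℝ, ∀ x, |f x| ≤ M) (g : G)
    (h : ∀ χ : Dual G, (Dual G).subtype χ g = 0) : g = 0 := by
  obtain ⟨K, _, _, _, _, _, ι, hι, hd⟩ :=
    H567Z.exists_compactification_pre (A := G) (H567Z.preA_of_pc hG)
  have hcomm : ∀ a b : K, a + b = b + a := by
    intro a b
    refine hd.induction_on₂ (p := fun a b => a + b = b + a) ?_ ?_ a b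
    · exact isClosed_eq (by fun_prop) (by fun_prop)
    · intro a b
      rw [← map_add, add_comm, map_add]
  letI : AddCommGroup K := { ‹AddGroup K› with add_comm := hcomm }
  haveI : T2Space (Multiplicative K) := ‹T2Space K›
  by_contra hg
  obtain ⟨χ, hχ, hne⟩ := H452Z.Chars.exists_char_ne_one (G := Multiplicative K)
    (Multiplicative.ofAdd (ι g)) (by
      intro h0
      apply hg
      apply hι.injective
      rw [map_zero]
      exact h0)
  let e := AddCircle.homeomorphCircle (T := 1) one_ne_zero
  let c : G → Circle := fun x => ⟨χ (Multiplicative.ofAdd (ι x)), by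
    simp [Submonoid.unitSphere, hχ.norm_eq]⟩
  have hc : Continuous c := by
    refine Continuous.subtype_mk ?_ _
    exact χ.continuous.comp (continuous_ofAdd.comp hι.continuous)
  have he : ∀ x y, e (x + y) = e x * e y := fun x y => by
    simp only [e, AddCircle.homeomorphCircle_apply, AddCircle.toCircle_add]
  let ψ : G →+ T := AddMonoidHom.mk' (fun x => e.symm (c x)) fun x y => by
    apply e.injective
    rw [he, e.apply_symm_apply, e.apply_symm_apply, e.apply_symm_apply]
    apply Subtype.ext
    change χ (Multiplicative.ofAdd (ι (x + y))) = χ _ * χ _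
    rw [map_add, ofAdd_add, hχ.2]
  have h1 : e.symm (c g) = 0 := h ⟨ψ, e.symm.continuous.comp hc⟩
  apply hne
  have h2 : c g = 1 := by
    rw [← e.apply_symm_apply (c g), h1]
    simp [e, AddCircle.homeomorphCircle_apply]
  exact congrArg Subtype.val h2

omit [IsTopologicalAddGroup G] in
theorem dual_Rl (hG : ∀ f : G → ℝ, Continuous f → ∃ M : ℝ, ∀ x, |f x| ≤ M) :
    Rl (Dual G).subtype := by
  intro y t h
  have hfin : ∀ k, ∃ g, ∀ j < k, (y j).1 g = t j := by
    intro k
    obtain ⟨s, hs⟩ := h k
    let φ : G →+ (Fin k → T) := AddMonoidHom.pi fun j => (y j).1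
    have hφ : Continuous φ := continuous_pi fun j => (y j).2
    obtain ⟨g, hg⟩ := mem_of_annih φ.range (H567Z.closed_range_of_pc hG φ hφ)
      (fun j => t j) fun n hn => by
        have h1 : ∑ j : Fin k, n j • y j = 0 := by
          apply Subtype.ext
          ext g
          have := hn _ ⟨g, rfl⟩
          simpa [φ, AddMonoidHom.finsetSum_apply] using this
        have h2 := congrArg s h1
        rw [map_sum, map_zero] at h2
        rw [← h2]
        refine Finset.sum_congr rfl fun j _ => ?_
        rw [map_zsmul, hs j j.2]
    exact ⟨g, fun j hj => congrFun hg ⟨j, hj⟩⟩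
  choose g hg using hfin
  letI : MetricSpace (ℕ → T) := TopologicalSpace.metrizableSpaceMetric _
  let φ : G → ℕ → T := fun x j => (y j).1 x
  have hφ : Continuous φ := continuous_pi fun j => (y j).2
  have hcl := H567Z.closed_range_of_pc hG φ hφ
  have hlim : Filter.Tendsto (fun k => φ (g k)) Filter.atTop (𝓝 t) := by
    rw [tendsto_pi_nhds]
    intro j
    refine tendsto_const_nhds.congr' ?_
    filter_upwards [Filter.eventually_gt_atTop j] with k hk
    exact (hg k j hk).symm
  obtain ⟨x, hx⟩ := hcl.mem_of_tendsto hlim (Filter.Eventually.of_forall fun k => ⟨g k, rfl⟩)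
  exact ⟨x, fun j => congrFun hx j⟩

theorem good_of_pc [T2Space G] (hG : ∀ f : G → ℝ, Continuous f → ∃ M : ℝ, ∀ x, |f x| ≤ M) :
    Good G :=
  good_of_dual (dual_sep hG) (dual_Rl hG)

end Pool.Agent.H107Z.PC
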