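import Mathlib
import Pool.Agent.H107Z.PC5

/-! The main induction for an abstract property closed under products and blocks. -/

set_option autoImplicit false
set_option linter.style.haveILetI false

namespace Pool.Agent.H107Z.PC

open Cardinal Function Topology

universe u

structure Closed (Gd : ∀ (H : Type u) [AddCommGroup H], Prop) : Prop where
  prod : ∀ (A B : Type u) [AddCommGroup A] [AddCommGroup B], Gd A → Gd B → Gd (A × B)
  equiv : ∀ (A B : Type u) [AddCommGroup A] [AddCommGroup B], (A ≃+ B) → Gd B → Gd A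
  finite : ∀ (A : Type u) [AddCommGroup A] [Finite A], Gd A
  block : ∀ (n : ℕ) (H : Type u) [AddCommGroup H], (∀ h : H, n • h = 0) → ∀ (P : Type u)
    (e : P → H), FreeFam n e → Adm #P #H → Gd H

theorem main_ind' (Gd : ∀ (H : Type u) [AddCommGroup H], Prop) (hGd : Closed Gd) (m : ℕ) (hm : 0 < m) (N : ℕ) : ∀ (G : Type u) [AddCommGroup G] (lev : ℕ → ℕ),
    (∑ p ∈ m.primeFactors, (m.factorization p - lev p)) = N →
    (∀ p, p.Prime → Lev G p (lev p)) → CondA G → CondB m G → Gd G := by
  classical
  induction N using Nat.strong_induction_on with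
  | _ N ih =>
  intro G _ lev hN hlev hA hB
  by_cases hfin : #G < ℵ₀
  · haveI := Cardinal.lt_aleph0_iff_finite.1 hfin
    exact hGd.finite G
  push Not at hfin
  by_cases hle : #G ≤ cn m G
  · rcases hB with hB | ⟨P, e, he, hB⟩
    · exact absurd (hfin.trans hle) (not_le.2 hB)
    · exact hGd.block 0 _ (fun h => zero_smul ℕ h) _ e he (hB.mono le_rfl hle)
  push Not at hle
  -- choose a maximal divisor
  obtain ⟨n, hn, hmax⟩ := Finset.exists_max_image (m.divisors.filter fun n => cn n G = #G) id
    ⟨1, by simp [cn_one, hm.ne']⟩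
  rw [Finset.mem_filter, Nat.mem_divisors] at hn
  obtain ⟨⟨⟨t, hmt⟩, -⟩, hn2⟩ := hn
  have hn0 : 0 < n := Nat.pos_of_ne_zero fun h => by simp [h] at hmt; omega
  have ht1 : t ≠ 1 := by
    rintro rfl
    rw [mul_one] at hmt
    rw [hmt, hn2] at hle
    exact lt_irrefl _ hle
  obtain ⟨p, hp, t', rfl⟩ := Nat.exists_prime_and_dvd ht1
  obtain ⟨a, r, hr, rfl⟩ := Nat.exists_eq_pow_mul_and_not_dvd hn0.ne' p hp.ne_one
  have hnp : p ^ (a + 1) * r = p ^ a * r * p := by ring
  have hdvd : p ^ (a + 1) * r ∣ m := ⟨t', by rw [hmt]; ring⟩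
  have hlt : cn (p ^ (a + 1) * r) G < #G := by
    refine lt_of_le_of_ne (cn_le _ _) fun h => ?_
    have := hmax _ (Finset.mem_filter.2 ⟨Nat.mem_divisors.2 ⟨hdvd, hm.ne'⟩, h⟩)
    simp only [id] at this
    rw [hnp] at this
    have h2 := hp.two_le
    nlinarith
  have hlt2 : cn (p ^ (a + 1) * r) G * cn (p ^ (a + 1) * r) G < #G :=
    Cardinal.mul_lt_of_lt hfin hlt hlt
  have hlev_a : lev p ≤ a := by
    by_contra h
    push Not at h
    have := cn_lev hp (hlev p hp) hr h
    rw [hn2] at this
    exact absurd hlt2 (not_lt.2 this)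
  have hAdm : Adm #G #G := by
    rcases hA 1 one_pos with h | h
    · rw [cn_one] at h; exact absurd hfin (not_le.2 h)
    · rwa [cn_one] at h
  have hG0 : ℵ₀ < #G := Cardinal.aleph0_lt_continuum.trans_le hAdm.continuum_le
  obtain ⟨B, G₁, _, _, e₁, hB1, hL1⟩ := split (G := G) hp a
  obtain ⟨F, G', _, _, e₂, S, g, hg, hFS, hF, hL'⟩ := step hp hL1
  let e : G ≃+ (B × F) × G' :=
    (e₁.trans ((AddEquiv.refl B).prodCongr e₂)).trans AddEquiv.prodAssoc.symm
  have hBF : ∀ b : B × F, p ^ (a + 1) • b = 0 := by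
    rintro ⟨x, y⟩
    rw [Prod.smul_mk, hF, pow_succ', mul_smul, hB1, smul_zero]
    rfl
  have hcn : ∀ n, cn n G = cn n B * cn n F * cn n G' := fun n => by
    rw [cn_equiv e, cn_prod, cn_prod]
  have hcn' : ∀ n, p ^ (a + 1) ∣ n → cn n G' = cn n G := by
    rintro _ ⟨c, rfl⟩
    rw [cn_equiv e, cn_prod, cn_of_zero (G := B × F), one_mul]
    intro x
    rw [mul_comm, mul_smul, hBF, smul_zero]
  have hS : #G ≤ #S := by
    have h1 : cn (p ^ a * r) B = 1 := cn_of_zero fun x => by
      rw [mul_comm, mul_smul, hB1, smul_zero]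
    have h2 : cn (p ^ a * r) G' < #G := by
      refine (cn_lev hp hL' hr (Nat.lt_succ_self a)).trans_lt ?_
      rwa [hcn' _ (dvd_mul_right _ _)]
    by_contra hS
    push Not at hS
    have h3 : cn (p ^ a * r) F < #G := ((cn_le _ _).trans hFS).trans_lt (max_lt hS hG0)
    have h4 := hcn (p ^ a * r)
    rw [h1, one_mul, hn2] at h4
    exact absurd (Cardinal.mul_lt_of_lt hfin h3 h2) (by rw [← h4]; exact lt_irrefl _)
  have hgood1 : Gd (B × F) := by
    refine hGd.block (p ^ (a + 1)) _ hBF _ (fun s => ((0 : B), g s)) ?_ (hAdm.mono hS ?_)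
    · intro f hf
      apply hg
      have := map_comb (fun s => ((0 : B), g s)) (AddMonoidHom.snd B F) f
      rw [hf, map_zero] at this
      exact this.symm
    · rw [Cardinal.mk_congr e.toEquiv]
      exact Cardinal.mk_le_of_injective (f := fun b : B × F => (b, (0 : G')))
        fun _ _ h => congrArg Prod.fst h
  have hgood2 : Gd G' := by
    have hpm : p ∈ m.primeFactors :=
      Nat.mem_primeFactors.2 ⟨hp, ⟨p ^ a * r * t', by rw [hmt]; ring⟩, hm.ne'⟩
    have hfa : a + 1 ≤ m.factorization p :=
      (hp.pow_dvd_iff_le_factorization hm.ne').1 ((dvd_mul_right _ _).trans hdvd)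
    refine ih _ ?_ G' (Function.update lev p (a + 1)) rfl ?_ ?_ ?_
    · rw [← hN]
      refine Finset.sum_lt_sum (fun q _ => ?_) ⟨p, hpm, ?_⟩
      · by_cases hq : q = p
        · subst hq; rw [Function.update_self]; omega
        · rw [Function.update_of_ne hq]
      · rw [Function.update_self]; omega
    · intro q hq
      by_cases hqp : q = p
      · subst hqp; rw [Function.update_self]; exact hL'
      · rw [Function.update_of_ne hqp]
        intro x hx
        obtain ⟨y, hy⟩ := hlev q hq (e.symm (0, x)) (by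
          rw [← map_nsmul, Prod.smul_mk, hx, smul_zero]; exact map_zero _)
        refine ⟨(e y).2, ?_⟩
        have := congrArg (fun z => (e z).2) hy
        simpa using this
    · have key : ∀ c b r', b + c = a + 1 → ¬ p ∣ r' →
          cn (p ^ b * r') G' < ℵ₀ ∨ Adm (cn (p ^ b * r') G') (cn (p ^ b * r') G') := by
        intro c
        induction c with
        | zero =>
          intro b r' hb hr'
          rw [add_zero] at hb
          rw [hb, hcn' _ (dvd_mul_right _ _)]
          refine hA _ (mul_pos (pow_pos hp.pos _) (Nat.pos_of_ne_zero ?_))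
          rintro rfl
          exact hr' (dvd_zero _)
        | succ c ihc =>
          intro b r' hb hr'
          have h1 := cn_lev hp hL' hr' (show b < a + 1 by omega)
          have h2 : cn (p ^ (b + 1) * r') G' ≤ cn (p ^ b * r') G' := by
            rw [show p ^ (b + 1) * r' = p ^ b * r' * p by ring]
            exact cn_mul_le _ _ _
          rcases ihc (b + 1) r' (by omega) hr' with h | h
          · exact Or.inl (h1.trans_lt (Cardinal.mul_lt_aleph0 h h))
          · right
            rw [Cardinal.mul_eq_self (Cardinal.aleph0_le_continuum.trans h.continuum_le)] at h1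
            rwa [le_antisymm h1 h2]
      intro n hn
      obtain ⟨b, r', hr', rfl⟩ := Nat.exists_eq_pow_mul_and_not_dvd hn.ne' p hp.ne_one
      rcases le_total b (a + 1) with hb | hb
      · exact key (a + 1 - b) b r' (by omega) hr'
      · rw [hcn' _ ((pow_dvd_pow p hb).trans (dvd_mul_right _ _))]
        exact hA _ hn
    · have hm' : cn m G' = cn m G := hcn' m ((dvd_mul_right _ _).trans hdvd)
      rcases hB with hB | ⟨P, e', he', hB⟩
      · exact Or.inl (hm' ▸ hB)
      · refine Or.inr ⟨P, fun s => (e (e' s)).2, fun f hf s => ?_, hm' ▸ hB⟩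
        have h1 := map_comb e' ((AddMonoidHom.snd _ _).comp e.toAddMonoidHom) f
        have h2 : (e (Finsupp.linearCombination ℤ e' f)).2 = 0 := h1.trans hf
        have h3 : Finsupp.linearCombination ℤ e' (p ^ (a + 1) • f) = 0 := by
          apply e.injective
          rw [map_nsmul, map_nsmul, map_zero]
          refine Prod.ext (hBF _) ?_
          rw [Prod.smul_snd, h2, smul_zero]
          rfl
        have h4 := he' _ h3 s
        simp only [Nat.cast_zero, zero_dvd_iff, Finsupp.smul_apply, nsmul_eq_mul,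
          mul_eq_zero] at h4 ⊢
        rcases h4 with h4 | h4
        · exact absurd (by exact_mod_cast h4) (pow_pos hp.pos (a + 1)).ne'
        · exact h4
  exact hGd.equiv _ _ e (hGd.prod _ _ hgood1 hgood2)

theorem Closed.of_pc {Gd : ∀ (H : Type u) [AddCommGroup H], Prop} (hGd : Closed Gd)
    {G : Type u} [AddCommGroup G] [TopologicalSpace G] [IsTopologicalAddGroup G] [T2Space G]
    (hG : ∀ f : G → ℝ, Continuous f → ∃ M : ℝ, ∀ x, |f x| ≤ M) : Gd G := by
  obtain ⟨m, hm, hB⟩ := condB (dual_sep hG) (dual_Rl hG)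
  exact main_ind' Gd hGd m hm _ G (fun _ => 0) rfl (fun _ _ x _ => ⟨x, by simp⟩)
    (condA (dual_sep hG) (dual_Rl hG)) hB

end Pool.Agent.H107Z.PC
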