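import Mathlib
import Pool.Agent.H107Z.PC6

/-! Strongly `q`-pseudocompact group topologies without non-trivial convergent sequences. -/

set_option autoImplicit false
set_option linter.style.haveILetI false

namespace Pool.Agent.H107Z.PC

open Cardinal Function Topology Filter MeasureTheory

universe u

/-- no sequence of nonzero elements tends to zero in the Bohr topology -/
theorem bohr {Q : Type u} [AddCommGroup Q] (h : ℕ → Q) (hh : ∀ k, h k ≠ 0) :
    ∃ χ : Q →+ T, ¬ Tendsto (fun k => χ (h k)) atTop (𝓝 0) := by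
  by_contra hcon
  push Not at hcon
  let L : AddSubgroup (Q → T) :=
    { carrier := {f | ∀ a b, f (a + b) = f a + f b}
      add_mem' := fun {f g} hf hg a b => by
        simp only [Pi.add_apply, hf a b, hg a b]; abel
      zero_mem' := fun a b => by simp
      neg_mem' := fun {f} hf a b => by simp only [Pi.neg_apply, hf a b]; abel }
  have hL : IsClosed (L : Set (Q → T)) := by
    have : (L : Set (Q → T)) = ⋂ a, ⋂ b, {f | f (a + b) = f a + f b} := by
      ext f; simp [L]
    rw [this]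
    exact isClosed_iInter fun a => isClosed_iInter fun b => isClosed_eq (by fun_prop) (by fun_prop)
  haveI : CompactSpace L := isCompact_iff_compactSpace.1 hL.isCompact
  letI : MeasurableSpace L := borel L
  haveI : BorelSpace L := ⟨rfl⟩
  let μ : Measure L := Measure.addHaar
  let F : ℕ → L → ℂ := fun k f => (AddCircle.toCircle (f.1 (h k)) : ℂ)
  have hcT : Continuous fun t : T => (AddCircle.toCircle t : ℂ) :=
    continuous_subtype_val.comp AddCircle.continuous_toCircle
  have hF : ∀ k, Continuous (F k) := fun k =>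
    hcT.comp ((continuous_apply (h k)).comp continuous_subtype_val)
  have h0 : ∀ k, ∫ f, F k f ∂μ = 0 := by
    intro k
    obtain ⟨s, -, hs⟩ := exists_char (⊥ : AddSubgroup Q) (h k) (by simpa using hh k)
    have h3 := integral_add_left_eq_self (μ := μ) (F k) (⟨s, s.map_add⟩ : L)
    simp only [F, AddSubgroup.coe_add, Pi.add_apply, AddCircle.toCircle_add, Circle.coe_mul] at h3
    rw [integral_const_mul] at h3
    have h4 : (AddCircle.toCircle (s (h k)) : ℂ) ≠ 1 := by
      rw [Ne, ← Circle.coe_one, Circle.coe_inj, ← AddCircle.toCircle_zero (T := 1),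
        (AddCircle.injective_toCircle one_ne_zero).eq_iff]
      exact hs
    have h5 : ((AddCircle.toCircle (s (h k)) : ℂ) - 1) * ∫ f, F k f ∂μ = 0 := by
      rw [sub_mul, h3, one_mul, sub_self]
    exact (mul_eq_zero.1 h5).resolve_left (sub_ne_zero.2 h4)
  have hlim := tendsto_integral_of_dominated_convergence (μ := μ) (F := F) (f := fun _ => 1)
    (fun _ => 1) (fun k => (hF k).aestronglyMeasurable) (integrable_const _)
    (fun k => Eventually.of_forall fun f => (Circle.norm_coe _).le)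
    (Eventually.of_forall fun f => by
      have h1 := hcon (AddMonoidHom.mk' f.1 f.2)
      have h3 := (hcT.tendsto 0).comp h1
      rw [AddCircle.toCircle_zero, Circle.coe_one] at h3
      exact h3)
  simp only [h0, integral_const, Complex.real_smul, mul_one] at hlim
  have h1 := tendsto_nhds_unique tendsto_const_nhds hlim
  have h3 : 0 < μ.real Set.univ := by
    rw [Measure.real, ENNReal.toReal_pos_iff]
    exact ⟨isOpen_univ.measure_pos μ Set.univ_nonempty, measure_lt_top _ _⟩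
  exact h3.ne (by exact_mod_cast h1)

theorem exists_small (q : Ultrafilter ℕ) (hq : ∀ n, q ≠ pure n) (m : ℕ → ℕ) :
    ∃ B : Set ℕ, B ∉ q ∧ ∃ᶠ k in atTop, m k ∈ B := by
  by_contra hcon
  push Not at hcon
  have h1 : Tendsto m atTop atTop := by
    rw [tendsto_atTop]
    intro b
    have h2 : Set.Iio b ∉ q := fun h => by
      obtain ⟨x, -, hx⟩ := Ultrafilter.eq_pure_of_finite_mem (Set.finite_Iio b) h
      exact hq x hx
    filter_upwards [hcon _ h2] with k hk
    simpa using hk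
  obtain ⟨φ, hφ, hmφ⟩ := strictMono_subseq_of_tendsto_atTop h1
  have h3 : ∀ i : ℕ, Set.range (fun j => m (φ (2 * j + i))) ∈ q := by
    intro i
    by_contra h
    have h4 := hcon _ h
    have h5 : Tendsto (fun j => φ (2 * j + i)) atTop atTop :=
      hφ.tendsto_atTop.comp (tendsto_atTop_mono (f := id) (fun j => by simp only [id]; omega)
        tendsto_id)
    obtain ⟨j, hj⟩ := (h5.eventually h4).exists
    exact hj ⟨j, rfl⟩
  obtain ⟨_, ⟨a, rfl⟩, b, hb⟩ := q.nonempty_of_mem (inter_mem (h3 0) (h3 1))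
  have := hmφ.injective hb
  omega

theorem Real'.branch {I Y : Type u} {v : Y → I → Bool} (hv : Real' v) [Infinite I] :
    ∃ w : Y → (ℕ → I) → Bool, Real' w := by
  classical
  obtain ⟨φ⟩ : Nonempty (List I ↪ I) := by
    change #(List I) ≤ #I
    rw [Cardinal.mk_list_eq_mk]
  let node : (ℕ → I) → ℕ → List I := fun x n => (List.range n).map x
  have hlen : ∀ x n, (node x n).length = n := fun x n => by simp [node]
  have hnode : ∀ x x' n, node x n = node x' n → ∀ i < n, x i = x' i := by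
    intro x x' n h i hi
    exact List.map_inj_left.1 h i (List.mem_range.2 hi)
  refine ⟨fun y x => decide (∀ᶠ n in atTop, v y (φ (node x n)) = true), fun J hJ f => ?_⟩
  obtain ⟨enc, henc⟩ := Set.countable_iff_exists_injOn.1 hJ
  let g : List I → Bool := fun s =>
    if h : {x | x ∈ J ∧ node x s.length = s}.Nonempty then f (Function.argminOn enc _ h) else false
  obtain ⟨y, hy⟩ := hv (φ '' (⋃ n, (fun x => node x n) '' J))
    ((Set.countable_iUnion fun n => hJ.image _).image _) (Function.extend φ g fun _ => false)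
  refine ⟨y, fun x hx => ?_⟩
  have h1 : ∀ᶠ n in atTop, v y (φ (node x n)) = f x := by
    have h2 : ∀ i : ℕ, ∀ᶠ n in atTop, ∀ x' ∈ J, enc x' = i → node x' n = node x n → x' = x := by
      intro i
      by_cases h : ∃ x' ∈ J, enc x' = i ∧ x' ≠ x
      · obtain ⟨x', hx', hi, hne⟩ := h
        obtain ⟨l, hl⟩ := Function.ne_iff.1 hne
        filter_upwards [eventually_gt_atTop l] with n hn x'' hx'' hi' hnn
        have : x'' = x' := henc hx'' hx' (hi'.trans hi.symm)
        subst this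
        exact absurd (hnode _ _ _ hnn l hn) hl
      · push Not at h
        exact Eventually.of_forall fun n x' hx' hi _ => h x' hx' hi
    have h3 := (eventually_all_finite (Set.finite_Iic (enc x))).2 fun i _ => h2 i
    filter_upwards [h3] with n hn
    rw [hy _ ⟨_, Set.mem_iUnion.2 ⟨n, x, hx, rfl⟩, rfl⟩, φ.injective.extend_apply]
    have hmem : x ∈ {x' | x' ∈ J ∧ node x' (node x n).length = node x n} := ⟨hx, by rw [hlen]⟩
    simp only [g]
    rw [dif_pos ⟨x, hmem⟩]
    congr 1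
    have h4 := Function.argminOn_mem enc _ ⟨x, hmem⟩
    refine hn _ (Function.argminOn_le enc _ hmem) _ h4.1 rfl ?_
    exact (congrArg (node _) (hlen x n).symm).trans h4.2
  cases hf : f x
  · simp only [decide_eq_false_iff_not]
    intro h
    obtain ⟨n, h2, h3⟩ := (h.and h1).exists
    rw [h2, hf] at h3
    exact Bool.noConfusion h3
  · simp only [decide_eq_true_eq]
    rwa [hf] at h1

theorem Adm.normal2 {ρ κ : Cardinal.{u}} (h : Adm ρ κ) :
    ∃ (I Y : Type u) (v : Y → I → Bool), 𝔠 ≤ #I ∧ #I ^ ℵ₀ ≤ #I ∧ Real' v ∧ #Y ≤ ρ ∧ κ ≤ 2 ^ #I ∧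
      #Y ≤ 2 ^ #I ∧ 𝔠 ≤ #Y := by
  obtain ⟨I, Y, v, hI, hv, hY, hκ⟩ := h
  obtain ⟨w, hw⟩ := hv.branch
  have hI0 : ℵ₀ ≤ #I := Cardinal.aleph0_le_mk I
  have h1 : #(ℕ → I) = #I ^ ℵ₀ := by simp
  have hw' : Real' (Subtype.val : Set.range w → (ℕ → I) → Bool) := by
    intro J hJ f
    obtain ⟨y, hy⟩ := hw J hJ f
    exact ⟨⟨_, y, rfl⟩, hy⟩
  refine ⟨ℕ → I, Set.range w, Subtype.val, ?_, ?_, hw', Cardinal.mk_range_le.trans hY, ?_, ?_,
    hw'.continuum_le⟩
  · rw [h1, ← Cardinal.aleph0_power_aleph0]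
    exact Cardinal.power_le_power_right hI0
  · rw [h1, ← Cardinal.power_mul, Cardinal.aleph0_mul_aleph0]
  · refine hκ.trans (Cardinal.power_le_power_left two_ne_zero ?_)
    rw [h1]
    exact Cardinal.self_le_power _ Cardinal.one_le_aleph0
  · exact (Cardinal.mk_set_le _).trans (by simp)

theorem Real'.up {I Y ι D : Type*} [Nonempty D] {v : Y → I → Bool} (hv : Real' v)
    (φ : ι × ℕ ↪ I) (enc : D ↪ (ℕ → Bool)) : ∃ w : Y → ι → D, Real' w := by
  classical
  refine ⟨fun y α => invFun enc fun k => v y (φ (α, k)), ?_⟩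
  intro J hJ f
  obtain ⟨y, hy⟩ := hv (φ '' (J ×ˢ Set.univ)) ((hJ.prod Set.countable_univ).image _)
    (Function.extend φ (fun p => enc (f p.1) p.2) (fun _ => false))
  refine ⟨y, fun α hα => ?_⟩
  have : (fun k => v y (φ (α, k))) = enc (f α) := by
    funext k
    rw [hy _ ⟨(α, k), ⟨hα, trivial⟩, rfl⟩, φ.injective.extend_apply]
  simp only [this]
  exact leftInverse_invFun enc.injective _

theorem hmp (I : Type u) (hc : 𝔠 ≤ #I) (hI : #I ^ ℵ₀ ≤ #I) (D : Type) [Nonempty D] (hD : #D ≤ 𝔠)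
    (R : Type u) (emb : R ↪ (I → Bool)) :
    ∃ (B : Type u) (w : B → R → D), #B ≤ #I ∧ Real' w := by
  classical
  have hI0 : ℵ₀ ≤ #I := Cardinal.aleph0_le_continuum.trans hc
  haveI : Infinite I := Cardinal.infinite_iff.2 hI0
  refine ⟨(ℕ → I) × (ℕ → (ℕ → Bool) × D), fun β r =>
    if h : ∃ n, (β.2 n).1 = fun k => emb r (β.1 k) then (β.2 h.choose).2 else Classical.arbitrary D,
    ?_, fun J hJ f => ?_⟩
  · have h1 : #(ℕ → (ℕ → Bool) × D) ≤ 𝔠 := by
      have h2 : #((ℕ → Bool) × D) ≤ 𝔠 := by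
        rw [Cardinal.mk_prod]
        simp only [Cardinal.lift_id, Cardinal.mk_pi, Cardinal.prod_const, Cardinal.mk_bool,
          Cardinal.mk_nat, Cardinal.two_power_aleph0]
        exact (mul_le_mul' le_rfl hD).trans (Cardinal.mul_eq_self Cardinal.aleph0_le_continuum).le
      rw [Cardinal.mk_arrow]
      simp only [Cardinal.lift_id, Cardinal.mk_nat]
      exact (Cardinal.power_le_power_right h2).trans Cardinal.continuum_power_aleph0.le
    rw [Cardinal.mk_prod, Cardinal.lift_uzero]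
    have h3 : #(ℕ → I) = #I ^ ℵ₀ := by simp
    have h4 : Cardinal.lift.{u} #(ℕ → (ℕ → Bool) × D) ≤ #I := by
      refine le_trans ?_ hc
      have := Cardinal.lift_le.{u}.2 h1
      rwa [Cardinal.lift_continuum] at this
    rw [h3]
    exact (mul_le_mul' hI h4).trans (Cardinal.mul_eq_self hI0).le
  · rcases J.eq_empty_or_nonempty with rfl | hne
    · exact ⟨Classical.arbitrary _, by simp⟩
    obtain ⟨e, rfl⟩ := hJ.exists_eq_range hne
    have hd : ∀ p : ℕ × ℕ, ∃ i, e p.1 ≠ e p.2 → emb (e p.1) i ≠ emb (e p.2) i := by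
      intro p
      by_cases h : e p.1 = e p.2
      · exact ⟨Classical.arbitrary I, fun h' => absurd h h'⟩
      · obtain ⟨i, hi⟩ := Function.ne_iff.1 (emb.injective.ne h)
        exact ⟨i, fun _ => hi⟩
    choose l hl using hd
    let a : ℕ → I := fun k => l (Nat.unpair k)
    refine ⟨(a, fun n => (fun k => emb (e n) (a k), f (e n))), ?_⟩
    rintro _ ⟨n, rfl⟩
    have h : ∃ m, (fun k => emb (e m) (a k)) = fun k => emb (e n) (a k) := ⟨n, rfl⟩
    simp only [h, dif_pos]
    congr 1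
    by_contra hne
    have h1 := congrFun h.choose_spec (Nat.pair h.choose n)
    simp only [a, Nat.unpair_pair] at h1
    exact hl (h.choose, n) hne h1

theorem exists_omega1 : ∃ (Γ : Type u) (_ : LinearOrder Γ), #Γ = ℵ₁ ∧
    ∀ S : Set Γ, S.Countable → ∃ δ, ∀ s ∈ S, s < δ := by
  obtain ⟨Γ, hΓ⟩ : ∃ Γ : Type u, #Γ = ℵ₁ := ⟨(ℵ₁ : Cardinal.{u}).out, Cardinal.mk_out _⟩
  obtain ⟨r, wo, hr⟩ := Cardinal.exists_ord_eq Γ
  classical
  letI : LinearOrder Γ := linearOrderOfSTO r
  refine ⟨Γ, inferInstance, hΓ, fun S hS => ?_⟩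
  by_contra hcon
  push Not at hcon
  have h1 : ∀ s : Γ, (Set.Iic s).Countable := by
    intro s
    rw [← Set.Iio_insert]
    refine Set.Countable.insert _ ?_
    have h2 : #(Set.Iio s) < #Γ := Cardinal.card_typein_lt (r := r) s hr
    rw [hΓ, ← Cardinal.succ_aleph0, Order.lt_succ_iff] at h2
    exact Cardinal.le_aleph0_iff_set_countable.1 h2
  have h2 : (Set.univ : Set Γ).Countable := by
    refine (hS.biUnion fun s _ => h1 s).mono fun δ _ => ?_
    obtain ⟨s, hs, h⟩ := hcon δ
    exact Set.mem_biUnion hs h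
  rw [Set.countable_univ_iff, ← Cardinal.mk_le_aleph0_iff, hΓ] at h2
  exact absurd Cardinal.aleph0_lt_aleph_one (not_lt.2 h2)

/-- the target property -/
def Good2 (q : Ultrafilter ℕ) (H : Type u) [AddCommGroup H] : Prop :=
  ∃ τ : TopologicalSpace H, @IsTopologicalAddGroup H τ _ ∧ @T2Space H τ ∧
    (∀ U : ℕ → Set H, (∀ n, IsOpen[τ] (U n)) → (∀ n, (U n).Nonempty) →
      ∃ x : ℕ → H, (∀ n, x n ∈ U n) ∧ ∃ y, Tendsto x q (@nhds H τ y)) ∧
    ∀ (x : ℕ → H) (y : H), Tendsto x atTop (@nhds H τ y) → ∀ᶠ n in atTop, x n = y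

theorem good2_of_embed (q : Ultrafilter ℕ) {H ι : Type u} [AddCommGroup H] (j : H →+ (ι → T))
    (hA : ∀ J : Set ι, J.Countable → ∀ h : ℕ → H, ∃ (x : ℕ → H) (y : H),
      (∀ n, ∀ α ∈ J, j (x n) α = j (h n) α) ∧ ∀ α, Tendsto (fun n => j (x n) α) q (𝓝 (j y α)))
    (hB : ∀ h : ℕ → H, (∀ k, h k ≠ 0) → ∃ α, ¬ Tendsto (fun k => j (h k) α) atTop (𝓝 0)) :
    Good2 q H := by
  letI τ : TopologicalSpace H := TopologicalSpace.induced j inferInstance
  have hj : Injective j := by
    rw [injective_iff_map_eq_zero]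
    intro h h0
    by_contra hne
    obtain ⟨α, hα⟩ := hB (fun _ => h) fun _ => hne
    apply hα
    simp [h0]
  have hemb : IsEmbedding j := ⟨⟨rfl⟩, hj⟩
  refine ⟨τ, hemb.isInducing.topologicalAddGroup j, hemb.t2Space, fun U hU hne => ?_,
    fun x y hx => ?_⟩
  · choose x hx using hne
    have h1 : ∀ n, ∃ F : Finset ι, ∀ z, (∀ α ∈ F, j z α = j (x n) α) → z ∈ U n := by
      intro n
      obtain ⟨V, hV, hVU⟩ := isOpen_induced_iff.1 (hU n)
      have hxV : j (x n) ∈ V := by
        have := hx n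
        rw [← hVU] at this
        exact this
      obtain ⟨F, u, hu, hFV⟩ := isOpen_pi_iff.1 hV _ hxV
      refine ⟨F, fun z hz => ?_⟩
      rw [← hVU]
      exact hFV fun α hα => by rw [hz α hα]; exact (hu α hα).2
    choose F hF using h1
    obtain ⟨z, y, hz, hy⟩ := hA (⋃ n, (F n : Set ι))
      (Set.countable_iUnion fun n => (F n).countable_toSet) x
    refine ⟨z, fun n => hF n _ fun α hα => hz n α (Set.mem_iUnion.2 ⟨n, hα⟩), y, ?_⟩
    rw [hemb.isInducing.tendsto_nhds_iff, tendsto_pi_nhds]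
    exact hy
  · by_contra hcon
    rw [Filter.not_eventually] at hcon
    obtain ⟨φ, hφ, h⟩ := extraction_of_frequently_atTop hcon
    obtain ⟨α, hα⟩ := hB (fun k => x (φ k) - y) fun k => sub_ne_zero.2 (h k)
    apply hα
    rw [hemb.isInducing.tendsto_nhds_iff, tendsto_pi_nhds] at hx
    have h1 := ((hx α).comp hφ.tendsto_atTop).sub_const (j y α)
    simpa [map_sub] using h1

theorem block2 (q : Ultrafilter ℕ) (hq : ∀ n, q ≠ pure n) (n : ℕ) (H : Type u) [AddCommGroup H]
    (hH : ∀ h : H, n • h = 0) (P : Type u) (e : P → H) (he : FreeFam n e) (hA : Adm #P #H) :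
    Good2 q H := by
  classical
  obtain ⟨I, Y, v, hcI, hI, hv, hYP, hH2, hY2, hcY⟩ := hA.normal2
  obtain ⟨Γ, _, hΓ, hbd⟩ := exists_omega1.{u}
  have hΓc : #Γ ≤ 𝔠 := by rw [hΓ]; exact Cardinal.aleph_one_le_continuum
  have hY0 : ℵ₀ ≤ #Y := Cardinal.aleph0_le_continuum.trans hcY
  have hI0 : ℵ₀ ≤ #I := Cardinal.aleph0_le_continuum.trans hcI
  have hΛ0 : ℵ₀ ≤ 2 ^ #I := hI0.trans (Cardinal.cantor _).le
  obtain ⟨θ, hθ⟩ := hasAll_W n
  have hθn : n • θ = 0 := by rw [← natCast_zsmul, (hθ n).2 dvd_rfl]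
  let D : Type := {a : Option ℕ → (W →+ T) // Tendsto (fun m => a (some m) θ) q (𝓝 0)}
  haveI : Nonempty D := ⟨⟨0, tendsto_const_nhds⟩⟩
  have hD : #D ≤ 𝔠 := by
    have h1 : #D ≤ #(Option ℕ × W → T) :=
      Cardinal.mk_le_of_injective (f := fun a p => a.1 p.1 p.2) fun a b h =>
        Subtype.ext (funext fun o => AddMonoidHom.ext fun w => congrFun h (o, w))
    rw [Cardinal.mk_arrow, card_T] at h1
    simp only [Cardinal.lift_id] at h1
    exact h1.trans ((Cardinal.power_le_power_left Cardinal.continuum_ne_zero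
      Cardinal.mk_le_aleph0).trans Cardinal.continuum_power_aleph0.le)
  obtain ⟨encD⟩ : Nonempty (D ↪ (ℕ → Bool)) := by
    change #D ≤ #(ℕ → Bool)
    simpa using hD
  have hΞ : #(Y × Γ) ≤ #Y := by
    rw [Cardinal.mk_prod, Cardinal.lift_id, Cardinal.lift_id]
    exact (mul_le_mul' le_rfl (hΓc.trans hcY)).trans (Cardinal.mul_eq_self hY0).le
  have hP0 : #((Y × Γ) × Option ℕ) ≤ #Y := by
    rw [Cardinal.mk_prod, Cardinal.lift_uzero]
    have : Cardinal.lift.{u} #(Option ℕ) ≤ ℵ₀ := by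
      rw [Cardinal.lift_le_aleph0]; exact Cardinal.mk_le_aleph0
    exact (mul_le_mul' hΞ (this.trans hY0)).trans (Cardinal.mul_eq_self hY0).le
  obtain ⟨i0⟩ : Nonempty ((Y × Γ) × Option ℕ ↪ P) := hP0.trans hYP
  let e0 : (Y × Γ) × Option ℕ → H := e ∘ i0
  have he0 : FreeFam n e0 := he.comp i0 i0.injective
  obtain ⟨k, hk⟩ := he0.lift (isDiv_W.finsupp ((Y × Γ) × Option ℕ))
    (fun p => Finsupp.single p θ) (by
      intro p
      rw [Finsupp.smul_single, hθn, Finsupp.single_zero])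
  let F0 : AddSubgroup H := (Finsupp.linearCombination ℤ e0).toAddMonoidHom.range
  obtain ⟨ψ, hψ⟩ := embed_finsupp (H ⧸ F0) isDiv_W hasAll_W
  let R := ((Y × Γ) × Option ℕ) ⊕ (H ⧸ F0)
  let d : H →+ (R →₀ W) := (Finsupp.sumFinsuppAddEquivProdFinsupp (M := W)).symm.toAddMonoidHom.comp
    (k.prod (ψ.comp (QuotientAddGroup.mk' F0)))
  have hd0 : ∀ h, d h = 0 → h = 0 := by
    intro h h0
    have h1 : (k h, ψ (QuotientAddGroup.mk' F0 h)) = 0 :=
      (Finsupp.sumFinsuppAddEquivProdFinsupp (M := W)).symm.map_eq_zero_iff.1 h0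
    rw [Prod.mk_eq_zero] at h1
    have h2 := (injective_iff_map_eq_zero ψ).1 hψ _ h1.2
    rw [QuotientAddGroup.mk'_apply, QuotientAddGroup.eq_zero_iff] at h2
    obtain ⟨f, hf⟩ := h2
    have hf' : Finsupp.linearCombination ℤ e0 f = h := hf
    rw [← hf'] at h1 ⊢
    refine comb_eq_zero e0 (fun p => hH _) f (freeFam_single hθ f ?_)
    have h3 := h1.1
    rw [map_comb] at h3
    simpa only [hk] using h3
  have hde : ∀ p, d (e0 p) = Finsupp.single (Sum.inl p) θ := by
    intro p
    have : QuotientAddGroup.mk' F0 (e0 p) = 0 := by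
      rw [QuotientAddGroup.mk'_apply, QuotientAddGroup.eq_zero_iff]
      exact ⟨Finsupp.single p 1, by simp⟩
    change (Finsupp.sumFinsuppAddEquivProdFinsupp (M := W)).symm
      (k (e0 p), ψ (QuotientAddGroup.mk' F0 (e0 p))) = _
    rw [this, map_zero, hk]
    ext1 r
    cases r with
    | inl a => simp [Finsupp.single_apply]
    | inr a => simp
  obtain ⟨emb⟩ : Nonempty ((Y × Γ) ⊕ (H ⧸ F0) ↪ (I → Bool)) := by
    change #((Y × Γ) ⊕ (H ⧸ F0)) ≤ #(I → Bool)
    have hΛ : #(I → Bool) = 2 ^ #I := by simp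
    rw [hΛ, Cardinal.mk_sum, Cardinal.lift_id, Cardinal.lift_id]
    exact (add_le_add (hΞ.trans hY2) (Cardinal.mk_quotient_le.trans hH2)).trans
      (Cardinal.add_eq_self hΛ0).le
  obtain ⟨B, w, hB, hw⟩ := hmp I hcI hI D hD _ emb
  obtain ⟨φ⟩ : Nonempty ((B × Γ) × ℕ ↪ I) := by
    change #((B × Γ) × ℕ) ≤ #I
    simp only [Cardinal.mk_prod, Cardinal.lift_uzero, Cardinal.lift_id, Cardinal.mk_nat,
      Cardinal.lift_aleph0]
    calc #B * #Γ * ℵ₀ ≤ #I * #I * #I := mul_le_mul' (mul_le_mul' hB (hΓc.trans hcI)) hI0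
      _ = #I := by rw [Cardinal.mul_eq_self hI0, Cardinal.mul_eq_self hI0]
  obtain ⟨v', hv'⟩ := hv.up φ encD
  let a : B × Γ → Y × Γ → D := fun α ξ => if α.2 < ξ.2 then v' ξ.1 α else w α.1 (Sum.inl ξ)
  let c : B × Γ → R → (W →+ T) := fun α =>
    Sum.elim (fun p => (a α p.1).1 p.2) fun r => (w α.1 (Sum.inr r)).1 none
  let j : H →+ (B × Γ → T) := AddMonoidHom.pi fun α => (Finsupp.liftAddHom (c α)).comp d
  have hj : ∀ h α, j h α = Finsupp.liftAddHom (c α) (d h) := fun h α => rfl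
  have hje : ∀ ξ o α, j (e0 (ξ, o)) α = (a α ξ).1 o θ := by
    intro ξ o α
    rw [hj, hde, Finsupp.liftAddHom_apply_single]
    rfl
  refine good2_of_embed q j (fun J hJ h => ?_) fun h hh => ?_
  · have hjn : ∀ x α, n • j x α = 0 := fun x α => by
      rw [← Pi.smul_apply, ← map_nsmul, hH, map_zero, Pi.zero_apply]
    have hex : ∀ t : T, n • t = 0 → ∃ s : W →+ T, s θ = t := by
      intro t ht
      obtain ⟨s, hs⟩ := ext_hom isDiv_T (zmultiplesHom W θ) (zmultiplesHom T t) (by
        intro m hm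
        rw [zmultiplesHom_apply] at hm ⊢
        obtain ⟨m', rfl⟩ := (hθ m).1 hm
        rw [mul_comm, mul_smul, natCast_zsmul, ht, smul_zero])
      exact ⟨s, by simpa using hs 1⟩
    have hpat : ∀ α, ∃ b : D, ∀ m, b.1 (some m) θ + b.1 none θ = j (h m) α := by
      intro α
      obtain ⟨l, -, hl⟩ := isCompact_univ.ultrafilter_le_nhds (q.map fun m => j (h m) α) (by simp)
      have hl' : Tendsto (fun m => j (h m) α) q (𝓝 l) := hl
      have hln : n • l = 0 := by
        have h1 := hl'.const_smul n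
        simp only [hjn] at h1
        exact tendsto_nhds_unique h1 tendsto_const_nhds
      obtain ⟨s0, hs0⟩ := hex l hln
      choose s hs using fun m => hex (j (h m) α - l) (by rw [smul_sub, hjn, hln, sub_self])
      refine ⟨⟨fun o => o.elim s0 s, ?_⟩, fun m => ?_⟩
      · simp only [Option.elim_some, hs]
        simpa using hl'.sub_const l
      · simp only [Option.elim_some, Option.elim_none, hs, hs0, sub_add_cancel]
    choose b hb using hpat
    obtain ⟨γ, hγ⟩ := hbd (Prod.snd '' J) (hJ.image _)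
    obtain ⟨y, hy⟩ := hv' J hJ b
    refine ⟨fun m => e0 ((y, γ), some m) + e0 ((y, γ), none), e0 ((y, γ), none),
      fun m α hα => ?_, fun α => ?_⟩
    · rw [map_add, Pi.add_apply, hje, hje]
      have : a α (y, γ) = b α := by
        simp only [a, if_pos (hγ _ ⟨α, hα, rfl⟩)]
        exact hy α hα
      rw [this, hb]
    · simp only [map_add, Pi.add_apply, hje]
      simpa using (a α (y, γ)).2.add_const ((a α (y, γ)).1 none θ)
  · have h1 : ∀ k, ∃ r, d (h k) r ≠ 0 := fun k =>
      Finsupp.ne_iff.1 fun h0 => hh k (hd0 _ h0)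
    choose r hr using h1
    let idx : R → ℕ := Sum.elim (fun p => p.2.elim 0 id) fun _ => 0
    obtain ⟨Bs, hBs, hfr⟩ := exists_small q hq fun k => idx (r k)
    obtain ⟨σ, hσ, hσ2⟩ := extraction_of_frequently_atTop hfr
    let π : (R →₀ W) →+ (R →₀ W) := Finsupp.filterAddHom fun r => idx r ∈ Bs
    have hπ : ∀ z, π z = z.filter fun r => idx r ∈ Bs := fun z => rfl
    obtain ⟨χ, hχ⟩ := bohr (fun k => π (d (h (σ k)))) fun k h0 => by
      have := DFunLike.congr_fun h0 (r (σ k))
      rw [hπ, Finsupp.filter_apply_pos (fun r => idx r ∈ Bs) _ (hσ2 k)] at this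
      exact hr _ this
    let c0 : R → (W →+ T) := fun r => (χ.comp π).comp (Finsupp.singleAddHom r)
    have hc0 : Finsupp.liftAddHom c0 = χ.comp π :=
      Finsupp.liftAddHom.apply_symm_apply (χ.comp π)
    let f : (Y × Γ) ⊕ (H ⧸ F0) → D := Sum.elim
      (fun ξ => ⟨fun o => c0 (Sum.inl (ξ, o)), by
        refine tendsto_const_nhds.congr' ?_
        filter_upwards [Ultrafilter.compl_mem_iff_notMem.2 hBs] with m hm
        simp only [c0, AddMonoidHom.comp_apply, Finsupp.singleAddHom_apply, hπ]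
        rw [Finsupp.filter_single_of_neg, map_zero]
        exact hm⟩)
      fun r => ⟨fun o => o.elim (c0 (Sum.inr r)) fun _ => 0, tendsto_const_nhds⟩
    let S : Set R := ⋃ k, ((d (h k)).support : Set R)
    have hS : S.Countable := Set.countable_iUnion fun k => Finset.countable_toSet _
    obtain ⟨β, hβ⟩ := hw (Sum.map Prod.fst id '' S) (hS.image _) f
    obtain ⟨δ, hδ⟩ := hbd ((fun p : (Y × Γ) × Option ℕ => p.1.2) '' (Sum.inl ⁻¹' S))
      ((hS.preimage Sum.inl_injective).image _)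
    have hcc : ∀ r ∈ S, c (β, δ) r = c0 r := by
      intro r hr
      have h2 := hβ _ ⟨r, hr, rfl⟩
      cases r with
      | inl p =>
        have h3 : ¬ δ < p.1.2 := not_lt.2 (hδ _ ⟨p, hr, rfl⟩).le
        simp only [c, a, Sum.elim_inl, if_neg h3]
        simp only [Sum.map_inl] at h2
        rw [h2]
        rfl
      | inr p =>
        simp only [c, Sum.elim_inr]
        simp only [Sum.map_inr, id] at h2
        rw [h2]
        rfl
    refine ⟨(β, δ), fun ht => hχ ?_⟩
    have h3 : ∀ k, j (h k) (β, δ) = χ (π (d (h k))) := by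
      intro k
      rw [hj, ← AddMonoidHom.comp_apply χ π, ← hc0, Finsupp.liftAddHom_apply,
        Finsupp.liftAddHom_apply]
      refine Finsupp.sum_congr fun r hr => ?_
      rw [hcc r (Set.mem_iUnion.2 ⟨k, hr⟩)]
    simp only [h3] at ht
    exact ht.comp hσ.tendsto_atTop

theorem closed_good2 (q : Ultrafilter ℕ) (hq : ∀ n, q ≠ pure n) : Closed.{u} (Good2 q) where
  prod A B _ _ hA hB := by
    obtain ⟨τA, hA1, hA2, hA3, hA4⟩ := hA
    obtain ⟨τB, hB1, hB2, hB3, hB4⟩ := hB
    refine ⟨inferInstance, inferInstance, inferInstance, fun U hU hne => ?_, fun x y h => ?_⟩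
    · choose x hx using hne
      choose u v hu hv hxu hxv huv using fun n => isOpen_prod_iff.1 (hU n) (x n).1 (x n).2 (hx n)
      obtain ⟨a, ha, a', ha'⟩ := hA3 u hu fun n => ⟨_, hxu n⟩
      obtain ⟨b, hb, b', hb'⟩ := hB3 v hv fun n => ⟨_, hxv n⟩
      exact ⟨fun n => (a n, b n), fun n => huv n ⟨ha n, hb n⟩, (a', b'), ha'.prodMk_nhds hb'⟩
    · filter_upwards [hA4 _ _ ((continuous_fst.tendsto y).comp h),
        hB4 _ _ ((continuous_snd.tendsto y).comp h)] with n h1 h2
      exact Prod.ext h1 h2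
  equiv A B _ _ e hB := by
    obtain ⟨τB, hB1, hB2, hB3, hB4⟩ := hB
    letI τ : TopologicalSpace A := TopologicalSpace.induced e τB
    have hind : IsInducing e := ⟨rfl⟩
    let h : A ≃ₜ B := e.toEquiv.toHomeomorphOfIsInducing hind
    refine ⟨τ, hind.topologicalAddGroup e, h.isEmbedding.t2Space, fun U hU hne => ?_,
      fun x y hx => ?_⟩
    · obtain ⟨x, hx, y, hy⟩ := hB3 (fun n => h '' U n) (fun n => h.isOpenMap _ (hU n))
        (fun n => (hne n).image _)
      refine ⟨fun n => h.symm (x n), fun n => ?_, h.symm y, (h.symm.continuous.tendsto y).comp hy⟩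
      obtain ⟨a, ha, h1⟩ := hx n
      change h.symm (x n) ∈ U n
      rw [← h1, h.symm_apply_apply]
      exact ha
    · filter_upwards [hB4 _ _ ((h.continuous.tendsto y).comp hx)] with n h1
      exact h.injective h1
  finite A _ _ := by
    letI : TopologicalSpace A := ⊥
    haveI : DiscreteTopology A := ⟨rfl⟩
    refine ⟨⊥, inferInstance, inferInstance, fun U _ hne => ?_, fun x y hx => ?_⟩
    · choose x hx using hne
      obtain ⟨l, -, hl⟩ := isCompact_univ.ultrafilter_le_nhds (q.map x) (by simp)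
      exact ⟨x, hx, l, hl⟩
    · rwa [nhds_discrete, tendsto_pure] at hx
  block := block2 q hq

end Pool.Agent.H107Z.PC
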