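import Pool.Agent.H107Z.PateIneq

set_option autoImplicit false
set_option linter.unusedSectionVars false
set_option linter.unusedSimpArgs false

/-! Gram factorisation adapted to the first two vectors, and Pate's inequality. -/

namespace Pool.Agent.H107Z

open MvPolynomial Finset
open scoped ComplexConjugate ComplexOrder InnerProductSpace MatrixOrder

lemma sum_diff_orth {E : Type*} [NormedAddCommGroup E] [InnerProductSpace ℂ E] (u0 u1 : E)
    (hn : ‖u0‖ = ‖u1‖) (r : ℝ) (hr : 0 ≤ r) (h : ⟪u0, u1⟫_ℂ = r) :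
    ⟪u0 + u1, u0 - u1⟫_ℂ = 0 ∧ ‖u0 - u1‖ ≤ ‖u0 + u1‖ := by
  have h' : ⟪u1, u0⟫_ℂ = r := by
    rw [← inner_conj_symm, h]; simp
  constructor
  · rw [inner_add_left, inner_sub_right, inner_sub_right, h, h', inner_self_eq_norm_sq_to_K,
      inner_self_eq_norm_sq_to_K, hn]
    ring
  · have e1 := norm_add_sq (𝕜 := ℂ) u0 u1
    have e2 := norm_sub_sq (𝕜 := ℂ) u0 u1
    rw [h] at e1 e2
    simp only [RCLike.re_to_complex, Complex.ofReal_re] at e1 e2
    have : ‖u0 - u1‖ ^ 2 ≤ ‖u0 + u1‖ ^ 2 := by rw [e1, e2]; linarith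
    exact (pow_le_pow_iff_left₀ (norm_nonneg _) (norm_nonneg _) two_ne_zero).1 this

lemma exists_orth_pair {E : Type*} [NormedAddCommGroup E] [InnerProductSpace ℂ E] (v0 v1 : E) :
    ∃ (w0 w1 : E) (s t : ℂ), ⟪w0, w1⟫_ℂ = 0 ∧ ‖w1‖ ≤ ‖w0‖ ∧ v0 = s • (w0 + w1) ∧
      v1 = t • (w0 - w1) := by
  by_cases h0 : v0 = 0
  · exact ⟨v1, 0, 0, 1, by simp, by simp, by simp [h0], by simp⟩
  by_cases h1 : v1 = 0
  · exact ⟨v0, 0, 1, 0, by simp, by simp, by simp, by simp [h1]⟩
  obtain ⟨φ, hφ, hg⟩ := RCLike.exists_norm_eq_mul_self (⟪v0, v1⟫_ℂ)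
  have n0 : (‖v0‖ : ℂ) ≠ 0 := by exact_mod_cast norm_ne_zero_iff.2 h0
  have n1 : (‖v1‖ : ℂ) ≠ 0 := by exact_mod_cast norm_ne_zero_iff.2 h1
  have hφ0 : φ ≠ 0 := by intro h; rw [h] at hφ; simp at hφ
  have := sum_diff_orth ((‖v1‖ : ℂ) • v0) ((φ * ‖v0‖ : ℂ) • v1)
    (by simp [norm_smul, hφ, mul_comm]) (‖v1‖ * ‖v0‖ * ‖⟪v0, v1⟫_ℂ‖) (by positivity)
    (by
      rw [inner_smul_left, inner_smul_right]
      push_cast
      have hg' : ((‖⟪v0, v1⟫_ℂ‖ : ℝ) : ℂ) = φ * ⟪v0, v1⟫_ℂ := hg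
      rw [hg']
      simp only [Complex.conj_ofReal]
      ring)
  refine ⟨_, _, 1 / (2 * ‖v1‖), 1 / (2 * (φ * ‖v0‖)), this.1, this.2, ?_, ?_⟩
  · rw [add_add_sub_cancel, ← two_smul ℂ, smul_smul, smul_smul]
    have : 1 / (2 * (‖v1‖ : ℂ)) * 2 * ‖v1‖ = 1 := by field_simp
    rw [this, one_smul]
  · rw [add_sub_sub_cancel, ← two_smul ℂ, smul_smul, smul_smul]
    have : 1 / (2 * (φ * (‖v0‖ : ℂ))) * 2 * (φ * ‖v0‖) = 1 := by field_simp
    rw [this, one_smul]

lemma exists_gram {n : ℕ} (A : Matrix (Fin (n+2)) (Fin (n+2)) ℂ) (hA : A.PosSemidef) :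
    ∃ (u : Fin (n+2) → Fin (n+2) → ℂ) (s t α β : ℂ), ‖β‖ ≤ ‖α‖ ∧
      (A = Matrix.of fun i j => ∑ k, conj (u i k) * u j k) ∧
      u 0 = s • (Pi.single 0 α + Pi.single 1 β) ∧ u 1 = t • (Pi.single 0 α - Pi.single 1 β) := by
  obtain ⟨B, hB⟩ := CStarAlgebra.nonneg_iff_eq_star_mul_self.mp hA.nonneg
  let v : Fin (n+2) → EuclideanSpace ℂ (Fin (n+2)) := fun j => WithLp.toLp 2 (fun k => B k j)
  have hv : ∀ i j, A i j = ⟪v i, v j⟫_ℂ := by
    intro i j
    rw [hB]
    simp [v, Matrix.mul_apply, PiLp.inner_apply, Matrix.star_apply, mul_comm]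
  obtain ⟨w0, w1, s, t, horth, hle, e0, e1⟩ := exists_orth_pair (v 0) (v 1)
  let f : Fin (n+2) → EuclideanSpace ℂ (Fin (n+2)) := Fin.cons w0 (Fin.cons w1 (fun _ => 0))
  have hdim : Module.finrank ℂ (EuclideanSpace ℂ (Fin (n+2))) = Fintype.card (Fin (n+2)) := by
    simp
  let e := InnerProductSpace.gramSchmidtOrthonormalBasis hdim f
  have tri : ∀ i j : Fin (n+2), i < j → e.repr (f i) j = 0 := fun i j h =>
    InnerProductSpace.gramSchmidtOrthonormalBasis_inv_triangular' hdim f h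
  set α := e.repr w0 0 with hα
  set β := e.repr w1 1 with hβ
  have r0 : (fun k => e.repr w0 k) = Pi.single 0 α := by
    funext k
    by_cases hk : k = 0
    · subst hk; simp [hα]
    · rw [Pi.single_eq_of_ne hk]
      exact tri 0 k (Fin.pos_iff_ne_zero.2 hk)
  have nα : ‖α‖ = ‖w0‖ := by
    rw [← e.repr.norm_map w0]
    have : e.repr w0 = EuclideanSpace.single 0 α := by
      ext k; have := congrFun r0 k; simpa [Pi.single_apply] using this
    rw [this]; simp
  have hx : e.repr w1 0 = 0 := by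
    have h1 : ⟪e.repr w0, e.repr w1⟫_ℂ = 0 := by rw [e.repr.inner_map_map, horth]
    have h2 : e.repr w0 = EuclideanSpace.single 0 α := by
      ext k; have := congrFun r0 k; simpa [Pi.single_apply] using this
    rw [h2, EuclideanSpace.inner_single_left] at h1
    rcases mul_eq_zero.1 h1 with h | h
    · have hα0 : α = 0 := by simpa using h
      have : ‖w1‖ ≤ 0 := by rw [← nα, hα0] at hle; simpa using hle
      have : w1 = 0 := norm_le_zero_iff.1 this
      rw [this]; simp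
    · exact h
  have r1 : (fun k => e.repr w1 k) = Pi.single 1 β := by
    funext k
    by_cases hk : k = 1
    · subst hk; simp [hβ]
    · rw [Pi.single_eq_of_ne hk]
      by_cases hk0 : k = 0
      · subst hk0; exact hx
      · refine tri 1 k ?_
        rw [Fin.lt_def]
        have a1 : (k : ℕ) ≠ 0 := fun h => hk0 (Fin.ext h)
        have a2 : (k : ℕ) ≠ 1 := fun h => hk (Fin.ext h)
        show 1 < (k : ℕ)
        omega
  have nβ : ‖β‖ = ‖w1‖ := by
    rw [← e.repr.norm_map w1]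
    have : e.repr w1 = EuclideanSpace.single 1 β := by
      ext k; have := congrFun r1 k; simpa [Pi.single_apply] using this
    rw [this]; simp
  refine ⟨fun j k => e.repr (v j) k, s, t, α, β, by rw [nα, nβ]; exact hle, ?_, ?_, ?_⟩
  · ext i j
    rw [hv, ← e.repr.inner_map_map, PiLp.inner_apply]
    simp [mul_comm]
  · rw [← r0, ← r1]
    funext k
    simp only [e0, map_smul, map_add]
    simp [mul_add]
  · rw [← r0, ← r1]
    funext k
    simp only [e1, map_smul, map_sub]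
    simp

lemma lin_smul_add {σ : Type} [Fintype σ] [DecidableEq σ] (x y : σ) (s α β : ℂ) :
    lin (s • (Pi.single x α + Pi.single y β) : σ → ℂ) = C (s * α) * X x + C (s * β) * X y := by
  unfold lin
  simp only [Pi.smul_apply, Pi.add_apply, smul_eq_mul, mul_add, map_add, add_mul,
    Finset.sum_add_distrib, Pi.single_apply]
  congr 1
  · rw [Finset.sum_eq_single x] <;> simp +contextual
  · rw [Finset.sum_eq_single y] <;> simp +contextual

theorem pate (n : ℕ) (A : Matrix (Fin (n+2)) (Fin (n+2)) ℂ) (hA : A.PosSemidef) :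
      (A 0 0 * (A.submatrix (Fin.succAbove (0 : Fin (n+2))) (Fin.succAbove (0 : Fin (n+2)))).permanent
        - A 0 1 * (A.submatrix (Fin.succAbove (0 : Fin (n+2))) (Fin.succAbove (1 : Fin (n+2)))).permanent
        - A 1 0 * (A.submatrix (Fin.succAbove (1 : Fin (n+2))) (Fin.succAbove (0 : Fin (n+2)))).permanent
        + A 1 1 * (A.submatrix (Fin.succAbove (1 : Fin (n+2))) (Fin.succAbove (1 : Fin (n+2)))).permanent).re
      ≤ 2 * (A.permanent).re := by
  obtain ⟨u, s, t, α, β, hle, hAu, h0, h1⟩ := exists_gram A hA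
  set Q : MvPolynomial (Fin (n+2)) ℂ := ∏ r : Fin n, lin (u r.succ.succ) with hQ
  have l0 : lin (u 0) = C (s * α) * X 0 + C (s * β) * X 1 := by rw [h0, lin_smul_add]
  have l1 : lin (u 1) = C (t * α) * X 0 + C (t * (-β)) * X 1 := by
    rw [h1, ← lin_smul_add, sub_eq_add_neg, Pi.single_neg]
  have hsub : ∀ i j : Fin (n+2), (A.submatrix i.succAbove j.succAbove).permanent
      = fock (∏ r, lin (u (i.succAbove r))) (∏ r, lin (u (j.succAbove r))) := by
    intro i j
    rw [fock_prod, hAu]; rfl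
  have p0 : ∏ r, lin (u ((0 : Fin (n+2)).succAbove r)) = lin (u 1) * Q := by
    rw [Fin.prod_univ_succ]; rfl
  have p1 : ∏ r, lin (u ((1 : Fin (n+2)).succAbove r)) = lin (u 0) * Q := by
    rw [Fin.prod_univ_succ]; simp [hQ]
  have hper : A.permanent = fock (lin (u 0) * (lin (u 1) * Q)) (lin (u 0) * (lin (u 1) * Q)) := by
    have : lin (u 0) * (lin (u 1) * Q) = ∏ r, lin (u r) := by
      rw [Fin.prod_univ_succ, Fin.prod_univ_succ]; rfl
    rw [this, fock_prod, hAu]
  have h01 : (0 : Fin (n+2)) ≠ 1 := Fin.zero_ne_one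
  have ent : ∀ (a b c d : ℂ), ∑ k : Fin (n+2), conj ((Pi.single 0 a + Pi.single 1 b : Fin (n+2) → ℂ) k)
      * (Pi.single 0 c + Pi.single 1 d : Fin (n+2) → ℂ) k = conj a * c + conj b * d := by
    intro a b c d
    rw [Fin.sum_univ_succ, Fin.sum_univ_succ]
    have hne : ∀ x : Fin n, x.succ.succ ≠ (1 : Fin (n+2)) := fun x h => by
      have := congrArg Fin.val h
      simp at this
    simp [Pi.single_apply, hne]
  have u0 : u 0 = Pi.single 0 (s * α) + Pi.single 1 (s * β) := by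
    rw [h0, smul_add, ← Pi.single_smul, ← Pi.single_smul]; rfl
  have u1 : u 1 = Pi.single 0 (t * α) + Pi.single 1 (t * (-β)) := by
    rw [h1, sub_eq_add_neg, ← Pi.single_neg, smul_add, ← Pi.single_smul, ← Pi.single_smul]; rfl
  have a00 : A 0 0 = conj (s * α) * (s * α) + conj (s * β) * (s * β) := by
    rw [hAu, Matrix.of_apply, u0, ent]
  have a01 : A 0 1 = conj (s * α) * (t * α) + conj (s * β) * (t * (-β)) := by
    rw [hAu, Matrix.of_apply, u0, u1, ent]
  have a10 : A 1 0 = conj (t * α) * (s * α) + conj (t * (-β)) * (s * β) := by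
    rw [hAu, Matrix.of_apply, u0, u1, ent]
  have a11 : A 1 1 = conj (t * α) * (t * α) + conj (t * (-β)) * (t * (-β)) := by
    rw [hAu, Matrix.of_apply, u1, ent]
  have eP : lin (u 0) * (lin (u 1) * Q)
      = C (s * t) * (C (α ^ 2) * (X 0 * (X 0 * Q)) - C (β ^ 2) * (X 1 * (X 1 * Q))) := by
    rw [l0, l1]; simp only [map_mul, map_neg, map_pow]; ring
  have m0 : lin (u 0) * Q = C (s * α) * (X 0 * Q) + C (s * β) * (X 1 * Q) := by rw [l0]; ring
  have m1 : lin (u 1) * Q = C (t * α) * (X 0 * Q) + C (t * (-β)) * (X 1 * Q) := by rw [l1]; ring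
  have lhs : A 0 0 * (A.submatrix (Fin.succAbove (0 : Fin (n+2))) (Fin.succAbove (0 : Fin (n+2)))).permanent
        - A 0 1 * (A.submatrix (Fin.succAbove (0 : Fin (n+2))) (Fin.succAbove (1 : Fin (n+2)))).permanent
        - A 1 0 * (A.submatrix (Fin.succAbove (1 : Fin (n+2))) (Fin.succAbove (0 : Fin (n+2)))).permanent
        + A 1 1 * (A.submatrix (Fin.succAbove (1 : Fin (n+2))) (Fin.succAbove (1 : Fin (n+2)))).permanent
      = 4 * (conj (s * t) * (s * t)) * (conj (α * β) * (α * β))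
        * (fock (X 0 * Q) (X 0 * Q) + fock (X 1 * Q) (X 1 * Q)) := by
    rw [hsub, hsub, hsub, hsub, p0, p1, m0, m1, a00, a01, a10, a11]
    simp only [fock_add_left, fock_add_right, fock_C_mul_left, fock_C_mul_right]
    simp only [map_mul, map_neg]
    ring
  rw [lhs, hper, eP, fock_C_mul_left, fock_C_mul_right, ← mul_assoc (conj (s * t)) (s * t),
    Complex.conj_mul', Complex.conj_mul', fock_self, fock_self, fock_self]
  have key := two_var (0 : Fin (n+2)) 1 h01 (α ^ 2) (β ^ 2)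
    (by rw [norm_pow, norm_pow]; exact pow_le_pow_left₀ (norm_nonneg _) hle 2) Q
  have := mul_le_mul_of_nonneg_left key (sq_nonneg ‖s * t‖)
  rw [norm_pow, norm_pow] at this
  rw [norm_mul α β]
  generalize nrm (fun m => (wt m : ℝ)) (X 0 * Q) = N0 at this ⊢
  generalize nrm (fun m => (wt m : ℝ)) (X 1 * Q) = N1 at this ⊢
  generalize nrm (fun m => (wt m : ℝ))
    (C (α ^ 2) * (X 0 * (X 0 * Q)) - C (β ^ 2) * (X 1 * (X 1 * Q))) = N2 at this ⊢
  generalize ‖s * t‖ = c at this ⊢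
  norm_cast
  nlinarith

end Pool.Agent.H107Z
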