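import Pool.Agent.H107Z.Fock

set_option autoImplicit false
set_option linter.unusedSectionVars false
set_option linter.unusedSimpArgs false

/-! The two-variable inequality behind Pate's permanental inequality. -/

namespace Pool.Agent.H107Z

open MvPolynomial Finset
open scoped ComplexConjugate

/-- the exceptional exponent pairs -/
def bad (a b : ℝ) (i j : ℕ) : Prop := a * (i + 1) < b * (j + 1) ∧ b * (j + 2) < a * (i + 2)

open Classical in
noncomputable def Uh (a b : ℝ) (i j : ℕ) : ℝ :=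
  a * b * (i + 1) * j - if bad a b i j then a ^ 2 / 4 else 0

open Classical in
noncomputable def Vh (a b : ℝ) (i j : ℕ) : ℝ :=
  a * b * (j + 1) * i + if 2 ≤ i ∧ bad a b (i - 2) (j + 2) then 2 * a ^ 2 else 0

lemma bad_bound {a b : ℝ} (hb : 0 ≤ b) (hab : b ≤ a) {i j : ℕ} (h : bad a b i j) :
    a ≤ 2 * (b * (i + 1) * j) := by
  obtain ⟨h1, _⟩ := h
  have hi : (0:ℝ) ≤ i := Nat.cast_nonneg i
  rcases Nat.eq_zero_or_pos j with rfl | hj
  · exfalso; simp at h1; nlinarith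
  · have hj' : (1:ℝ) ≤ j := by exact_mod_cast hj
    have h3 : a ≤ a * (i + 1) := by nlinarith
    have h4 : b * (j + 1) ≤ 2 * (b * j) := by nlinarith
    have h5 : b * j ≤ b * (i + 1) * j := by
      have : 0 ≤ b * j * i := by positivity
      nlinarith
    linarith

lemma Uh_nonneg {a b : ℝ} (hb : 0 ≤ b) (hab : b ≤ a) (i j : ℕ) : 0 ≤ Uh a b i j := by
  have ha : 0 ≤ a := hb.trans hab
  unfold Uh
  split_ifs with h
  · have := bad_bound hb hab h
    nlinarith
  · have : 0 ≤ a * b * (i + 1) * j := by positivity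
    linarith

lemma Vh_nonneg {a b : ℝ} (hb : 0 ≤ b) (hab : b ≤ a) (i j : ℕ) : 0 ≤ Vh a b i j := by
  have ha : 0 ≤ a := hb.trans hab
  unfold Vh
  split_ifs with h <;> positivity

lemma cross {a b : ℝ} (hb : 0 ≤ b) (hab : b ≤ a) (i j : ℕ) :
    (a * b) ^ 2 * (((i:ℝ) + 1) * (i + 2) * ((j + 1) * (j + 2)))
      ≤ Uh a b i (j + 2) * Vh a b (i + 2) j := by
  have ha : 0 ≤ a := hb.trans hab
  have hi : (0:ℝ) ≤ i := Nat.cast_nonneg i
  have hj : (0:ℝ) ≤ j := Nat.cast_nonneg j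
  unfold Uh Vh
  by_cases h : bad a b i (j + 2)
  · have hb2 := bad_bound hb hab h
    rw [if_pos h, if_pos (show 2 ≤ i + 2 ∧ bad a b (i + 2 - 2) (j + 2) from ⟨by omega, h⟩)]
    push_cast at hb2 ⊢
    set u := a * b * (i + 1) * (j + 2) with hu
    set v := a * b * (j + 1) * (i + 2) with hv
    have e : (a * b) ^ 2 * (((i:ℝ) + 1) * (i + 2) * ((j + 1) * (j + 2))) = u * v := by
      rw [hu, hv]; ring
    rw [e]
    have hab0 : 0 ≤ a * b := by positivity
    have h1 : v ≤ 2 * u := by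
      rw [hu, hv]
      have : (j + 1) * (i + 2) ≤ 2 * (((i:ℝ) + 1) * (j + 2)) := by nlinarith
      nlinarith
    have h2 : a ^ 2 ≤ 2 * u := by
      rw [hu]; nlinarith
    have h3 : 0 ≤ a ^ 2 := by positivity
    nlinarith
  · rw [if_neg h, if_neg (fun h' : 2 ≤ i + 2 ∧ bad a b (i + 2 - 2) (j + 2) => h h'.2)]
    push_cast
    apply le_of_eq; ring

lemma final_scalar {a b : ℝ} (hb : 0 ≤ b) (hab : b ≤ a) (i j : ℕ) :
    2 * (a * b) * (((i:ℝ) + 1) + (j + 1)) ≤
      (a ^ 2 * ((i + 1) * (i + 2)) - Uh a b i j) + (b ^ 2 * ((j + 1) * (j + 2)) - Vh a b i j) := by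
  have ha : 0 ≤ a := hb.trans hab
  have key : ∀ G L : ℝ, L ≤ (a * (i + 1) - b * (j + 1)) * (a * (i + 2) - b * (j + 2)) + G →
      2 * (a * b) * (((i:ℝ) + 1) + (j + 1)) ≤
      (a ^ 2 * ((i + 1) * (i + 2)) - (a * b * (i + 1) * j - G))
        + (b ^ 2 * ((j + 1) * (j + 2)) - (a * b * (j + 1) * i + L)) := by
    intro G L h
    nlinarith
  unfold Uh Vh
  apply key
  by_cases h2 : 2 ≤ i ∧ bad a b (i - 2) (j + 2)
  · obtain ⟨hi, h1, h3⟩ := h2
    obtain ⟨k, rfl⟩ := Nat.exists_eq_add_of_le' hi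
    have hbad : 2 ≤ k + 2 ∧ bad a b (k + 2 - 2) (j + 2) := ⟨hi, h1, h3⟩
    rw [if_pos hbad]
    simp only [Nat.add_sub_cancel] at h1 h3
    push_cast at h1 h3 ⊢
    have f1 : a ≤ a * (k + 2 + 1) - b * (j + 1) := by nlinarith
    have f2 : 2 * a ≤ a * (k + 2 + 2) - b * (j + 2) := by nlinarith
    have := mul_le_mul f1 f2 (by positivity) (ha.trans f1)
    have h4 : 0 ≤ a ^ 2 := by positivity
    split_ifs <;> nlinarith
  · rw [if_neg h2]
    by_cases h : bad a b i j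
    · rw [if_pos h]
      obtain ⟨h1, h3⟩ := h
      nlinarith [sq_nonneg (a * (i + 1) - b * (j + 1) + (a - b) / 2), mul_nonneg hb ha,
        mul_nonneg hb (sub_nonneg.2 hab)]
    · rw [if_neg h]
      unfold bad at h
      rw [not_and_or, not_lt, not_lt] at h
      rcases h with h | h
      · have f1 : 0 ≤ a * (i + 1) - b * (j + 1) := by linarith
        have f2 : 0 ≤ a * (i + 2) - b * (j + 2) := by linarith
        have := mul_nonneg f1 f2
        linarith
      · have f1 : a * (i + 1) - b * (j + 1) ≤ 0 := by linarith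
        have f2 : a * (i + 2) - b * (j + 2) ≤ 0 := by linarith
        have := mul_nonneg_of_nonpos_of_nonpos f1 f2
        linarith

lemma two_mul_le_of_sq_le {c U V P Q : ℝ} (hU : 0 ≤ U) (hV : 0 ≤ V) (h : c ^ 2 ≤ U * V) :
    2 * c * P * Q ≤ U * P ^ 2 + V * Q ^ 2 := by
  rcases hU.eq_or_lt with rfl | hU
  · have : c = 0 := by nlinarith
    subst this
    nlinarith [mul_nonneg hV (sq_nonneg Q)]
  · have : 0 ≤ U * (U * P ^ 2 + V * Q ^ 2 - 2 * c * P * Q) := by
      nlinarith [sq_nonneg (U * P - c * Q), mul_nonneg (sub_nonneg.2 h) (sq_nonneg Q)]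
    have := nonneg_of_mul_nonneg_right this hU
    linarith

lemma pointwise (A B p q : ℂ) {w U V : ℝ} (hw : 0 ≤ w) (hU : 0 ≤ U) (hV : 0 ≤ V)
    (h : p = 0 ∨ q = 0 ∨ (w * (‖A‖ * ‖B‖)) ^ 2 ≤ U * V) :
    (w * ‖A‖ ^ 2 - U) * ‖p‖ ^ 2 + (w * ‖B‖ ^ 2 - V) * ‖q‖ ^ 2 ≤ w * ‖A * p - B * q‖ ^ 2 := by
  rcases h with rfl | rfl | h
  · simp only [norm_zero, mul_zero, zero_sub, norm_neg, norm_mul]
    nlinarith [mul_nonneg hV (sq_nonneg ‖q‖)]
  · simp only [norm_zero, mul_zero, sub_zero, norm_mul]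
    nlinarith [mul_nonneg hU (sq_nonneg ‖p‖)]
  · have h1 : (‖A‖ * ‖p‖ - ‖B‖ * ‖q‖) ^ 2 ≤ ‖A * p - B * q‖ ^ 2 := by
      rw [← norm_mul, ← norm_mul, ← sq_abs]
      exact pow_le_pow_left₀ (abs_nonneg _) (abs_norm_sub_norm_le _ _) 2
    have h2 := two_mul_le_of_sq_le (P := ‖p‖) (Q := ‖q‖) hU hV h
    have h3 := mul_le_mul_of_nonneg_left h1 hw
    nlinarith

variable {σ : Type} [Fintype σ] [DecidableEq σ]

lemma coeff_XX_eq_zero (x : σ) (Q : MvPolynomial σ ℂ) (m : σ →₀ ℕ) (h : m x < 2) :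
    coeff m (X x * (X x * Q)) = 0 := by
  by_contra h0
  have := MvPolynomial.mem_support_iff.2 h0
  rw [MvPolynomial.support_X_mul, Finset.mem_map] at this
  obtain ⟨m1, hm1, rfl⟩ := this
  rw [MvPolynomial.support_X_mul, Finset.mem_map] at hm1
  obtain ⟨m2, _, rfl⟩ := hm1
  simp at h

theorem two_var (x y : σ) (hxy : x ≠ y) (A B : ℂ) (hAB : ‖B‖ ≤ ‖A‖) (Q : MvPolynomial σ ℂ) :
    2 * (‖A‖ * ‖B‖) * (nrm (fun m => (wt m : ℝ)) (X x * Q) + nrm (fun m => (wt m : ℝ)) (X y * Q))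
      ≤ nrm (fun m => (wt m : ℝ)) (C A * (X x * (X x * Q)) - C B * (X y * (X y * Q))) := by
  set a := ‖A‖ with ha
  set b := ‖B‖ with hb
  have hb0 : 0 ≤ b := norm_nonneg _
  set P1 := X x * (X x * Q) with hP1
  set P2 := X y * (X y * Q) with hP2
  let U : (σ →₀ ℕ) → ℝ := fun m => wt m * Uh a b (m x - 2) (m y) /
    ((((m x - 2 : ℕ) : ℝ) + 1) * ((m x - 2 : ℕ) + 2))
  let V : (σ →₀ ℕ) → ℝ := fun m => wt m * Vh a b (m x) (m y - 2) /
    ((((m y - 2 : ℕ) : ℝ) + 1) * ((m y - 2 : ℕ) + 2))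
  have hU : ∀ m, 0 ≤ U m := fun m => by
    have := Uh_nonneg hb0 hAB (m x - 2) (m y)
    simp only [U]; positivity
  have hV : ∀ m, 0 ≤ V m := fun m => by
    have := Vh_nonneg hb0 hAB (m x) (m y - 2)
    simp only [V]; positivity
  have step1 : nrm (fun m => wt m * a ^ 2 - U m) P1 + nrm (fun m => wt m * b ^ 2 - V m) P2
      ≤ nrm (fun m => (wt m : ℝ)) (C A * P1 - C B * P2) := by
    have hs : (C A * P1 - C B * P2).support ⊆ P1.support ∪ P2.support := by
      intro m hm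
      rw [MvPolynomial.mem_support_iff] at hm
      rw [Finset.mem_union, MvPolynomial.mem_support_iff, MvPolynomial.mem_support_iff]
      by_contra hc
      rw [not_or, not_not, not_not] at hc
      apply hm
      rw [coeff_sub, coeff_C_mul, coeff_C_mul, hc.1, hc.2]; simp
    rw [nrm_eq_sum _ _ _ hs, nrm_eq_sum _ P1 (P1.support ∪ P2.support) Finset.subset_union_left,
      nrm_eq_sum _ P2 (P1.support ∪ P2.support) Finset.subset_union_right,
      ← Finset.sum_add_distrib]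
    refine Finset.sum_le_sum fun m _ => ?_
    rw [coeff_sub, coeff_C_mul, coeff_C_mul]
    apply pointwise A B _ _ (Nat.cast_nonneg _) (hU m) (hV m)
    by_cases h1 : m x < 2
    · exact Or.inl (coeff_XX_eq_zero x Q m h1)
    by_cases h2 : m y < 2
    · exact Or.inr (Or.inl (coeff_XX_eq_zero y Q m h2))
    right; right
    obtain ⟨i, hi⟩ := Nat.exists_eq_add_of_le' (not_lt.1 h1)
    obtain ⟨j, hj⟩ := Nat.exists_eq_add_of_le' (not_lt.1 h2)
    simp only [U, V, hi, hj, Nat.add_sub_cancel]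
    have hc := cross hb0 hAB i j
    rw [div_mul_div_comm, le_div_iff₀ (by positivity)]
    have hw : (0:ℝ) ≤ (wt m : ℝ) ^ 2 := by positivity
    have := mul_le_mul_of_nonneg_left hc hw
    rw [← ha, ← hb]
    nlinarith
  refine le_trans ?_ step1
  rw [hP1, hP2]
  simp only [nrm_X_mul]
  unfold nrm
  rw [← Finset.sum_add_distrib, ← Finset.sum_add_distrib, Finset.mul_sum]
  refine Finset.sum_le_sum fun m _ => ?_
  have hx2 : ((Finsupp.single x 1 + (Finsupp.single x 1 + m) : σ →₀ ℕ) x - 2) = m x := by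
    simp; omega
  have hx3 : ((Finsupp.single x 1 + (Finsupp.single x 1 + m) : σ →₀ ℕ) y) = m y := by
    simp [Finsupp.single_apply, hxy]
  have hy2 : ((Finsupp.single y 1 + (Finsupp.single y 1 + m) : σ →₀ ℕ) y - 2) = m y := by
    simp; omega
  have hy3 : ((Finsupp.single y 1 + (Finsupp.single y 1 + m) : σ →₀ ℕ) x) = m x := by
    simp [Finsupp.single_apply, hxy.symm]
  have hwx : (wt (Finsupp.single x 1 + (Finsupp.single x 1 + m)) : ℝ)
      = wt m * (((m x : ℝ) + 1) * (m x + 2)) := by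
    rw [wt_single_add, wt_single_add]; simp; ring
  have hwy : (wt (Finsupp.single y 1 + (Finsupp.single y 1 + m)) : ℝ)
      = wt m * (((m y : ℝ) + 1) * (m y + 2)) := by
    rw [wt_single_add, wt_single_add]; simp; ring
  simp only [U, V, hx2, hx3, hy2, hy3, hwx, hwy]
  rw [wt_single_add, wt_single_add]
  have e1 : (wt m : ℝ) * (((m x : ℝ) + 1) * (m x + 2)) * Uh a b (m x) (m y) /
      (((m x : ℝ) + 1) * (m x + 2)) = wt m * Uh a b (m x) (m y) := by
    field_simp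
  have e2 : (wt m : ℝ) * (((m y : ℝ) + 1) * (m y + 2)) * Vh a b (m x) (m y) /
      (((m y : ℝ) + 1) * (m y + 2)) = wt m * Vh a b (m x) (m y) := by
    field_simp
  rw [e1, e2]
  have hf := final_scalar hb0 hAB (m x) (m y)
  have hw : (0:ℝ) ≤ (wt m : ℝ) * ‖coeff m Q‖ ^ 2 := by positivity
  have := mul_le_mul_of_nonneg_left hf hw
  push_cast
  nlinarith

end Pool.Agent.H107Z
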